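import Pool.Agent.Helper431.Count

set_option autoImplicit false

namespace Pool.Agent.Helper431

open SimpleGraph

variable {V : Type*} {G : SimpleGraph V} {dep : V → ℕ} {p : V → V} {r : V}

/-- mixed resolving sets. -/
structure MR (G : SimpleGraph V) (S : Set V) : Prop where
  vv : ∀ x y, x ≠ y → ∃ s ∈ S, G.dist s x ≠ G.dist s y
  ve : ∀ x a b, G.Adj a b → ∃ s ∈ S, G.dist s x ≠ min (G.dist s a) (G.dist s b)
  ee : ∀ a b c d, G.Adj a b → G.Adj c d → ¬ (a = c ∧ b = d) → ¬ (a = d ∧ b = c) →
    ∃ s ∈ S, min (G.dist s a) (G.dist s b) ≠ min (G.dist s c) (G.dist s d)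

namespace BFS

theorem dep_eq (B : BFS G {r} dep p) (v : V) : dep v = G.dist v r := by
  obtain ⟨r', hr', h⟩ := B.dep_att v
  rw [Set.mem_singleton_iff] at hr'
  subst hr'
  exact h.symm

theorem dep_eq' (B : BFS G {r} dep p) (v : V) : dep v = G.dist r v := by
  rw [B.dep_eq, dist_comm]

theorem J_iff_not (B : BFS G {r} dep p) {s x : V} (h : ¬ J G dep {x} s) :
    dep s < G.dist s x + dep x := by
  rw [J_single] at h
  have := B.dep_lip s x
  omega

theorem mixed_of (B : BFS G {r} dep p) {S : Set V} (hr : r ∈ S)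
    (S1 : ∀ w, ∃ s ∈ S, J G dep {w} s)
    (S3 : ∀ x y, x ≠ y → dep x = dep y → ∃ s ∈ S, ¬ (J G dep {x} s ↔ J G dep {y} s))
    (S4 : ∀ u u' w, G.Adj u w → G.Adj u' w → dep u + 1 = dep w → dep u' + 1 = dep w → u ≠ u' →
      ∃ s ∈ S, min (G.dist s u) (G.dist s w) ≠ min (G.dist s u') (G.dist s w))
    (H1 : ∀ u w, G.Adj u w → dep u = dep w → ∀ x, ∃ s ∈ S,
      G.dist s x ≠ min (G.dist s u) (G.dist s w))
    (H2 : ∀ u w u' w', G.Adj u w → G.Adj u' w' → dep u = dep w → min (dep u') (dep w') = dep u →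
      ¬ (u = u' ∧ w = w') → ¬ (u = w' ∧ w = u') →
      ∃ s ∈ S, min (G.dist s u) (G.dist s w) ≠ min (G.dist s u') (G.dist s w')) :
    MR G S where
  vv x y hxy := by
    by_cases hd : dep x = dep y
    · obtain ⟨s, hs, h⟩ := S3 x y hxy hd
      rw [J_single, J_single] at h
      exact ⟨s, hs, by omega⟩
    · refine ⟨r, hr, ?_⟩
      rw [← B.dep_eq', ← B.dep_eq']
      exact hd
  ve := by
    intro x a b hab
    wlog hle : dep a ≤ dep b generalizing a b
    · obtain ⟨s, hs, h⟩ := this b a hab.symm (by omega)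
      exact ⟨s, hs, by rwa [min_comm]⟩
    by_cases hd : dep x = dep a
    · rcases Nat.lt_or_ge (dep a) (dep b) with hlt | hge
      · obtain ⟨s, hs, h⟩ := S1 b
        rw [J_single] at h
        have h1 := B.dep_lip s x
        exact ⟨s, hs, by omega⟩
      · exact H1 a b hab (by omega) x
    · refine ⟨r, hr, ?_⟩
      rw [← B.dep_eq', ← B.dep_eq', ← B.dep_eq']
      omega
  ee := by
    intro a b c d hab hcd h1 h2
    wlog hab' : dep a ≤ dep b generalizing a b
    · obtain ⟨s, hs, h⟩ := this b a hab.symm (fun h => h2 ⟨h.2, h.1⟩) (fun h => h1 ⟨h.2, h.1⟩)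
        (by omega)
      exact ⟨s, hs, by rwa [min_comm (G.dist s a)]⟩
    wlog hcd' : dep c ≤ dep d generalizing c d
    · obtain ⟨s, hs, h⟩ := this d c hcd.symm h2 h1 (by omega)
      exact ⟨s, hs, by rwa [min_comm (G.dist s c)]⟩
    by_cases hd : dep a = dep c
    · rcases Nat.lt_or_ge (dep a) (dep b) with hlt | hge
      · rcases Nat.lt_or_ge (dep c) (dep d) with hlt' | hge'
        · have k1 := B.dep_adj hab.symm
          have k2 := B.dep_adj hcd.symm
          by_cases hbd : b = d
          · subst hbd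
            exact S4 a c b hab hcd (by omega) (by omega) (fun h => h1 ⟨h, rfl⟩)
          · obtain ⟨s, hs, h⟩ := S3 b d hbd (by omega)
            rw [J_single, J_single] at h
            have e1 := B.dep_lip s a
            have e2 := B.dep_lip s b
            have e3 := B.dep_lip s c
            have e4 := B.dep_lip s d
            exact ⟨s, hs, by omega⟩
        · obtain ⟨s, hs, h⟩ := H2 c d a b hcd hab (by omega) (by omega)
            (fun h => h1 ⟨h.1.symm, h.2.symm⟩) (fun h => h2 ⟨h.2.symm, h.1.symm⟩)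
          exact ⟨s, hs, h.symm⟩
      · exact H2 a b c d hab hcd (by omega) (by omega) h1 h2
    · refine ⟨r, hr, ?_⟩
      rw [← B.dep_eq', ← B.dep_eq', ← B.dep_eq', ← B.dep_eq']
      omega

/-- A version of `lemmaA` only using the vertical non-forest edges. -/
theorem lemmaA_vert (B : BFS G {r} dep p) {Q : Set V} {x y : V}
    (hQ : ∀ s z, NT G {r} p s z → dep z + 1 = dep s → s ∈ Q ∧ z ∈ Q)
    (hxy : x ≠ y) (hd : dep x = dep y) (hex : ∃ s ∈ Q, InT {r} p {x} s) :
    ∃ s ∈ Q, ¬ (J G dep {x} s ↔ J G dep {y} s) := by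
  by_contra hcon
  push Not at hcon
  classical
  have hex' : ∃ m, ∃ s ∈ Q, InT {r} p {x} s ∧ dep s = m := by
    obtain ⟨s, hs, hs'⟩ := hex
    exact ⟨_, s, hs, hs', rfl⟩
  obtain ⟨s, hsQ, hsT, hsd⟩ := Nat.find_spec hex'
  have hmin : ∀ w ∈ Q, InT {r} p {x} w → dep s ≤ dep w := by
    intro w hw hwT
    rw [hsd]
    exact Nat.find_min' hex' ⟨w, hw, hwT, rfl⟩
  have hX : ∀ z ∈ ({x} : Set V), dep z = dep x := by simp
  have hY : ∀ z ∈ ({y} : Set V), dep z = dep x := by simp [hd]
  -- claim B
  have claimB' : ∀ v, InT {r} p {x} v → dep v < dep s → ¬ J G dep {y} v := by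
    intro v hv
    induction hv with
    | base z hz =>
      rw [Set.mem_singleton_iff] at hz
      subst hz
      intro _ hJ
      have := B.J_base hY hJ rfl
      exact hxy this
    | step v hv h ih =>
      intro hlt hJ
      have h1 := B.p_adj v hv
      have h2 := B.InT_dep hX h
      obtain ⟨z, hz, hzd, hzJ⟩ := B.J_step hY hJ (by omega)
      by_cases hzp : z = p v
      · subst hzp
        exact ih (by omega) hzJ
      · have hnt := B.nt_of_up hz hzd hzp
        have := hmin v (hQ v z hnt hzd).1 (InT.step v hv h)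
        omega
  -- claim C
  have claimC' : ∀ (k : ℕ) (v : V), dep v = k → ¬ InT {r} p {x} v → dep v < dep s →
      ¬ J G dep {x} v := by
    intro k
    induction k using Nat.strong_induction_on with
    | _ k ih =>
      intro v hk hv hlt hJ
      have hge := B.J_dep hX hJ
      rcases Nat.lt_or_ge (dep x) (dep v) with hlt' | hle
      · obtain ⟨z, hz, hzd, hzJ⟩ := B.J_step hX hJ hlt'
        have hvR : v ∉ ({r} : Set V) := fun h => by have := B.dep_root h; omega
        by_cases hzT : InT {r} p {x} z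
        · have hzp : z ≠ p v := by
            rintro rfl
            exact hv (InT.step v hvR hzT)
          have hnt := B.nt_of_up hz hzd hzp
          have := hmin z (hQ v z hnt hzd).2 hzT
          omega
        · exact ih (dep z) (by omega) z rfl hzT (by omega) hzJ
      · have : v ∈ ({x} : Set V) := B.J_base hX hJ (by omega)
        exact hv (InT.base v this)
  have hJX : J G dep {x} s := B.InT_J hsT
  have hJY : J G dep {y} s := (hcon s hsQ).mp hJX
  have hge := B.InT_dep hX hsT
  have hlt : dep x < dep s := by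
    rcases Nat.lt_or_ge (dep x) (dep s) with h | h
    · exact h
    · have e1 := B.J_base hY hJY (by omega)
      have e2 := B.InT_base hX hsT (by omega)
      rw [Set.mem_singleton_iff] at e1 e2
      exact absurd (e2.symm.trans e1) hxy
  obtain ⟨z, hz, hzd, hzJ⟩ := B.J_step hY hJY hlt
  have hzT : ¬ InT {r} p {x} z := fun hzT => claimB' z hzT (by omega) hzJ
  have hsX : s ∉ ({x} : Set V) := fun h => by have := hX s h; omega
  have hzp : z ≠ p s := by
    rintro rfl
    exact hzT (B.InT_parent hsT hsX).1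
  have hnt := B.nt_of_up hz hzd hzp
  have hzX : J G dep {x} z := (hcon z (hQ s z hnt hzd).2).mpr hzJ
  exact claimC' (dep z) z rfl hzT (by omega) hzX

end BFS

end Pool.Agent.Helper431
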