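import Pool.Agent.Helper431.Core

set_option autoImplicit false

namespace Pool.Agent.Helper431

open SimpleGraph

variable {V : Type*} {G : SimpleGraph V} {dep : V → ℕ} {p : V → V} {r : V}

theorem h1_normal (hc : G.Connected) {S : Set V} {u w : V} (hu : u ∈ S) (hw : w ∈ S)
    (h : G.Adj u w) (x : V) : ∃ s ∈ S, G.dist s x ≠ min (G.dist s u) (G.dist s w) := by
  by_cases hx : x = u
  · subst hx
    refine ⟨w, hw, ?_⟩
    have h1 : G.dist w w = 0 := dist_self
    have h2 : 0 < G.dist w x := hc.pos_dist_of_ne h.ne.symm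
    omega
  · refine ⟨u, hu, ?_⟩
    have h1 : G.dist u u = 0 := dist_self
    have h2 : 0 < G.dist u x := hc.pos_dist_of_ne (fun h => hx h.symm)
    omega

theorem h2_single (hc : G.Connected) {S : Set V} {u w u' w' : V} (hu : u ∈ S)
    (h1 : u ≠ u') (h2 : u ≠ w') :
    ∃ s ∈ S, min (G.dist s u) (G.dist s w) ≠ min (G.dist s u') (G.dist s w') := by
  refine ⟨u, hu, ?_⟩
  have e1 : G.dist u u = 0 := dist_self
  have e2 : 0 < G.dist u u' := hc.pos_dist_of_ne h1
  have e3 : 0 < G.dist u w' := hc.pos_dist_of_ne h2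
  omega

theorem h2_normal (hc : G.Connected) {S : Set V} {u w u' w' : V} (hu : u ∈ S) (hw : w ∈ S)
    (h : G.Adj u w) (hne1 : ¬ (u = u' ∧ w = w')) (hne2 : ¬ (u = w' ∧ w = u')) :
    ∃ s ∈ S, min (G.dist s u) (G.dist s w) ≠ min (G.dist s u') (G.dist s w') := by
  by_cases h1 : u ≠ u' ∧ u ≠ w'
  · exact h2_single hc hu h1.1 h1.2
  · have h2 : w ≠ w' ∧ w ≠ u' := by
      rcases not_and_or.mp h1 with h1 | h1
      · push Not at h1
        subst h1
        exact ⟨fun h' => hne1 ⟨rfl, h'⟩, h.ne.symm⟩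
      · push Not at h1
        subst h1
        exact ⟨h.ne.symm, fun h' => hne2 ⟨rfl, h'⟩⟩
    obtain ⟨s, hs, h'⟩ := h2_single (w := u) hc hw h2.2 h2.1
    exact ⟨s, hs, by rwa [min_comm (G.dist s u)]⟩

namespace BFS

/-- horizontal edges are non-forest edges. -/
theorem nt_horizontal (B : BFS G {r} dep p) {u w : V} (h : G.Adj u w) (hd : dep u = dep w) :
    NT G {r} p u w := by
  refine ⟨h, ?_, B.p_ne hd.le h.ne, B.p_ne hd.ge h.ne.symm⟩
  rintro ⟨h1, h2⟩
  rw [Set.mem_singleton_iff] at h1 h2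
  exact h.ne (h1.trans h2.symm)

/-- the full set `W ∪ {r}` is mixed resolving. -/
theorem full_MR [Fintype V] [DecidableRel G.Adj] (B : BFS G {r} dep p)
    (hdeg : ∀ v, 2 ≤ G.degree v) {S : Set V} (hr : r ∈ S) (hW : WS G {r} p ⊆ S) :
    MR G S ∧ ∀ w, ∃ s ∈ S, J G dep {w} s := by
  have hgood : ∀ v, v ≠ r → ∃ s ∈ S, InT {r} p {v} s := by
    intro v hv
    obtain ⟨s, hs, h⟩ := B.exists_W_below hdeg v (by simpa using hv)
    exact ⟨s, hW hs, h⟩
  have S1 : ∀ w, ∃ s ∈ S, J G dep {w} s := by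
    intro w
    by_cases hw : w = r
    · subst hw
      exact ⟨w, hr, by rw [J_single]; simp⟩
    · obtain ⟨s, hs, h⟩ := hgood w hw
      exact ⟨s, hs, B.InT_J h⟩
  refine ⟨B.mixed_of hr S1 ?_ ?_ ?_ ?_, S1⟩
  · intro x y hxy hd
    have hx : x ≠ r := by
      rintro rfl
      have h0 := B.dep_root (v := x) rfl
      have := B.root_of_dep (v := y) (by omega)
      exact hxy (Set.mem_singleton_iff.mp this).symm
    exact B.lemmaA_vert (Q := S)
      (fun s z h _ => ⟨hW ⟨z, h⟩, hW ⟨s, nt_symm h⟩⟩) hxy hd (hgood x hx)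
  · intro u u' w hu hu' h1 h2 hne
    by_cases hp : u = p w
    · have hp' : u' ≠ p w := fun h => hne (hp.trans h.symm)
      have hnt := B.nt_of_up hu'.symm h2 hp'
      obtain ⟨s, hs, h⟩ := h2_single (u := u') (w := w) (u' := u) (w' := w) B.conn
        (hW ⟨w, nt_symm hnt⟩) hne.symm hu'.ne
      exact ⟨s, hs, h.symm⟩
    · have hnt := B.nt_of_up hu.symm h1 hp
      exact h2_single B.conn (hW ⟨w, nt_symm hnt⟩) hne hu.ne
  · intro u w h hd x
    have hnt := B.nt_horizontal h hd
    exact h1_normal B.conn (hW ⟨w, hnt⟩) (hW ⟨u, nt_symm hnt⟩) h x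
  · intro u w u' w' h h' hd _ hne1 hne2
    have hnt := B.nt_horizontal h hd
    exact h2_normal B.conn (hW ⟨w, hnt⟩) (hW ⟨u, nt_symm hnt⟩) h hne1 hne2

/-- endpoints of the non-forest edges other than `ab`. -/
def WS' (G : SimpleGraph V) (r : V) (p : V → V) (a b : V) : Set V :=
  {u | ∃ v, NT G {r} p u v ∧ s(u, v) ≠ s(a, b)}

theorem nbr_two [Fintype V] [DecidableEq V] [DecidableRel G.Adj] {b x y z : V}
    (hb : G.degree b = 2) (hx : G.Adj b x) (hy : G.Adj b y) (hxy : x ≠ y) (hz : G.Adj b z) :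
    z = x ∨ z = y := by
  have hsub : ({x, y} : Finset V) ⊆ G.neighborFinset b := by
    intro w hw
    rw [Finset.mem_insert, Finset.mem_singleton] at hw
    rw [mem_neighborFinset]
    rcases hw with rfl | rfl
    · exact hx
    · exact hy
  have heq := Finset.eq_of_subset_of_card_le hsub (by
    rw [card_neighborFinset_eq_degree, hb, Finset.card_pair hxy])
  have hz' : z ∈ G.neighborFinset b := by rwa [mem_neighborFinset]
  rw [← heq, Finset.mem_insert, Finset.mem_singleton] at hz'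
  exact hz'

theorem third_nbr [Fintype V] [DecidableEq V] [DecidableRel G.Adj] {a x y : V}
    (ha : 3 ≤ G.degree a) : ∃ z, G.Adj a z ∧ z ≠ x ∧ z ≠ y := by
  have h1 : ((G.neighborFinset a) \ {x, y}).Nonempty := by
    rw [← Finset.card_pos]
    have h2 := Finset.le_card_sdiff ({x, y} : Finset V) (G.neighborFinset a)
    rw [card_neighborFinset_eq_degree] at h2
    have h3 : ({x, y} : Finset V).card ≤ 2 := Finset.card_le_two
    omega
  obtain ⟨z, hz⟩ := h1
  rw [Finset.mem_sdiff, mem_neighborFinset, Finset.mem_insert, Finset.mem_singleton] at hz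
  push Not at hz
  exact ⟨z, hz.1, hz.2.1, hz.2.2⟩

/-- every vertex `v ≠ r` has below it a member of `W'`, or `b` or `a`. -/
theorem below' [Fintype V] [DecidableEq V] [DecidableRel G.Adj] (B : BFS G {r} dep p)
    (hdeg : ∀ v, 2 ≤ G.degree v) (a b : V) (v : V) (hv : v ≠ r) :
    ∃ l, InT {r} p {v} l ∧ (∀ u, p u = l → u = l) ∧
      (l ∈ WS' G r p a b ∨ ((l = a ∨ l = b) ∧ G.degree l = 2)) := by
  classical
  obtain ⟨l, hl, hmax⟩ := Set.exists_max_image {u | InT {r} p {v} u} dep (Set.toFinite _)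
    ⟨v, InT.base v rfl⟩
  have hlR : l ∉ ({r} : Set V) := fun h => by
    have h0 := B.dep_root h
    have h1 := B.InT_dep (X := {v}) (n := dep v) (by simp) hl
    have h2 := B.dep_pos (v := v) (by simpa using hv)
    omega
  have hleaf : ∀ u, p u = l → u = l := by
    intro u hu
    by_contra hne
    have huR : u ∉ ({r} : Set V) := fun h => by
      rw [B.p_root u h] at hu
      exact hne hu
    have h1 := hmax u (InT.step u huR (by rw [hu]; exact hl))
    have h2 := (B.p_adj u huR).2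
    rw [hu] at h2
    omega
  have hnt : ∀ u, G.Adj l u → u ≠ p l → NT G {r} p l u := by
    intro u hu hne
    exact ⟨hu, fun h => hlR h.1, hne.symm, fun h => hu.ne (hleaf u h).symm⟩
  refine ⟨l, hl, hleaf, ?_⟩
  by_cases h2 : G.degree l = 2
  · have hcard : 1 < (G.neighborFinset l).card := by
      rw [card_neighborFinset_eq_degree]; omega
    obtain ⟨u, hu, hne⟩ := Finset.exists_mem_ne hcard (p l)
    rw [mem_neighborFinset] at hu
    by_cases he : s(l, u) = s(a, b)
    · right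
      rw [Sym2.eq_iff] at he
      rcases he with ⟨h, -⟩ | ⟨h, -⟩
      · exact ⟨Or.inl h, h2⟩
      · exact ⟨Or.inr h, h2⟩
    · left; exact ⟨u, hnt u hu hne, he⟩
  · left
    have h3 : 3 ≤ G.degree l := by have := hdeg l; omega
    obtain ⟨u, hu, hne, -⟩ := third_nbr (G := G) (x := p l) (y := p l) h3
    by_cases he : s(l, u) = s(a, b)
    · obtain ⟨u', hu', hne', hne''⟩ := third_nbr (G := G) (x := p l) (y := u) h3
      refine ⟨u', hnt u' hu' hne', ?_⟩
      rw [← he]
      intro h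
      rw [Sym2.eq_iff] at h
      rcases h with ⟨-, h⟩ | ⟨h, h'⟩
      · exact hne'' h
      · exact hne'' (h'.trans h)
    · exact ⟨u, hnt u hu hne, he⟩

end BFS

end Pool.Agent.Helper431
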