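import Pool.Agent.Helper431.Core2

set_option autoImplicit false

namespace Pool.Agent.Helper431

open SimpleGraph

variable {V : Type*} {G : SimpleGraph V} {dep : V → ℕ} {p : V → V} {r : V}

namespace BFS

theorem last_step (B : BFS G {r} dep p) {s b : V} (hs : s ≠ b) (hJ : J G dep {b} s) :
    ∃ z, G.Adj b z ∧ dep z = dep b + 1 ∧ J G dep {z} s := by
  rw [J_single] at hJ
  obtain ⟨z, hz, hz'⟩ := exists_next B.conn (fun h => hs h.symm : b ≠ s)
  have h1 := B.dep_lip s z
  have h2 := B.dep_adj hz.symm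
  rw [dist_comm (u := b)] at hz'
  rw [dist_comm (u := z)] at hz'
  refine ⟨z, hz, by omega, ?_⟩
  rw [J_single]
  omega

/-- Case M3. -/
theorem caseM3 [Fintype V] [DecidableEq V] [DecidableRel G.Adj] (B : BFS G {r} dep p)
    (hdeg : ∀ v, 2 ≤ G.degree v) {a b : V} (hab : G.Adj a b) (ha : 3 ≤ G.degree a)
    (hb : G.degree b = 2) (hd : dep a = dep b) {S : Set V} (hr : r ∈ S) (hbS : b ∈ S)
    (hW : WS' G r p a b ⊆ S) : MR G S ∧ ∀ w, ∃ s ∈ S, J G dep {w} s := by
  have hR : ∀ {v : V}, v ≠ r → v ∉ ({r} : Set V) := fun h => by simpa using h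
  have hbr : b ≠ r := by
    rintro rfl
    have h0 := B.dep_root (v := b) rfl
    have := B.root_of_dep (v := a) (by omega)
    exact hab.ne (Set.mem_singleton_iff.mp this)
  have har : a ≠ r := by
    rintro rfl
    have h0 := B.dep_root (v := a) rfl
    have := B.root_of_dep (v := b) (by omega)
    exact hab.ne (Set.mem_singleton_iff.mp this).symm
  have hpb := B.p_adj b (hR hbr)
  have hpa := B.p_adj a (hR har)
  have hapb : a ≠ p b := by rintro h; rw [← h] at hpb; omega
  have hbn : ∀ z, G.Adj b z → z = a ∨ z = p b := fun z hz =>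
    nbr_two hb hab.symm hpb.1 hapb hz
  have hJb : ∀ s, J G dep {b} s → s = b := by
    intro s hs
    by_contra hne
    obtain ⟨z, hz, hzd, -⟩ := B.last_step hne hs
    rcases hbn z hz with rfl | rfl <;> omega
  -- every vertex has a member of S below it
  have hgood : ∀ v, v ≠ r → ∃ s ∈ S, InT {r} p {v} s := by
    intro v hv
    obtain ⟨l, hl, hleaf, h | ⟨h | h, h2⟩⟩ := B.below' hdeg a b v hv
    · exact ⟨l, hW h, hl⟩
    · subst h; omega
    · subst h; exact ⟨l, hbS, hl⟩
  have S1 : ∀ w, ∃ s ∈ S, J G dep {w} s := by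
    intro w
    by_cases hw : w = r
    · subst hw
      exact ⟨w, hr, by rw [J_single]; simp⟩
    · obtain ⟨s, hs, h⟩ := hgood w hw
      exact ⟨s, hs, B.InT_J h⟩
  have hvert : ∀ s z, NT G {r} p s z → dep z ≠ dep s → s ∈ S ∧ z ∈ S := by
    intro s z h hdz
    have hne : s(s, z) ≠ s(a, b) := by
      intro he
      rw [Sym2.eq_iff] at he
      rcases he with ⟨rfl, rfl⟩ | ⟨rfl, rfl⟩ <;> omega
    have hne' : s(z, s) ≠ s(a, b) := by rwa [Sym2.eq_swap]
    exact ⟨hW ⟨z, h, hne⟩, hW ⟨s, nt_symm h, hne'⟩⟩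
  have hhor : ∀ u w, G.Adj u w → dep u = dep w → s(u, w) ≠ s(a, b) → u ∈ S ∧ w ∈ S := by
    intro u w h hd' hne
    have hnt := B.nt_horizontal h hd'
    have hne' : s(w, u) ≠ s(a, b) := by rwa [Sym2.eq_swap]
    exact ⟨hW ⟨w, hnt, hne⟩, hW ⟨u, nt_symm hnt, hne'⟩⟩
  -- the special horizontal edge
  have key : ∀ x, ∃ s ∈ S, G.dist s x ≠ min (G.dist s a) (G.dist s b) := by
    intro x
    by_cases hxb : x = b
    · subst hxb
      obtain ⟨z, hz, hz1, hz2⟩ := third_nbr (G := G) (x := p a) (y := x) ha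
      by_cases hpz : p z = a
      · -- T-child
        have hzr : z ≠ r := by
          rintro rfl
          rw [B.p_root z rfl] at hpz
          exact hz.ne hpz.symm
        have hzd := (B.p_adj z (hR hzr)).2
        obtain ⟨s, hs, hsT⟩ := hgood z hzr
        have hJz := B.InT_J hsT
        have hJa : J G dep {a} s := B.InT_J (InT_trans (by
          rintro y hy
          rw [Set.mem_singleton_iff] at hy
          subst hy
          exact InT.step _ (hR hzr) (InT.base _ (by rw [hpz]; rfl))) hsT)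
        have hsb : s ≠ x := by
          rintro rfl
          have := B.InT_dep (X := {z}) (n := dep z) (by simp) hsT
          rw [hpz] at hzd
          omega
        have hnJ : ¬ J G dep {x} s := fun h => hsb (hJb s h)
        have h1 := B.J_iff_not hnJ
        rw [J_single] at hJa
        exact ⟨s, hs, by omega⟩
      · -- then a ∈ S
        have hnt : NT G {r} p a z := ⟨hz, fun h => (hR har) h.1, hz1.symm, hpz⟩
        have haS : a ∈ S := by
          refine hW ⟨z, hnt, ?_⟩
          intro he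
          rw [Sym2.eq_iff] at he
          rcases he with ⟨-, h⟩ | ⟨h, -⟩
          · exact hz2 h
          · exact hab.ne h
        refine ⟨a, haS, ?_⟩
        have e1 : G.dist a a = 0 := dist_self
        have e2 : 0 < G.dist a x := B.conn.pos_dist_of_ne hab.ne
        omega
    · refine ⟨b, hbS, ?_⟩
      have e1 : G.dist b b = 0 := dist_self
      have e2 : 0 < G.dist b x := B.conn.pos_dist_of_ne (fun h => hxb h.symm)
      omega
  have key2 : ∀ u' w', G.Adj u' w' → min (dep u') (dep w') = dep a → ¬ (a = u' ∧ b = w') →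
      ¬ (a = w' ∧ b = u') →
      ∃ s ∈ S, min (G.dist s a) (G.dist s b) ≠ min (G.dist s u') (G.dist s w') := by
    intro u' w' h hm hne1 hne2
    have hb1 : b ≠ u' := by
      rintro rfl
      rcases hbn w' h with rfl | rfl
      · exact hne2 ⟨rfl, rfl⟩
      · omega
    have hb2 : b ≠ w' := by
      rintro rfl
      rcases hbn u' h.symm with rfl | rfl
      · exact hne1 ⟨rfl, rfl⟩
      · omega
    obtain ⟨s, hs, h'⟩ := h2_single (w := a) B.conn hbS hb1 hb2
    exact ⟨s, hs, by rwa [min_comm (G.dist s a)]⟩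
  refine ⟨B.mixed_of hr S1 ?_ ?_ ?_ ?_, S1⟩
  · intro x y hxy hd'
    have hx : x ≠ r := by
      rintro rfl
      have h0 := B.dep_root (v := x) rfl
      have := B.root_of_dep (v := y) (by omega)
      exact hxy (Set.mem_singleton_iff.mp this).symm
    exact B.lemmaA_vert (Q := S) (fun s z h hzd => hvert s z h (by omega)) hxy hd' (hgood x hx)
  · intro u u' w hu hu' h1 h2 hne
    by_cases hp : u = p w
    · have hp' : u' ≠ p w := fun h => hne (hp.trans h.symm)
      have hnt := B.nt_of_up hu'.symm h2 hp'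
      obtain ⟨s, hs, h⟩ := h2_single (u := u') (w := w) (u' := u) (w' := w) B.conn
        (hvert _ _ hnt (by omega)).2 hne.symm hu'.ne
      exact ⟨s, hs, h.symm⟩
    · have hnt := B.nt_of_up hu.symm h1 hp
      exact h2_single B.conn (hvert _ _ hnt (by omega)).2 hne hu.ne
  · intro u w h hd' x
    by_cases he : s(u, w) = s(a, b)
    · rw [Sym2.eq_iff] at he
      rcases he with ⟨rfl, rfl⟩ | ⟨rfl, rfl⟩
      · exact key x
      · obtain ⟨s, hs, h⟩ := key x
        exact ⟨s, hs, by rwa [min_comm (G.dist s u)]⟩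
    · have := hhor u w h hd' he
      exact h1_normal B.conn this.1 this.2 h x
  · intro u w u' w' h h' hd' hm hne1 hne2
    by_cases he : s(u, w) = s(a, b)
    · rw [Sym2.eq_iff] at he
      rcases he with ⟨rfl, rfl⟩ | ⟨rfl, rfl⟩
      · exact key2 u' w' h' hm hne1 hne2
      · obtain ⟨s, hs, h⟩ := key2 u' w' h' (by omega) (fun h => hne2 ⟨h.2, h.1⟩)
          (fun h => hne1 ⟨h.2, h.1⟩)
        exact ⟨s, hs, by rwa [min_comm (G.dist s u)]⟩
    · have := hhor u w h hd' he
      exact h2_normal B.conn this.1 this.2 h hne1 hne2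

end BFS

end Pool.Agent.Helper431
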