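import Pool.Agent.Helper431.Core3

set_option autoImplicit false

namespace Pool.Agent.Helper431

open SimpleGraph

variable {V : Type*} {G : SimpleGraph V} {dep : V → ℕ} {p : V → V} {r : V}

namespace BFS

theorem anc_unique (B : BFS G {r} dep p) {x y s : V} (hd : dep x = dep y)
    (hx : InT {r} p {x} s) (hy : InT {r} p {y} s) : x = y := by
  have hX : ∀ z ∈ ({x} : Set V), dep z = dep x := by simp
  have hY : ∀ z ∈ ({y} : Set V), dep z = dep x := by simp [hd]
  induction hx with
  | base z hz =>
    rw [Set.mem_singleton_iff] at hz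
    subst hz
    exact Set.mem_singleton_iff.mp (B.InT_base hY hy rfl)
  | step s hs h ih =>
    have h1 := B.InT_dep hX h
    have h2 := (B.p_adj s hs).2
    have hsy : s ∉ ({y} : Set V) := by
      intro h'
      rw [Set.mem_singleton_iff] at h'
      subst h'; omega
    exact ih (B.InT_parent hy hsy).1

/-- Lemma F. -/
theorem lemmaF (B : BFS G {r} dep p) {a b : V} (hda : dep a + 1 = dep b)
    (hbn : ∀ z, G.Adj b z → dep z < dep b) {S : Set V} (hbS : b ∈ S)
    (hW : WS' G r p a b ⊆ S) {x y : V} (hxy : x ≠ y) (hd : dep x = dep y)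
    (hcon : ∀ s ∈ S, (J G dep {x} s ↔ J G dep {y} s)) (hex : ∃ s ∈ S, InT {r} p {x} s) :
    InT {r} p {x} b ∧ ¬ InT {r} p {x} a := by
  classical
  have hex' : ∃ m, ∃ s ∈ S, InT {r} p {x} s ∧ dep s = m := by
    obtain ⟨s, hs, hs'⟩ := hex
    exact ⟨_, s, hs, hs', rfl⟩
  obtain ⟨s, hsQ, hsT, hsd⟩ := Nat.find_spec hex'
  have hmin : ∀ w ∈ S, InT {r} p {x} w → dep s ≤ dep w := by
    intro w hw hwT
    rw [hsd]
    exact Nat.find_min' hex' ⟨w, hw, hwT, rfl⟩
  have hX : ∀ z ∈ ({x} : Set V), dep z = dep x := by simp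
  have hY : ∀ z ∈ ({y} : Set V), dep z = dep x := by simp [hd]
  -- vertical non-forest edges
  have hvert : ∀ s z, NT G {r} p s z → dep z + 1 = dep s →
      (s ∈ S ∧ (z ∈ S ∨ (z = a ∧ s = b))) := by
    intro s z h hzd
    by_cases he : s(s, z) = s(a, b)
    · rw [Sym2.eq_iff] at he
      rcases he with ⟨rfl, rfl⟩ | ⟨rfl, rfl⟩
      · omega
      · exact ⟨hbS, Or.inr ⟨rfl, rfl⟩⟩
    · have he' : s(z, s) ≠ s(a, b) := by rwa [Sym2.eq_swap]
      exact ⟨hW ⟨z, h, he⟩, Or.inl (hW ⟨s, nt_symm h, he'⟩)⟩
  have claimB' : ∀ v, InT {r} p {x} v → dep v < dep s → ¬ J G dep {y} v := by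
    intro v hv
    induction hv with
    | base z hz =>
      rw [Set.mem_singleton_iff] at hz
      subst hz
      intro _ hJ
      have := B.J_base hY hJ rfl
      exact hxy this
    | step v hv h ih =>
      intro hlt hJ
      have h1 := B.p_adj v hv
      have h2 := B.InT_dep hX h
      obtain ⟨z, hz, hzd, hzJ⟩ := B.J_step hY hJ (by omega)
      by_cases hzp : z = p v
      · subst hzp
        exact ih (by omega) hzJ
      · have hnt := B.nt_of_up hz hzd hzp
        have := hmin v (hvert v z hnt hzd).1 (InT.step v hv h)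
        omega
  have claimC' : ∀ (k : ℕ) (v : V), dep v = k → ¬ InT {r} p {x} v → dep v < dep s → v ≠ b →
      ¬ J G dep {x} v := by
    intro k
    induction k using Nat.strong_induction_on with
    | _ k ih =>
      intro v hk hv hlt hvb hJ
      have hge := B.J_dep hX hJ
      rcases Nat.lt_or_ge (dep x) (dep v) with hlt' | hle
      · obtain ⟨z, hz, hzd, hzJ⟩ := B.J_step hX hJ hlt'
        have hvR : v ∉ ({r} : Set V) := fun h => by have := B.dep_root h; omega
        by_cases hzT : InT {r} p {x} z
        · have hzp : z ≠ p v := by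
            rintro rfl
            exact hv (InT.step v hvR hzT)
          have hnt := B.nt_of_up hz hzd hzp
          rcases (hvert v z hnt hzd).2 with h | h
          · have := hmin z h hzT
            omega
          · exact hvb h.2
        · refine ih (dep z) (by omega) z rfl hzT (by omega) ?_ hzJ
          rintro rfl
          have := hbn v hz.symm
          omega
      · have : v ∈ ({x} : Set V) := B.J_base hX hJ (by omega)
        exact hv (InT.base v this)
  have hJX : J G dep {x} s := B.InT_J hsT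
  have hJY : J G dep {y} s := (hcon s hsQ).mp hJX
  have hge := B.InT_dep hX hsT
  have hlt : dep x < dep s := by
    rcases Nat.lt_or_ge (dep x) (dep s) with h | h
    · exact h
    · have e1 := B.J_base hY hJY (by omega)
      have e2 := B.InT_base hX hsT (by omega)
      rw [Set.mem_singleton_iff] at e1 e2
      exact absurd (e2.symm.trans e1) hxy
  obtain ⟨z, hz, hzd, hzJ⟩ := B.J_step hY hJY hlt
  have hzT : ¬ InT {r} p {x} z := fun hzT => claimB' z hzT (by omega) hzJ
  have hsX : s ∉ ({x} : Set V) := fun h => by have := hX s h; omega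
  have hzp : z ≠ p s := by
    rintro rfl
    exact hzT (B.InT_parent hsT hsX).1
  have hnt := B.nt_of_up hz hzd hzp
  rcases (hvert s z hnt hzd).2 with h | h
  · exfalso
    have hzX : J G dep {x} z := (hcon z h).mpr hzJ
    refine claimC' (dep z) z rfl hzT (by omega) ?_ hzX
    rintro rfl
    have := hbn s hz.symm
    omega
  · rw [← h.1, ← h.2]
    exact ⟨hsT, hzT⟩

/-- changing the parent of `b`. -/
theorem update_parent [DecidableEq V] (B : BFS G {r} dep p) {a b : V} (hbr : b ≠ r)
    (hab : G.Adj b a) (hda : dep a + 1 = dep b) : BFS G {r} dep (Function.update p b a) where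
  conn := B.conn
  dep_le := B.dep_le
  dep_att := B.dep_att
  p_adj v hv := by
    by_cases h : v = b
    · subst h; simp [hab, hda]
    · rw [Function.update_of_ne h]; exact B.p_adj v hv
  p_root v hv := by
    have h : v ≠ b := by
      rintro rfl
      exact hbr (Set.mem_singleton_iff.mp hv)
    rw [Function.update_of_ne h]; exact B.p_root v hv

theorem InT_update [DecidableEq V] (B : BFS G {r} dep p) {a b x s : V}
    (hs : InT {r} p {x} s) (hd : dep s < dep b) : InT {r} (Function.update p b a) {x} s := by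
  induction hs with
  | base z hz => exact InT.base _ hz
  | step s hs h ih =>
    have h1 := (B.p_adj s hs).2
    have hsb : s ≠ b := by rintro rfl; omega
    refine InT.step _ hs ?_
    rw [Function.update_of_ne hsb]
    exact ih (by omega)

/-- Case M1. -/
theorem caseM1 [Fintype V] [DecidableEq V] [DecidableRel G.Adj] (B : BFS G {r} dep p)
    (hdeg : ∀ v, 2 ≤ G.degree v) {a a' b : V} (hab : G.Adj b a) (hab' : G.Adj b a')
    (hne : a ≠ a') (hb : G.degree b = 2) (hda : dep a + 1 = dep b) (hda' : dep a' + 1 = dep b)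
    (h3 : 3 ≤ G.degree a ∨ 3 ≤ G.degree a') (hpb : p b = a')
    {S : Set V} (hr : r ∈ S) (hbS : b ∈ S)
    (hW : WS' G r p a b ⊆ S) : MR G S ∧ ∀ w, ∃ s ∈ S, J G dep {w} s := by
  have hbr : b ≠ r := by
    rintro rfl
    have h0 := B.dep_root (v := b) rfl
    omega
  have hbn : ∀ z, G.Adj b z → z = a ∨ z = a' := fun z hz => nbr_two hb hab hab' hne hz
  have hbn' : ∀ z, G.Adj b z → dep z < dep b := by
    intro z hz
    rcases hbn z hz with rfl | rfl <;> omega
  set p2 := Function.update p b a with hp2
  have B2 : BFS G {r} dep p2 := B.update_parent hbr hab hda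
  have hWS : ∀ u v, (NT G {r} p u v ∧ s(u, v) ≠ s(a, b)) ↔
      (NT G {r} p2 u v ∧ s(u, v) ≠ s(a', b)) := by
    intro u v
    by_cases hu : u = b
    · subst hu
      constructor
      · rintro ⟨h, h'⟩
        exfalso
        rcases hbn v h.1 with rfl | rfl
        · exact h' Sym2.eq_swap
        · exact h.2.2.1 hpb
      · rintro ⟨h, h'⟩
        exfalso
        rcases hbn v h.1 with rfl | rfl
        · exact h.2.2.1 (by simp [hp2])
        · exact h' Sym2.eq_swap
    · by_cases hv : v = b
      · subst hv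
        constructor
        · rintro ⟨h, h'⟩
          exfalso
          rcases hbn u h.1.symm with rfl | rfl
          · exact h' rfl
          · exact h.2.2.2 hpb
        · rintro ⟨h, h'⟩
          exfalso
          rcases hbn u h.1.symm with rfl | rfl
          · exact h.2.2.2 (by simp [hp2])
          · exact h' rfl
      · have e1 : p2 u = p u := by rw [hp2, Function.update_of_ne hu]
        have e2 : p2 v = p v := by rw [hp2, Function.update_of_ne hv]
        have e3 : ∀ c, s(u, v) ≠ s(c, b) := by
          intro c h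
          rw [Sym2.eq_iff] at h
          rcases h with ⟨-, h⟩ | ⟨h, -⟩
          · exact hv h
          · exact hu h
        unfold NT
        rw [e1, e2]
        simp [e3]
  have hWeq : WS' G r p2 a' b = WS' G r p a b := by
    ext u
    constructor
    · rintro ⟨v, h⟩; exact ⟨v, (hWS u v).mpr h⟩
    · rintro ⟨v, h⟩; exact ⟨v, (hWS u v).mp h⟩
  have hfull : ∀ (q : V → V) (c : V), BFS G {r} dep q → WS' G r q c b ⊆ S → c ∈ S →
      MR G S ∧ ∀ w, ∃ s ∈ S, J G dep {w} s := by
    intro q c Bq hq hc
    refine Bq.full_MR hdeg hr ?_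
    rintro u ⟨v, h⟩
    by_cases he : s(u, v) = s(c, b)
    · rw [Sym2.eq_iff] at he
      rcases he with ⟨rfl, -⟩ | ⟨rfl, -⟩
      · exact hc
      · exact hbS
    · exact hq ⟨v, h, he⟩
  by_cases haS : a ∈ S
  · exact hfull p a B hW haS
  by_cases haS' : a' ∈ S
  · exact hfull p2 a' B2 (hWeq ▸ hW) haS'
  -- S3
  have S3 : ∀ x y, x ≠ y → dep x = dep y → ∃ s ∈ S, ¬ (J G dep {x} s ↔ J G dep {y} s) := by
    by_contra hcon
    push Not at hcon
    obtain ⟨x, y, hxy, hd, hcon⟩ := hcon
    have hne_r : ∀ x y : V, x ≠ y → dep x = dep y → x ≠ r := by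
      rintro x y hxy hd rfl
      have h0 := B.dep_root (v := x) rfl
      have := B.root_of_dep (v := y) (by omega)
      exact hxy (Set.mem_singleton_iff.mp this).symm
    have hor : ∀ x, x ≠ r → (∃ s ∈ S, InT {r} p {x} s) ∨ (InT {r} p {x} a ∧ G.degree a = 2) := by
      intro x hx
      obtain ⟨l, hl, -, h | ⟨h | h, h2⟩⟩ := B.below' hdeg a b x hx
      · exact Or.inl ⟨l, hW h, hl⟩
      · subst h; exact Or.inr ⟨hl, h2⟩
      · subst h; exact Or.inl ⟨l, hbS, hl⟩
    have hor2 : ∀ x, x ≠ r → (∃ s ∈ S, InT {r} p2 {x} s) ∨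
        (InT {r} p2 {x} a' ∧ G.degree a' = 2) := by
      intro x hx
      obtain ⟨l, hl, -, h | ⟨h | h, h2⟩⟩ := B2.below' hdeg a' b x hx
      · exact Or.inl ⟨l, hW (hWeq ▸ h), hl⟩
      · subst h; exact Or.inr ⟨hl, h2⟩
      · subst h; exact Or.inl ⟨l, hbS, hl⟩
    have hF := fun (x y : V) (hxy : x ≠ y) (hd : dep x = dep y)
      (hcon : ∀ s ∈ S, (J G dep {x} s ↔ J G dep {y} s)) =>
      B.lemmaF hda hbn' hbS hW hxy hd hcon
    have hF2 := fun (x y : V) (hxy : x ≠ y) (hd : dep x = dep y)
      (hcon : ∀ s ∈ S, (J G dep {x} s ↔ J G dep {y} s)) =>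
      B2.lemmaF hda' hbn' hbS (hWeq ▸ hW) hxy hd hcon
    -- main argument
    have main : ∀ x y : V, x ≠ y → dep x = dep y →
        (∀ s ∈ S, (J G dep {x} s ↔ J G dep {y} s)) → (∃ s ∈ S, InT {r} p {x} s) → False := by
      intro x y hxy hd hcon hex
      have hx := hne_r x y hxy hd
      have hy := hne_r y x hxy.symm hd.symm
      have hb1 := (hF x y hxy hd hcon hex).1
      have hy1 : InT {r} p {y} a ∧ G.degree a = 2 := by
        rcases hor y hy with h | h
        · have hb2 := (hF y x hxy.symm hd.symm (fun s hs => (hcon s hs).symm) h).1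
          exact absurd (B.anc_unique hd hb1 hb2) hxy
        · exact h
      have h3' : 3 ≤ G.degree a' := by omega
      have hy2 : InT {r} p2 {y} b := by
        refine InT.step _ (by simpa using hbr) ?_
        have : p2 b = a := by simp [hp2]
        rw [this]
        exact B.InT_update hy1.1 (by omega)
      rcases hor2 x hx with h | h
      · have := (hF2 x y hxy hd hcon h).1
        exact hxy (B2.anc_unique hd this hy2)
      · omega
    rcases hor x (hne_r x y hxy hd) with h | h
    · exact main x y hxy hd hcon h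
    · rcases hor y (hne_r y x hxy.symm hd.symm) with h' | h'
      · exact main y x hxy.symm hd.symm (fun s hs => (hcon s hs).symm) h'
      · exact hxy (B.anc_unique hd h.1 h'.1)
  -- S1
  have S1 : ∀ w, ∃ s ∈ S, J G dep {w} s := by
    intro w
    by_cases hw : w = r
    · subst hw
      exact ⟨w, hr, by rw [J_single]; simp⟩
    · obtain ⟨l, hl, -, h | ⟨h | h, h2⟩⟩ := B.below' hdeg a b w hw
      · exact ⟨l, hW h, B.InT_J hl⟩
      · subst h
        refine ⟨b, hbS, ?_⟩
        have h1 := J_single.mp (B.InT_J hl)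
        have h2 : G.dist b w ≤ G.dist b l + G.dist l w := B.conn.dist_triangle
        have h3 : G.dist b l = 1 := dist_eq_one_iff_adj.mpr hab
        have h4 := B.dep_lip b w
        rw [J_single]
        omega
      · subst h
        exact ⟨l, hbS, B.InT_J hl⟩
  have hvert : ∀ u w, G.Adj u w → dep u + 1 = dep w → u ≠ p w → w ≠ b → u ∈ S := by
    intro u w h hd hne hwb
    have hnt := B.nt_of_up h.symm hd hne
    refine hW ⟨w, nt_symm hnt, ?_⟩
    intro he
    rw [Sym2.eq_iff] at he
    rcases he with ⟨-, h⟩ | ⟨h1, h2⟩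
    · exact hwb h
    · subst h1 h2; omega
  have hhor : ∀ u w, G.Adj u w → dep u = dep w → u ∈ S ∧ w ∈ S := by
    intro u w h hd'
    have hnt := B.nt_horizontal h hd'
    have hne : s(u, w) ≠ s(a, b) := by
      intro he
      rw [Sym2.eq_iff] at he
      rcases he with ⟨rfl, rfl⟩ | ⟨rfl, rfl⟩ <;> omega
    have hne' : s(w, u) ≠ s(a, b) := by rwa [Sym2.eq_swap]
    exact ⟨hW ⟨w, hnt, hne⟩, hW ⟨u, nt_symm hnt, hne'⟩⟩
  refine ⟨B.mixed_of hr S1 S3 ?_ ?_ ?_, S1⟩
  · intro u u' w hu hu' h1 h2 hne'
    by_cases hwb : w = b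
    · subst hwb
      -- {u, u'} = {a, a'}
      obtain ⟨s, hs, h⟩ := S3 u u' hne' (by omega)
      refine ⟨s, hs, ?_⟩
      have hsw : s ≠ w := by
        rintro rfl
        apply h
        rw [J_single, J_single]
        have e1 : G.dist s u = 1 := dist_eq_one_iff_adj.mpr hu.symm
        have e2 : G.dist s u' = 1 := dist_eq_one_iff_adj.mpr hu'.symm
        omega
      obtain ⟨z, hz, hz'⟩ := exists_next B.conn (fun h => hsw h.symm : w ≠ s)
      have hz2 : z = u ∨ z = u' := nbr_two hb hu.symm hu'.symm hne' hz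
      rw [J_single, J_single] at h
      have e1 := B.dep_lip s u
      have e2 := B.dep_lip s u'
      rw [dist_comm (u := w), dist_comm (u := z)] at hz'
      rcases hz2 with rfl | rfl <;> omega
    · by_cases hp : u = p w
      · have hp' : u' ≠ p w := fun h => hne' (hp.trans h.symm)
        obtain ⟨s, hs, h⟩ := h2_single (u := u') (w := w) (u' := u) (w' := w) B.conn
          (hvert u' w hu' h2 hp' hwb) hne'.symm hu'.ne
        exact ⟨s, hs, h.symm⟩
      · exact h2_single B.conn (hvert u w hu h1 hp hwb) hne' hu.ne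
  · intro u w h hd' x
    have := hhor u w h hd'
    exact h1_normal B.conn this.1 this.2 h x
  · intro u w u' w' h h' hd' hm hne1 hne2
    have := hhor u w h hd'
    exact h2_normal B.conn this.1 this.2 h hne1 hne2

end BFS

end Pool.Agent.Helper431
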