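import Pool.Agent.Helper431.Core4

set_option autoImplicit false

namespace Pool.Agent.Helper431

open SimpleGraph

variable {V : Type*} {G : SimpleGraph V} {dep : V → ℕ} {p : V → V} {r : V}

theorem card_NE_root [Fintype V] [DecidableEq V] [DecidableRel G.Adj] (B : BFS G {r} dep p) :
    (NE G {r} p).card + Fintype.card V ≤ G.edgeFinset.card + 1 := by
  classical
  let T : Finset (Sym2 V) := (Finset.univ.erase r).image (fun v => s(v, p v))
  have hnotR : ∀ {v : V}, v ∈ Finset.univ.erase r → v ∉ ({r} : Set V) := by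
    intro v hv
    simpa using hv
  have hTcard : T.card = Fintype.card V - 1 := by
    rw [Finset.card_image_of_injOn, Finset.card_erase_of_mem (Finset.mem_univ r),
      Finset.card_univ]
    intro v hv w hw h
    have hv' := B.p_adj v (hnotR hv)
    have hw' := B.p_adj w (hnotR hw)
    simp only [Sym2.eq_iff] at h
    rcases h with h | ⟨h1, h2⟩
    · exact h.1
    · rw [← h1] at hw'
      rw [h2] at hv'
      omega
  have hTG : T ⊆ G.edgeFinset := by
    intro e he
    simp only [T, Finset.mem_image] at he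
    obtain ⟨v, hv, rfl⟩ := he
    rw [mem_edgeFinset]
    exact (B.p_adj v (hnotR hv)).1
  have hNG : NE G {r} p ⊆ G.edgeFinset := by
    intro e he
    rw [mem_NE] at he
    obtain ⟨u, v, rfl, h⟩ := he
    rw [mem_edgeFinset]
    exact h.1
  have hNT : Disjoint (NE G {r} p) T := by
    rw [Finset.disjoint_left]
    intro e he he'
    rw [mem_NE] at he
    obtain ⟨u, v, rfl, h⟩ := he
    simp only [T, Finset.mem_image, Sym2.eq_iff] at he'
    obtain ⟨w, hw, (⟨h1, h2⟩ | ⟨h1, h2⟩)⟩ := he'
    · subst h1; exact h.2.2.1 h2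
    · subst h1; exact h.2.2.2 h2
  have h1 := Finset.card_le_card (Finset.union_subset hNG hTG)
  rw [Finset.card_union_of_disjoint hNT, hTcard] at h1
  omega

noncomputable def Wf' [Fintype V] (G : SimpleGraph V) (r : V) (p : V → V) (a b : V) :
    Finset V := by
  classical exact Finset.univ.filter (fun v => v ∈ BFS.WS' G r p a b)

theorem mem_Wf' [Fintype V] {a b v : V} : v ∈ Wf' G r p a b ↔ v ∈ BFS.WS' G r p a b := by
  classical
  simp [Wf']

theorem card_Wf'_le [Fintype V] {a b : V} (h : NT G {r} p a b) :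
    (Wf' G r p a b).card + 2 ≤ 2 * (NE G {r} p).card := by
  classical
  have e1 : s(a, b) ∈ NE G {r} p := mem_NE.mpr ⟨a, b, rfl, h⟩
  have h : Wf' G r p a b ⊆ ((NE G {r} p).erase s(a, b)).biUnion (fun e => e.toFinset) := by
    intro v hv
    rw [mem_Wf'] at hv
    obtain ⟨u, hu, hne⟩ := hv
    rw [Finset.mem_biUnion]
    exact ⟨s(v, u), Finset.mem_erase.mpr ⟨hne, mem_NE.mpr ⟨v, u, rfl, hu⟩⟩, by simp⟩
  have h2 : (Wf' G r p a b).card ≤ 2 * ((NE G {r} p).erase s(a, b)).card := by
    calc (Wf' G r p a b).card ≤ _ := Finset.card_le_card h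
      _ ≤ ∑ e ∈ (NE G {r} p).erase s(a, b), e.toFinset.card := Finset.card_biUnion_le
      _ ≤ ∑ e ∈ (NE G {r} p).erase s(a, b), 2 :=
        Finset.sum_le_sum (fun e _ => card_toFinset_le e)
      _ = 2 * ((NE G {r} p).erase s(a, b)).card := by
        rw [Finset.sum_const, smul_eq_mul, mul_comm]
  rw [Finset.card_erase_of_mem e1] at h2
  have h3 : 0 < (NE G {r} p).card := Finset.card_pos.mpr ⟨_, e1⟩
  omega

/-- discrete intermediate value step -/
theorem ivt (hc : G.Connected) {x y : V} : ∀ {u v : V} (w : G.Walk u v),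
    G.dist u x < G.dist u y → G.dist v y ≤ G.dist v x →
    ∃ r ∈ w.support, G.dist r x = G.dist r y ∨ G.dist r x = G.dist r y + 1 := by
  intro u v w
  induction w with
  | nil => intro h1 h2; omega
  | cons h q ih =>
    rename_i u u' v
    intro h1 h2
    rcases Nat.lt_or_ge (G.dist u' x) (G.dist u' y) with h3 | h3
    · obtain ⟨r, hr, h⟩ := ih h3 h2
      exact ⟨r, by simp [hr], h⟩
    · refine ⟨u', by simp, ?_⟩
      have e1 : G.dist u' x ≤ G.dist u' u + G.dist u x := hc.dist_triangle
      have e2 : G.dist u y ≤ G.dist u u' + G.dist u' y := hc.dist_triangle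
      have e3 : G.dist u u' = 1 := dist_eq_one_iff_adj.mpr h
      have e4 : G.dist u' u = 1 := dist_eq_one_iff_adj.mpr h.symm
      omega

/-- `b` is a degree-two vertex lying on a cycle. -/
def NB (G : SimpleGraph V) (b x y : V) : Prop :=
  G.Adj b x ∧ G.Adj b y ∧ x ≠ y ∧ ∃ w : G.Walk x y, b ∉ w.support

theorem NB.symm {b x y : V} (h : NB G b x y) : NB G b y x := by
  obtain ⟨h1, h2, h3, w, hw⟩ := h
  exact ⟨h2, h1, h3.symm, w.reverse, by simpa using hw⟩

theorem NB.next [DecidableEq V] {b x y : V} (h : NB G b x y) : ∃ z, NB G x z b := by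
  obtain ⟨h1, h2, h3, w, hw⟩ := h
  have hw' : b ∉ w.bypass.support := fun h => hw (w.support_bypass_subset_support h)
  have hp := w.bypass_isPath
  generalize w.bypass = q at hw' hp
  cases q with
  | nil => exact absurd rfl h3
  | cons h q =>
    rename_i z
    rw [Walk.cons_isPath_iff] at hp
    simp only [Walk.support_cons, List.mem_cons, not_or] at hw'
    refine ⟨z, h, h1.symm, ?_, q.concat h2.symm, ?_⟩
    · rintro rfl
      exact hw'.2 q.start_mem_support
    · rw [Walk.support_concat]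
      simp only [List.mem_append, List.mem_singleton, not_or]
      exact ⟨hp.2, hw'.1 ∘ Eq.symm⟩

theorem NB_near [Fintype V] [DecidableEq V] [DecidableRel G.Adj] (hc : G.Connected)
    (hdeg : ∀ v, 2 ≤ G.degree v) {v : V} (hv : 3 ≤ G.degree v) :
    ∀ (n : ℕ) (b x y : V), G.dist b v = n → NB G b x y → G.degree b = 2 →
      ∃ b x y, NB G b x y ∧ G.degree b = 2 ∧ 3 ≤ G.degree x := by
  intro n
  induction n with
  | zero =>
    intro b x y h hb h2
    have := (hc.dist_eq_zero_iff).mp h
    subst this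
    omega
  | succ n ih =>
    intro b x y h hb h2
    have hne : b ≠ v := by rintro rfl; omega
    obtain ⟨z, hz, hz'⟩ := exists_next hc hne
    have hzz : ∃ y', NB G b z y' := by
      rcases BFS.nbr_two h2 hb.1 hb.2.1 hb.2.2.1 hz with rfl | rfl
      · exact ⟨y, hb⟩
      · exact ⟨x, hb.symm⟩
    obtain ⟨y', hb'⟩ := hzz
    by_cases h3 : 3 ≤ G.degree z
    · exact ⟨b, z, y', hb', h2, h3⟩
    · obtain ⟨t, ht⟩ := hb'.next
      exact ih z t b (by omega) ht (by have := hdeg z; omega)

theorem J_root {B : BFS G {r} dep p} {s w : V} (h : J G dep {w} s) :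
    G.dist s w + G.dist r w = G.dist s r := by
  rw [BFS.J_single, B.dep_eq s, B.dep_eq' w] at h
  exact h

/-- Core theorem. -/
theorem core [Fintype V] [DecidableEq V] [DecidableRel G.Adj] (hc : G.Connected)
    (hdeg : ∀ v, 2 ≤ G.degree v) (h3 : ∃ v, 3 ≤ G.degree v) :
    ∃ (r : V) (S : Finset V), r ∈ S ∧
      S.card + 2 * Fintype.card V ≤ 2 * G.edgeFinset.card + 2 ∧
      MR G (S : Set V) ∧ ∀ w, ∃ s ∈ S, G.dist s w + G.dist r w = G.dist s r := by
  classical
  obtain ⟨v0, hv0⟩ := h3
  -- first BFS tree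
  obtain ⟨dep, p, B⟩ := exists_BFS (R := {v0}) hc ⟨v0, rfl⟩
  obtain ⟨l, -, hmax⟩ := Set.exists_max_image (Set.univ : Set V) dep (Set.toFinite _)
    ⟨v0, Set.mem_univ _⟩
  have hl0 : l ≠ v0 := by
    rintro rfl
    have h0 := B.dep_root (v := l) rfl
    obtain ⟨z, hz, -, -⟩ := BFS.third_nbr (G := G) (x := l) (y := l) hv0
    have h1 := hmax z (Set.mem_univ _)
    have h2 := B.root_of_dep (v := z) (by omega)
    exact hz.ne (Set.mem_singleton_iff.mp h2).symm
  have hlR : l ∉ ({v0} : Set V) := by simpa using hl0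
  have hleaf : ∀ u, p u = l → u = l := by
    intro u hu
    by_contra hne
    have huR : u ∉ ({v0} : Set V) := fun h => by
      rw [B.p_root u h] at hu
      exact hne hu
    have h1 := hmax u (Set.mem_univ _)
    have h2 := (B.p_adj u huR).2
    rw [hu] at h2
    omega
  have hnt : ∀ u, G.Adj l u → u ≠ p l → NT G {v0} p l u := by
    intro u hu hne
    exact ⟨hu, fun h => hlR h.1, hne.symm, fun h => hu.ne (hleaf u h).symm⟩
  by_cases hl3 : 3 ≤ G.degree l
  · obtain ⟨z, hz, hz1, -⟩ := BFS.third_nbr (G := G) (x := p l) (y := p l) hl3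
    obtain ⟨z', hz', hz1', hz2'⟩ := BFS.third_nbr (G := G) (x := p l) (y := z) hl3
    have hcard := card_Wf_lt {v0} hz2'.symm (hnt z hz hz1) (hnt z' hz' hz1')
    have hcard2 := card_NE_root B
    have hcard3 := Finset.card_insert_le v0 (Wf G {v0} p)
    have hf := B.full_MR hdeg (S := ((insert v0 (Wf G {v0} p) : Finset V) : Set V))
      (by simp) (by
        intro v hv
        rw [Finset.mem_coe]
        exact Finset.mem_insert_of_mem (mem_Wf.mpr hv))
    refine ⟨v0, insert v0 (Wf G {v0} p), Finset.mem_insert_self _ _, by omega, hf.1, ?_⟩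
    intro w
    obtain ⟨s, hs, h⟩ := hf.2 w
    exact ⟨s, by exact_mod_cast hs, J_root (B := B) h⟩
  -- now `l` has degree two
  have hl2 : G.degree l = 2 := by have := hdeg l; omega
  have hpath : ∀ (n : ℕ) (u : V), dep u = n → u ≠ l → ∃ w : G.Walk u v0, l ∉ w.support := by
    intro n
    induction n with
    | zero =>
      intro u hu hne
      have := Set.mem_singleton_iff.mp (B.root_of_dep hu)
      subst this
      exact ⟨Walk.nil, by simpa using hl0⟩
    | succ n ih =>
      intro u hu hne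
      have huR : u ∉ ({v0} : Set V) := fun h => by
        have := B.dep_root h; omega
      obtain ⟨h1, h2⟩ := B.p_adj u huR
      obtain ⟨w, hw⟩ := ih (p u) (by omega) (fun h => hne (hleaf u h))
      refine ⟨Walk.cons h1 w, ?_⟩
      simp only [Walk.support_cons, List.mem_cons, not_or]
      exact ⟨hne.symm, hw⟩
  have hNB : ∃ x y, NB G l x y := by
    have hcard : 1 < (G.neighborFinset l).card := by
      rw [card_neighborFinset_eq_degree]; omega
    obtain ⟨u, hu, hne⟩ := Finset.exists_mem_ne hcard (p l)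
    rw [mem_neighborFinset] at hu
    have h1 := (B.p_adj l hlR).1
    obtain ⟨w1, hw1⟩ := hpath _ (p l) rfl h1.ne.symm
    obtain ⟨w2, hw2⟩ := hpath _ u rfl hu.ne.symm
    refine ⟨p l, u, h1, hu, hne.symm, w1.append w2.reverse, ?_⟩
    rw [Walk.mem_support_append_iff]
    simp [hw1, hw2]
  obtain ⟨x, y, hNB⟩ := hNB
  obtain ⟨b, x, y, ⟨hx, hy, hxy, w, hw⟩, hb2, hx3⟩ :=
    NB_near hc hdeg hv0 _ l x y rfl hNB hl2
  have e1 : G.dist x x = 0 := dist_self
  have e2 : G.dist y y = 0 := dist_self
  have e3 : 0 < G.dist x y := hc.pos_dist_of_ne hxy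
  obtain ⟨r, hr, hr'⟩ := ivt hc (x := x) (y := y) w (by omega) (by omega)
  have hbr : b ≠ r := by rintro rfl; exact hw hr
  clear B hnt hleaf hmax hpath hlR
  obtain ⟨dep, p, B⟩ := exists_BFS (R := {r}) hc ⟨r, rfl⟩
  have hbR : b ∉ ({r} : Set V) := by simpa using hbr
  have hpb := B.p_adj b hbR
  have hpb' := BFS.nbr_two hb2 hx hy hxy hpb.1
  rw [← B.dep_eq' x, ← B.dep_eq' y] at hr'
  have k1 := B.dep_adj hx
  have k2 := B.dep_adj hy
  have hcard2 := card_NE_root B
  have fin : ∀ a, NT G {r} p a b → (∀ S : Set V, r ∈ S → b ∈ S → BFS.WS' G r p a b ⊆ S →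
      MR G S ∧ ∀ w, ∃ s ∈ S, J G dep {w} s) →
      ∃ (r : V) (S : Finset V), r ∈ S ∧
      S.card + 2 * Fintype.card V ≤ 2 * G.edgeFinset.card + 2 ∧
      MR G (S : Set V) ∧ ∀ w, ∃ s ∈ S, G.dist s w + G.dist r w = G.dist s r := by
    intro a hab H
    have hcard := card_Wf'_le hab
    have hcard3 := Finset.card_insert_le r (insert b (Wf' G r p a b))
    have hcard4 := Finset.card_insert_le b (Wf' G r p a b)
    have hf := H ((insert r (insert b (Wf' G r p a b)) : Finset V) : Set V)
      (by simp) (by simp) (by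
        intro v hv
        rw [Finset.mem_coe]
        exact Finset.mem_insert_of_mem (Finset.mem_insert_of_mem (mem_Wf'.mpr hv)))
    refine ⟨r, insert r (insert b (Wf' G r p a b)), Finset.mem_insert_self _ _, by omega,
      hf.1, ?_⟩
    intro w
    obtain ⟨s, hs, h⟩ := hf.2 w
    exact ⟨s, by exact_mod_cast hs, J_root (B := B) h⟩
  rcases hr' with h | h
  · -- both neighbours at depth `dep b - 1`
    rcases hpb' with h' | h'
    · have hdx : dep x + 1 = dep b := by rw [← h']; exact hpb.2
      refine fin y (BFS.nt_symm (B.nt_of_up hy (by omega) (by rw [h']; exact hxy.symm))) ?_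
      intro S hrS hbS hWS
      exact B.caseM1 hdeg (a := y) (a' := x) hy hx hxy.symm hb2 (by omega) hdx (Or.inr hx3) h'
        hrS hbS hWS
    · have hdy : dep y + 1 = dep b := by rw [← h']; exact hpb.2
      refine fin x (BFS.nt_symm (B.nt_of_up hx (by omega) (by rw [h']; exact hxy))) ?_
      intro S hrS hbS hWS
      exact B.caseM1 hdeg (a := x) (a' := y) hx hy hxy hb2 (by omega) hdy (Or.inl hx3) h'
        hrS hbS hWS
  · -- horizontal edge
    have hpy : p b = y := by
      rcases hpb' with h' | h'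
      · rw [h'] at hpb; omega
      · exact h'
    have hd : dep x = dep b := by rw [hpy] at hpb; omega
    refine fin x (B.nt_horizontal hx.symm hd) ?_
    intro S hrS hbS hWS
    exact B.caseM3 hdeg hx.symm hx3 hb2 hd hrS hbS hWS

end Pool.Agent.Helper431
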