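import Mathlib

set_option autoImplicit false

namespace Pool.Agent.Helper431

/-- cyclic distance between positions `i, j < k`. -/
def cd (k i j : ℕ) : ℕ := min (max i j - min i j) (k - (max i j - min i j))

/-- successor position. -/
def nx (k i : ℕ) : ℕ := if i + 1 = k then 0 else i + 1

/-- cyclic distance from position `b` to the edge at positions `i, i+1`. -/
def ce (k b i : ℕ) : ℕ := min (cd k b i) (cd k b (nx k i))

theorem cd_le (k i j : ℕ) (h : i ≤ j) : cd k i j = min (j - i) (k - (j - i)) := by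
  unfold cd; rw [max_eq_right h, min_eq_left h]

theorem cd_ge (k i j : ℕ) (h : j ≤ i) : cd k i j = min (i - j) (k - (i - j)) := by
  unfold cd; rw [max_eq_left h, min_eq_right h]

theorem sym_v {k a i j : ℕ} (ha : a < k) (hi : i < k) (hj : j < k)
    (hij : i ≠ j) (h1 : cd k a i = cd k a j) :
    i + j = 2 * a ∨ i + j = 2 * a + k ∨ i + j + k = 2 * a := by
  rcases le_total a i with h | h <;> rcases le_total a j with h' | h'
  · rw [cd_le k a i h, cd_le k a j h'] at h1; omega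
  · rw [cd_le k a i h, cd_ge k a j h'] at h1; omega
  · rw [cd_ge k a i h, cd_le k a j h'] at h1; omega
  · rw [cd_ge k a i h, cd_ge k a j h'] at h1; omega

theorem center_v {k a b i j : ℕ} (ha : a < k) (hb : b < k) (hi : i < k) (hj : j < k)
    (hij : i ≠ j) (h1 : cd k a i = cd k a j) (h2 : cd k b i = cd k b j) :
    a = b ∨ (2 * a + k = 2 * b) ∨ (2 * b + k = 2 * a) := by
  have e1 := sym_v ha hi hj hij h1
  have e2 := sym_v hb hi hj hij h2
  omega

theorem ce_lt {k b i : ℕ} (hb : b < k) (hi : i < b) :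
    ce k b i = min (b - i - 1) (k - (b - i)) := by
  have e : nx k i = i + 1 := by unfold nx; rw [if_neg (by omega)]
  unfold ce
  rw [e, cd_ge k b i (by omega), cd_ge k b (i+1) (by omega)]
  omega

theorem ce_ge {k b i : ℕ} (hb : b ≤ i) (hi : i < k) :
    ce k b i = min (i - b) (k - 1 - (i - b)) := by
  rcases Nat.lt_or_ge (i + 1) k with h | h
  · have e : nx k i = i + 1 := by unfold nx; rw [if_neg (by omega)]
    unfold ce
    rw [e, cd_le k b i (by omega), cd_le k b (i+1) (by omega)]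
    omega
  · have e : nx k i = 0 := by unfold nx; rw [if_pos (by omega)]
    unfold ce
    rw [e, cd_le k b i (by omega), cd_ge k b 0 (by omega)]
    omega

theorem sym_e {k a i j : ℕ} (ha : a < k) (hi : i < k) (hj : j < k)
    (hij : i ≠ j) (h1 : ce k a i = ce k a j) :
    i + j + 1 = 2 * a ∨ i + j + 1 = 2 * a + k ∨ i + j + 1 + k = 2 * a := by
  rcases Nat.lt_or_ge i a with h | h <;> rcases Nat.lt_or_ge j a with h' | h'
  · rw [ce_lt ha h, ce_lt ha h'] at h1; omega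
  · rw [ce_lt ha h, ce_ge h' hj] at h1; omega
  · rw [ce_ge h hi, ce_lt ha h'] at h1; omega
  · rw [ce_ge h hi, ce_ge h' hj] at h1; omega

theorem center_e {k a b i j : ℕ} (ha : a < k) (hb : b < k) (hi : i < k) (hj : j < k)
    (hij : i ≠ j) (h1 : ce k a i = ce k a j) (h2 : ce k b i = ce k b j) :
    a = b ∨ (2 * a + k = 2 * b) ∨ (2 * b + k = 2 * a) := by
  have e1 := sym_e ha hi hj hij h1
  have e2 := sym_e hb hi hj hij h2
  omega

theorem cd_eq (k i j : ℕ) : (i ≤ j ∧ cd k i j = min (j - i) (k - (j - i))) ∨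
    (j ≤ i ∧ cd k i j = min (i - j) (k - (i - j))) := by
  rcases le_total i j with h | h
  · exact Or.inl ⟨h, cd_le k i j h⟩
  · exact Or.inr ⟨h, cd_ge k i j h⟩

theorem near_v {h i j : ℕ} (hh : 2 ≤ h) (hi : i < 2 * h) (hj : j < 2 * h) (hij : i < j)
    (s : i + j = 2 * (h + 1) ∨ i + j = 2 * (h + 1) + 2 * h ∨ i + j + 2 * h = 2 * (h + 1))
    (m1 : cd (2 * h) (h + 1) i ≤ cd (2 * h) (h - 1) i)
    (m0 : cd (2 * h) (h + 1) i ≤ min i (2 * h - i)) : i = h ∧ j = h + 2 := by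
  have hi1 : i ≤ h := by omega
  rw [cd_ge _ _ _ (by omega)] at m0 m1
  rcases cd_eq (2*h) (h-1) i with ⟨g5, g6⟩ | ⟨g5, g6⟩ <;> omega

theorem near_v' {h i j : ℕ} (hh : 2 ≤ h) (hi : i < 2 * h) (hj : j < 2 * h) (hij : i < j)
    (s : i + j = 2 * (h - 1) ∨ i + j = 2 * (h - 1) + 2 * h ∨ i + j + 2 * h = 2 * (h - 1))
    (m1 : cd (2 * h) (h - 1) j ≤ cd (2 * h) (h + 1) j)
 : i = h - 2 ∧ j = h := by
  have hj1 : h ≤ j ∨ (i = 0 ∧ j = h - 1 + (h - 1)):= by omega
  rcases cd_eq (2*h) (h-1) i with ⟨g5, g6⟩ | ⟨g5, g6⟩ <;>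
  rcases cd_eq (2*h) (h-1) j with ⟨g1, g2⟩ | ⟨g1, g2⟩ <;>
  rcases cd_eq (2*h) (h+1) j with ⟨g3, g4⟩ | ⟨g3, g4⟩ <;> omega

theorem choose_v {k : ℕ} (hk : 3 ≤ k) (U : ℕ → ℕ → Prop) (att : ℕ → Prop) (f : ℕ → ℕ) (D0 : ℕ)
    (hs : ∀ i j, U i j → U j i) (ht : ∀ i j l, U i j → U j l → U i l)
    (h0 : att 0)
    (h3 : ∀ i j, i < k → j < k → i ≠ j → U i j → ∃ a, a < k ∧ att a ∧ cd k a i = cd k a j ∧
      ∀ a', a' < k → att a' → cd k a i ≤ cd k a' i ∧ cd k a j ≤ cd k a' j)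
    (hUf : ∀ i j, U i j → f i = f j) (f0 : D0 ≤ f 0)
    (f1 : ∀ a, 0 < a → a < k → D0 + 1 ≤ f a)
    (f2 : ∀ i, i < k → f i ≤ D0 + cd k 0 i)
    (f3 : ∀ i, i < k → ∃ a, a < k ∧ att a ∧ f i = f a + cd k a i) :
    ∃ b, b < k ∧ ∀ i j, i < k → j < k → i ≠ j → U i j → cd k b i ≠ cd k b j := by
  by_contra hcon
  push Not at hcon
  -- position 1
  obtain ⟨i, j, hi, hj, hij, hU, he⟩ := hcon 1 (by omega)
  obtain ⟨a, ha, hatt, hc, hmin⟩ := h3 i j hi hj hij hU
  have e1 := center_v ha (by omega : 1 < k) hi hj hij hc he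
  have m0 := hmin 0 (by omega) h0
  have s1 := sym_v ha hi hj hij hc
  rw [cd_le k 0 i (by omega), cd_le k 0 j (by omega)] at m0
  have a1 : 2 * a = k + 2 := by
    rcases e1 with e1 | e1 | e1
    · exfalso
      subst e1
      rcases cd_eq k 1 i with ⟨g1, g2⟩ | ⟨g1, g2⟩ <;>
      rcases cd_eq k 1 j with ⟨g3, g4⟩ | ⟨g3, g4⟩ <;> omega
    · omega
    · omega
  -- position k - 1
  obtain ⟨i', j', hi', hj', hij', hU', he'⟩ := hcon (k - 1) (by omega)
  obtain ⟨a', ha', hatt', hc', hmin'⟩ := h3 i' j' hi' hj' hij' hU'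
  have e1' := center_v ha' (by omega : k - 1 < k) hi' hj' hij' hc' he'
  have m0' := hmin' 0 (by omega) h0
  have s1' := sym_v ha' hi' hj' hij' hc'
  rw [cd_le k 0 i' (by omega), cd_le k 0 j' (by omega)] at m0'
  have a1' : 2 * a' = k - 2 := by
    rcases e1' with e1' | e1' | e1'
    · exfalso
      rw [e1'] at hc' m0' s1'
      rw [cd_ge k (k-1) i' (by omega), cd_ge k (k-1) j' (by omega)] at *
      omega
    · omega
    · omega
  obtain ⟨h, hh⟩ : ∃ h, k = 2 * h := ⟨k / 2, by omega⟩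
  subst hh
  have ea : a = h + 1 := by omega
  have ea' : a' = h - 1 := by omega
  subst ea ea'
  have hh2 : 2 ≤ h := by omega
  -- both levels are one
  have m1 := hmin (h - 1) (by omega) hatt'
  have m1' := hmin' (h + 1) (by omega) hatt
  have q1 : (i = h ∧ j = h + 2) ∨ (j = h ∧ i = h + 2) := by
    rcases Nat.lt_or_gt_of_ne hij with hlt | hlt
    · exact Or.inl (near_v hh2 hi hj hlt s1 m1.1 (by simpa using m0.1))
    · exact Or.inr (near_v hh2 hj hi hlt (by omega) m1.2 (by simpa using m0.2))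
  have q1' : (i' = h ∧ j' = h - 2) ∨ (j' = h ∧ i' = h - 2) := by
    rcases Nat.lt_or_gt_of_ne hij' with hlt | hlt
    · have := near_v' hh2 hi' hj' hlt s1' m1'.2
      omega
    · have := near_v' hh2 hj' hi' hlt (by omega) m1'.1
      omega
  have u1 : U h (h + 2) := by
    rcases q1 with ⟨rfl, rfl⟩ | ⟨rfl, rfl⟩
    · exact hU
    · exact hs _ _ hU
  have u2 : U (h - 2) h := by
    rcases q1' with ⟨rfl, rfl⟩ | ⟨rfl, rfl⟩
    · exact hs _ _ hU'
    · exact hU'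
  have c1 : cd (2*h) (h+1) h = 1 := by rw [cd_ge _ _ _ (by omega)]; omega
  have c2 : cd (2*h) (h+1) (h+2) = 1 := by rw [cd_le _ _ _ (by omega)]; omega
  -- attachments are at distance at least one from h
  have d1 : ∀ a', a' < 2 * h → att a' → 1 ≤ cd (2*h) a' h := by
    intro a' ha' hat
    have := hmin a' ha' hat
    rcases q1 with ⟨rfl, rfl⟩ | ⟨rfl, rfl⟩ <;> omega
  have u3 : U (h - 2) (h + 2) := ht _ _ _ u2 u1
  have hne : h - 2 ≠ h + 2 := by omega
  have hlt2 : h + 2 < 2 * h := by omega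
  obtain ⟨b, hb, hbatt, hbc, hbmin⟩ := h3 (h-2) (h+2) (by omega) hlt2 hne u3
  have m2 := (hbmin (h+1) (by omega) hatt).2
  have h6 : h = 3 := by
    rcases cd_eq (2*h) b (h-2) with ⟨g1, g2⟩ | ⟨g1, g2⟩ <;>
    rcases cd_eq (2*h) b (h+2) with ⟨g3, g4⟩ | ⟨g3, g4⟩ <;> omega
  subst h6
  have w1 := hUf _ _ u2
  have w2 := f2 1 (by omega)
  have c3 : cd (2*3) 0 1 = 1 := by decide
  obtain ⟨z, hz, hzatt, hzf⟩ := f3 3 (by omega)
  have w3 := d1 z hz hzatt
  rcases Nat.eq_zero_or_pos z with rfl | hzp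
  · have c4 : cd (2*3) 0 3 = 3 := by decide
    have : f (3 - 2) = f 1 := rfl
    omega
  · have := f1 z hzp hz
    have : f (3 - 2) = f 1 := rfl
    omega

theorem ce_eq {k b i : ℕ} (hb : b < k) (hi : i < k) :
    (i < b ∧ ce k b i = min (b - i - 1) (k - (b - i))) ∨
    (b ≤ i ∧ ce k b i = min (i - b) (k - 1 - (i - b))) := by
  rcases Nat.lt_or_ge i b with h | h
  · exact Or.inl ⟨h, ce_lt hb h⟩
  · exact Or.inr ⟨h, ce_ge h hi⟩

theorem lvl_a1 {k i j : ℕ} (hk : 3 ≤ k) (hi : i < k) (hj : j < k) (hij : i < j)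
    (s : i + j + 1 = 2 * 1 ∨ i + j + 1 = 2 * 1 + k ∨ i + j + 1 + k = 2 * 1)
    (m : ce k 1 j ≤ ce k 0 j) : i = 0 ∧ j = 1 := by
  rw [ce_ge (Nat.zero_le j) hj, ce_ge (by omega) hj] at m
  omega

theorem lvl_ak {k i j : ℕ} (hk : 3 ≤ k) (hi : i < k) (hj : j < k) (hij : i < j)
    (s : i + j + 1 = 2 * (k - 1) ∨ i + j + 1 = 2 * (k - 1) + k ∨ i + j + 1 + k = 2 * (k - 1))
    (m : ce k (k - 1) i ≤ ce k 0 i) : i = k - 2 ∧ j = k - 1 := by
  rw [ce_ge (Nat.zero_le i) hi, ce_lt (by omega) (by omega)] at m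
  omega

theorem lvl_h1 {h i j : ℕ} (hh : 2 ≤ h) (hi : i < 2 * h) (hj : j < 2 * h) (hij : i < j)
    (s : i + j + 1 = 2 * (h + 1) ∨ i + j + 1 = 2 * (h + 1) + 2 * h ∨
      i + j + 1 + 2 * h = 2 * (h + 1))
    (_m0 : ce (2 * h) (h + 1) i ≤ ce (2 * h) 0 i)
    (m1 : ce (2 * h) (h + 1) i ≤ ce (2 * h) (h - 1) i) : i = h ∧ j = h + 1 := by
  have hi' : i < h + 1 := by omega
  rw [ce_lt (by omega) hi'] at m1
  rcases ce_eq (k := 2 * h) (b := h - 1) (i := i) (by omega) hi with ⟨g1, g2⟩ | ⟨g1, g2⟩ <;> omega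

theorem lvl_h2 {h i j : ℕ} (hh : 3 ≤ h) (hi : i < 2 * h) (hj : j < 2 * h) (hij : i < j)
    (s : i + j + 1 = 2 * (h - 1) ∨ i + j + 1 = 2 * (h - 1) + 2 * h ∨
      i + j + 1 + 2 * h = 2 * (h - 1))
    (m1 : ce (2 * h) (h - 1) j ≤ ce (2 * h) (h + 1) j) : i = h - 2 ∧ j = h - 1 := by
  rcases ce_eq (k := 2 * h) (b := h - 1) (i := j) (by omega) hj with ⟨g1, g2⟩ | ⟨g1, g2⟩ <;>
  rcases ce_eq (k := 2 * h) (b := h + 1) (i := j) (by omega) hj with ⟨g3, g4⟩ | ⟨g3, g4⟩ <;> omega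

theorem lvl_2 {k i j : ℕ} (hk : 6 ≤ k) (hi : i < k) (hj : j < k) (hij : i < j)
    (s : i + j + 1 = 2 * 2 ∨ i + j + 1 = 2 * 2 + k ∨ i + j + 1 + k = 2 * 2)
    (m : ce k 2 i ≤ ce k 0 i) (m' : ce k 2 j ≤ ce k 0 j) : i = 1 ∧ j = 2 := by
  rcases s with s | s | s
  · rcases Nat.eq_zero_or_pos i with rfl | hi0
    · rw [ce_ge (Nat.zero_le 0) hi, ce_lt (b := 2) (by omega) (by omega)] at m
      omega
    · omega
  · exfalso
    rw [ce_ge (Nat.zero_le j) hj, ce_ge (b := 2) (by omega) hj] at m'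
    omega
  · omega

theorem lvl_k2 {k i j : ℕ} (hk : 6 ≤ k) (hi : i < k) (hj : j < k) (hij : i < j)
    (s : i + j + 1 = 2 * (k - 2) ∨ i + j + 1 = 2 * (k - 2) + k ∨ i + j + 1 + k = 2 * (k - 2))
    (m : ce k (k - 2) i ≤ ce k 0 i) (m' : ce k (k - 2) j ≤ ce k 0 j) :
    i = k - 3 ∧ j = k - 2 := by
  rcases s with s | s | s
  · rcases Nat.lt_or_ge j (k - 1) with hlt | hge
    · omega
    · have : j = k - 1 := by omega
      subst this
      rw [ce_ge (Nat.zero_le _) hj, ce_ge (b := k - 2) (by omega) hj] at m'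
      omega
  · omega
  · exfalso
    rw [ce_ge (Nat.zero_le i) hi, ce_lt (b := k - 2) (by omega) (by omega)] at m
    omega

/-- level zero around `h+2` -/
theorem lvl_h3 {h i j : ℕ} (hh : 3 ≤ h) (hi : i < 2 * h) (hj : j < 2 * h) (hij : i < j)
    (s : i + j + 1 = 2 * (h + 2) ∨ i + j + 1 = 2 * (h + 2) + 2 * h ∨
      i + j + 1 + 2 * h = 2 * (h + 2))
    (m0 : ce (2 * h) (h + 2) i ≤ ce (2 * h) 0 i)
    (m1 : ce (2 * h) (h + 2) i ≤ ce (2 * h) (h + 1) i) : i = h + 1 ∧ j = h + 2 := by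
  rw [ce_ge (Nat.zero_le i) hi] at m0
  rw [ce_lt (b := h + 2) (by omega) (by omega)] at m0 m1
  rcases ce_eq (k := 2 * h) (b := h + 1) (i := i) (by omega) hi with ⟨g1, g2⟩ | ⟨g1, g2⟩ <;> omega

/-- level zero around `h-2` -/
theorem lvl_h4 {h i j : ℕ} (hh : 3 ≤ h) (hi : i < 2 * h) (hj : j < 2 * h) (hij : i < j)
    (s : i + j + 1 = 2 * (h - 2) ∨ i + j + 1 = 2 * (h - 2) + 2 * h ∨
      i + j + 1 + 2 * h = 2 * (h - 2))
    (m0' : ce (2 * h) (h - 2) j ≤ ce (2 * h) 0 j)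
    (m1 : ce (2 * h) (h - 2) j ≤ ce (2 * h) (h - 1) j) : i = h - 3 ∧ j = h - 2 := by
  rcases s with s | s | s
  · rw [ce_ge (b := h - 2) (i := j) (by omega) hj] at m1
    rcases ce_eq (k := 2 * h) (b := h - 1) (i := j) (by omega) hj with ⟨g3, g4⟩ | ⟨g3, g4⟩
    · omega
    · rw [g4] at m1; omega
  · exfalso
    rw [ce_ge (b := h - 2) (i := j) (by omega) hj, ce_ge (Nat.zero_le j) hj] at m0'
    omega
  · omega

theorem ce_zero_imp {k a i : ℕ} (ha : a < k) (hi : i < k) (h : ce k a i = 0) :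
    a = i ∨ a = nx k i := by
  unfold nx
  rcases ce_eq (k := k) (b := a) (i := i) ha hi with ⟨g1, g2⟩ | ⟨g1, g2⟩ <;> split_ifs <;> omega

theorem choose_e {k : ℕ} (hk : 3 ≤ k) (U : ℕ → ℕ → Prop) (att : ℕ → Prop) (f : ℕ → ℕ) (D0 : ℕ)
    (hs : ∀ i j, U i j → U j i) (ht : ∀ i j l, U i j → U j l → U i l)
    (h0 : att 0)
    (h3 : ∀ i j, i < k → j < k → i ≠ j → U i j → ∃ a, a < k ∧ att a ∧ ce k a i = ce k a j ∧
      ∀ a', a' < k → att a' → ce k a i ≤ ce k a' i ∧ ce k a j ≤ ce k a' j)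
    (hUf : ∀ i j, U i j → min (f i) (f (nx k i)) = min (f j) (f (nx k j)))
    (f1 : ∀ a, 0 < a → a < k → D0 + 1 ≤ f a)
    (f2 : ∀ i, i < k → f i ≤ D0 + cd k 0 i) :
    (∃ b, b < k ∧ ∀ i j, i < k → j < k → i ≠ j → U i j → ce k b i ≠ ce k b j) ∨
    (∃ u v, u ≠ v ∧ 2 ≤ u ∧ u + 2 ≤ k ∧ 2 ≤ v ∧ v + 2 ≤ k ∧ f u = D0 + 1 ∧ f v = D0 + 1) ∨
    (k = 6 ∧ f 3 = D0 + 1 ∧ U 3 4) := by
  by_contra hcon
  push Not at hcon
  obtain ⟨H, H2, H3⟩ := hcon
  have f0 : f 0 ≤ D0 := by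
    have := f2 0 (by omega)
    rw [cd_le k 0 0 (by omega)] at this
    omega
  -- for `i < j`
  have H' : ∀ b, b < k → ∃ i j, i < k ∧ j < k ∧ i < j ∧ U i j ∧ ce k b i = ce k b j := by
    intro b hb
    obtain ⟨i, j, hi, hj, hij, hU, he⟩ := H b hb
    rcases Nat.lt_or_gt_of_ne hij with h | h
    · exact ⟨i, j, hi, hj, h, hU, he⟩
    · exact ⟨j, i, hj, hi, h, hs _ _ hU, he.symm⟩
  -- position 1
  obtain ⟨i, j, hi, hj, hij, hU, he⟩ := H' 1 (by omega)
  obtain ⟨a, ha, hatt, hc, hmin⟩ := h3 i j hi hj hij.ne hU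
  have e1 := center_e ha (by omega : 1 < k) hi hj hij.ne hc he
  have m0 := hmin 0 (by omega) h0
  have s1 := sym_e ha hi hj hij.ne hc
  have a1 : 2 * a = k + 2 := by
    rcases e1 with e1 | e1 | e1
    · exfalso
      subst e1
      obtain ⟨rfl, rfl⟩ := lvl_a1 hk hi hj hij s1 m0.2
      have w := hUf _ _ hU
      have n0 : nx k 0 = 1 := by unfold nx; rw [if_neg (by omega)]
      have n1 : nx k 1 = 2 := by unfold nx; rw [if_neg (by omega)]
      rw [n0, n1] at w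
      have w1 := f1 1 (by omega) (by omega)
      have w2 := f1 2 (by omega) (by omega)
      omega
    · omega
    · omega
  -- position k - 1
  obtain ⟨i', j', hi', hj', hij', hU', he'⟩ := H' (k - 1) (by omega)
  obtain ⟨a', ha', hatt', hc', hmin'⟩ := h3 i' j' hi' hj' hij'.ne hU'
  have e1' := center_e ha' (by omega : k - 1 < k) hi' hj' hij'.ne hc' he'
  have m0' := hmin' 0 (by omega) h0
  have s1' := sym_e ha' hi' hj' hij'.ne hc'
  have a1' : 2 * a' = k - 2 := by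
    rcases e1' with e1' | e1' | e1'
    · exfalso
      subst e1'
      obtain ⟨rfl, rfl⟩ := lvl_ak hk hi' hj' hij' s1' m0'.1
      have w := hUf _ _ hU'
      have n0 : nx k (k - 2) = k - 1 := by unfold nx; rw [if_neg (by omega)]; omega
      have n1 : nx k (k - 1) = 0 := by unfold nx; rw [if_pos (by omega)]
      rw [n0, n1] at w
      have w1 := f1 (k - 1) (by omega) (by omega)
      have w2 := f1 (k - 2) (by omega) (by omega)
      omega
    · omega
    · omega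
  obtain ⟨h, hh⟩ : ∃ h, k = 2 * h := ⟨k / 2, by omega⟩
  subst hh
  have ea : a = h + 1 := by omega
  have ea' : a' = h - 1 := by omega
  subst ea ea'
  have hh2 : 2 ≤ h := by omega
  have m1 := hmin (h - 1) (by omega) hatt'
  have m1' := hmin' (h + 1) (by omega) hatt
  obtain ⟨rfl, rfl⟩ := lvl_h1 hh2 hi hj hij s1 m0.1 m1.1
  -- now `i` plays the role of `h`
  rename' i => h
  have h3' : 3 ≤ h := by
    by_contra hlt
    have : h = 2 := by omega
    subst this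
    -- here k = 4
    have hz : i' = 0 ∧ j' = 1 := by
      have := lvl_a1 (k := 4) (by omega) hi' hj' hij' (by simpa using s1') (by simpa using m0'.2)
      exact this
    obtain ⟨rfl, rfl⟩ := hz
    have w := hUf _ _ hU'
    have n0 : nx (2*2) 0 = 1 := by decide
    have n1 : nx (2*2) 1 = 2 := by decide
    rw [n0, n1] at w
    have w1 := f1 1 (by omega) (by omega)
    have w2 := f1 2 (by omega) (by omega)
    omega
  obtain ⟨rfl, rfl⟩ := lvl_h2 h3' hi' hj' hij' s1' m1'.2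
  -- hU : U h (h+1), hU' : U (h-2) (h-1)
  have nxs : ∀ x, x + 1 < 2 * h → nx (2 * h) x = x + 1 := by
    intro x hx; unfold nx; rw [if_neg (by omega)]
  -- position 2
  have q2 : U 1 2 := by
    obtain ⟨i, j, hi, hj, hij, hU2, he⟩ := H' 2 (by omega)
    obtain ⟨a, ha, hatt2, hc, hmin2⟩ := h3 i j hi hj hij.ne hU2
    have e1 := center_e ha (by omega : 2 < 2 * h) hi hj hij.ne hc he
    have m0 := hmin2 0 (by omega) h0
    have s1 := sym_e ha hi hj hij.ne hc
    rcases e1 with e1 | e1 | e1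
    · subst e1
      obtain ⟨rfl, rfl⟩ := lvl_2 (by omega) hi hj hij s1 m0.1 m0.2
      exact hU2
    · omega
    · exfalso
      have : a = h + 2 := by omega
      subst this
      have m3 := hmin2 (h + 1) (by omega) hatt
      obtain ⟨rfl, rfl⟩ := lvl_h3 h3' hi hj hij s1 m0.1 m3.1
      have u4 := ht _ _ _ hU hU2
      obtain ⟨z, hz, hzatt, hzc, hzmin⟩ := h3 _ _ (by omega) (by omega) (by omega) u4
      have m4 := (hzmin (h + 1) (by omega) hatt).1
      have c4 : ce (2 * h) (h + 1) h = 0 := by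
        rw [ce_lt (by omega) (by omega)]; omega
      have z1 := ce_zero_imp hz (by omega) (by omega : ce (2 * h) z h = 0)
      have z2 := ce_zero_imp hz (by omega) (by omega : ce (2 * h) z (h + 2) = 0)
      rw [nxs h (by omega)] at z1
      unfold nx at z2
      split_ifs at z2 <;> omega
  have q3 : U (2 * h - 3) (2 * h - 2) := by
    obtain ⟨i, j, hi, hj, hij, hU2, he⟩ := H' (2 * h - 2) (by omega)
    obtain ⟨a, ha, hatt2, hc, hmin2⟩ := h3 i j hi hj hij.ne hU2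
    have e1 := center_e ha (by omega : 2 * h - 2 < 2 * h) hi hj hij.ne hc he
    have m0 := hmin2 0 (by omega) h0
    have s1 := sym_e ha hi hj hij.ne hc
    rcases e1 with e1 | e1 | e1
    · subst e1
      obtain ⟨rfl, rfl⟩ := lvl_k2 (by omega) hi hj hij s1 m0.1 m0.2
      exact hU2
    · exfalso
      have : a = h - 2 := by omega
      subst this
      have m3 := hmin2 (h - 1) (by omega) hatt'
      obtain ⟨rfl, rfl⟩ := lvl_h4 h3' hi hj hij s1 m0.2 m3.2
      have u4 := ht _ _ _ hU2 hU'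
      obtain ⟨z, hz, hzatt, hzc, hzmin⟩ := h3 _ _ (by omega) (by omega) (by omega) u4
      have m4 := (hzmin (h - 1) (by omega) hatt').2
      have c4 : ce (2 * h) (h - 1) (h - 1) = 0 := by
        rw [ce_ge (by omega) (by omega)]; omega
      have z1 := ce_zero_imp hz (by omega) (by omega : ce (2 * h) z (h - 3) = 0)
      have z2 := ce_zero_imp hz (by omega) (by omega : ce (2 * h) z (h - 1) = 0)
      rw [nxs _ (by omega)] at z1 z2
      omega
    · omega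
  have w2 := hUf _ _ q2
  have w3 := hUf _ _ q3
  rw [nxs 1 (by omega), nxs 2 (by omega)] at w2
  simp only [Nat.reduceAdd] at w2
  rw [nxs _ (by omega), nxs _ (by omega)] at w3
  have c1 : cd (2 * h) 0 1 = 1 := by rw [cd_le _ _ _ (by omega)]; omega
  have c2 : cd (2 * h) 0 (2 * h - 1) = 1 := by rw [cd_le _ _ _ (by omega)]; omega
  have g1 := f2 1 (by omega)
  have g2 := f2 (2 * h - 1) (by omega)
  have r1 := f1 2 (by omega) (by omega)
  have r2 := f1 3 (by omega) (by omega)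
  have r3 := f1 (2 * h - 3) (by omega) (by omega)
  have r4 := f1 (2 * h - 2) (by omega) (by omega)
  have e3 : 2 * h - 3 + 1 = 2 * h - 2 := by omega
  have e4 : 2 * h - 2 + 1 = 2 * h - 1 := by omega
  rw [e3, e4] at w3
  have A : ∃ u, (u = 2 ∨ u = 3) ∧ f u = D0 + 1 := by
    rcases Nat.lt_or_ge (f 2) (f 3) with hlt | hge
    · exact ⟨2, Or.inl rfl, by omega⟩
    · exact ⟨3, Or.inr rfl, by omega⟩
  have B : ∃ v, (v = 2 * h - 3 ∨ v = 2 * h - 2) ∧ f v = D0 + 1 := by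
    rcases Nat.lt_or_ge (f (2 * h - 3)) (f (2 * h - 2)) with hlt | hge
    · exact ⟨2 * h - 3, Or.inl rfl, by omega⟩
    · exact ⟨2 * h - 2, Or.inr rfl, by omega⟩
  obtain ⟨u, hu, hu'⟩ := A
  obtain ⟨v, hv, hv'⟩ := B
  by_cases huv : u = v
  · subst huv
    have hh3 : h = 3 := by omega
    subst hh3
    have hu3 : u = 3 := by omega
    subst hu3
    exact H3 rfl hu' hU
  · exact H2 u v huv (by omega) (by omega) (by omega) (by omega) hu' hv'

end Pool.Agent.Helper431
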