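import Mathlib
import Pool.Agent.Helper431.Pos

set_option autoImplicit false

namespace Pool.Agent.Helper431

open SimpleGraph

variable {V : Type*} {G : SimpleGraph V}

theorem short_cycle [Fintype V] {u v : V} (g q : G.Walk u v) (hg : g.IsPath) (hq : q.IsPath)
    (hne : g.length ≠ q.length) :
    ∃ (a : V) (w : G.Walk a a), w.IsCycle ∧ w.length ≤ g.length + q.length := by
  classical
  let L : Finset (Sym2 V) := (g.edges ++ q.edges).toFinset
  let H : SimpleGraph V := SimpleGraph.fromEdgeSet (L : Set (Sym2 V))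
  have hLG : ∀ e ∈ L, e ∈ G.edgeSet := by
    intro e he
    simp only [L, List.mem_toFinset, List.mem_append] at he
    rcases he with he | he
    · exact g.edges_subset_edgeSet he
    · exact q.edges_subset_edgeSet he
  have hLH : ∀ e ∈ L, e ∈ H.edgeSet := by
    intro e he
    simp only [H, edgeSet_fromEdgeSet]
    exact ⟨he, fun hd => G.not_isDiag_of_mem_edgeSet (hLG e he) hd⟩
  have hHG : H ≤ G := by
    intro a b hab
    have h1 : s(a, b) ∈ H.edgeSet := hab
    simp only [H, edgeSet_fromEdgeSet] at h1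
    exact hLG _ h1.1
  have h1 : ∀ e ∈ g.edges, e ∈ H.edgeSet := fun e he => hLH e (by simp [L, he])
  have h2 : ∀ e ∈ q.edges, e ∈ H.edgeSet := fun e he => hLH e (by simp [L, he])
  have hna : ¬ H.IsAcyclic := by
    intro hac
    have := (hac.subsingleton_path u v).elim ⟨g.transfer H h1, hg.transfer h1⟩
      ⟨q.transfer H h2, hq.transfer h2⟩
    have h3 := congrArg (fun z : H.Path u v => (z : H.Walk u v).length) this
    simp only [Walk.length_transfer] at h3
    exact hne h3
  simp only [SimpleGraph.IsAcyclic, not_forall, not_not] at hna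
  obtain ⟨a, w, hw⟩ := hna
  refine ⟨a, w.mapLe hHG, hw.mapLe hHG, ?_⟩
  rw [Walk.length_mapLe]
  have h4 : w.length ≤ H.edgeFinset.card := hw.isTrail.length_le_card_edgeFinset
  have h5 : H.edgeFinset ⊆ L := by
    intro e he
    rw [mem_edgeFinset] at he
    simp only [H, edgeSet_fromEdgeSet] at he
    exact he.1
  have h6 : L.card ≤ (g.edges ++ q.edges).length := List.toFinset_card_le _
  have h7 := Finset.card_le_card h5
  simp only [List.length_append, Walk.length_edges] at h6
  omega

theorem exists_cycle_map [Fintype V] (hc : G.Connected) (hna : ¬ G.IsAcyclic) :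
    ∃ (k : ℕ) (φ : ℕ → V), 3 ≤ k ∧ (∀ i, φ (i + k) = φ i) ∧ (∀ i, G.Adj (φ i) (φ (i + 1))) ∧
      (∀ i m, 2 * m ≤ k → G.dist (φ i) (φ (i + m)) = m) := by
  classical
  obtain ⟨a, w, hw, hgirth⟩ := exists_girth_eq_length.mpr hna
  have hk : 3 ≤ w.length := hw.three_le_length
  have hmin : ∀ (b : V) (w' : G.Walk b b), w'.IsCycle → w.length ≤ w'.length := by
    intro b w' hw'
    rw [← hgirth]; exact girth_le_length hw'
  let φ : ℕ → V := fun i => w.getVert (i % w.length)
  have hadj : ∀ i, G.Adj (φ i) (φ (i + 1)) := by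
    intro i
    have hlt : i % w.length < w.length := Nat.mod_lt _ (by omega)
    have h1 := w.adj_getVert_succ hlt
    by_cases hcase : i % w.length + 1 = w.length
    · have e : (i + 1) % w.length = 0 := by
        rw [Nat.add_mod, Nat.mod_eq_of_lt (by omega : 1 < w.length), hcase, Nat.mod_self]
      simp only [φ, e, Walk.getVert_zero]
      rw [hcase, Walk.getVert_length] at h1
      exact h1
    · have e : (i + 1) % w.length = i % w.length + 1 := by
        rw [Nat.add_mod, Nat.mod_eq_of_lt (by omega : 1 < w.length)]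
        exact Nat.mod_eq_of_lt (by omega)
      simp only [φ, e]
      exact h1
  have hinj : ∀ i j, i < w.length → j < w.length → w.getVert i = w.getVert j → i = j := by
    intro i j hi hj h
    exact hw.getVert_injOn' (by simp; omega) (by simp; omega) h
  have hwalk : ∀ i m, ∃ q : G.Walk (φ i) (φ (i + m)), q.length = m ∧
      q.support = (List.range (m + 1)).map (fun j => φ (i + j)) := by
    intro i m
    induction m with
    | zero => exact ⟨Walk.nil, rfl, by simp⟩
    | succ m ih =>
      obtain ⟨q, hq1, hq2⟩ := ih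
      refine ⟨q.concat (hadj (i + m)), ?_, ?_⟩
      · rw [Walk.length_concat, hq1]
      · rw [Walk.support_concat, hq2, List.range_succ (n := m + 1)]
        simp
  refine ⟨w.length, φ, hk, fun i => by simp [φ], hadj, ?_⟩
  intro i m hm
  obtain ⟨q, hq1, hq2⟩ := hwalk i m
  have hqp : q.IsPath := by
    rw [Walk.isPath_def, hq2]
    apply List.Nodup.map_on _ List.nodup_range
    intro x hx y hy hxy
    rw [List.mem_range] at hx hy
    have h1 := hinj _ _ (Nat.mod_lt _ (by omega)) (Nat.mod_lt _ (by omega)) hxy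
    have h2 : x ≡ y [MOD w.length] := Nat.ModEq.add_left_cancel' i h1
    exact Nat.ModEq.eq_of_lt_of_lt h2 (by omega) (by omega)
  have hle : G.dist (φ i) (φ (i + m)) ≤ m := (dist_le q).trans hq1.le
  rcases Nat.lt_or_ge (G.dist (φ i) (φ (i + m))) m with hlt | hge
  · exfalso
    obtain ⟨g, hg, hgl⟩ := hc.exists_path_of_dist (φ i) (φ (i + m))
    obtain ⟨b, w', hw', hl⟩ := short_cycle g q hg hqp (by omega)
    have := hmin b w' hw'
    omega
  · omega

/-- an isometric cycle of length `k` in `G`. -/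
structure IsoCyc (G : SimpleGraph V) (k : ℕ) (φ : ℕ → V) : Prop where
  three : 3 ≤ k
  per : ∀ i, φ (i + k) = φ i
  adj : ∀ i, G.Adj (φ i) (φ (i + 1))
  iso : ∀ i m, 2 * m ≤ k → G.dist (φ i) (φ (i + m)) = m

namespace IsoCyc

variable {k : ℕ} {φ : ℕ → V}

theorem shift (C : IsoCyc G k φ) (a : ℕ) : IsoCyc G k (fun i => φ (i + a)) where
  three := C.three
  per i := by
    have := C.per (i + a)
    show φ (i + k + a) = φ (i + a)
    rw [← this]; congr 1; omega
  adj i := by
    have := C.adj (i + a)
    show G.Adj (φ (i + a)) (φ (i + 1 + a))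
    have e : i + 1 + a = i + a + 1 := by omega
    rwa [e]
  iso i m h := by
    have := C.iso (i + a) m h
    show G.dist (φ (i + a)) (φ (i + m + a)) = m
    have e : i + m + a = i + a + m := by omega
    rwa [e]

theorem dist_eq (C : IsoCyc G k φ) {i j : ℕ} (hi : i < k) (hj : j < k) :
    G.dist (φ i) (φ j) = cd k i j := by
  wlog hij : i ≤ j generalizing i j
  · rw [dist_comm, this hj hi (by omega)]
    rw [cd_le _ _ _ (by omega), cd_ge _ _ _ (by omega)]
  rw [cd_le k i j hij]
  rcases Nat.lt_or_ge k (2 * (j - i)) with h | h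
  · have h1 := C.iso j (k - (j - i)) (by omega)
    have e : j + (k - (j - i)) = i + k := by omega
    rw [e, C.per, dist_comm] at h1
    omega
  · have h1 := C.iso i (j - i) h
    have e : i + (j - i) = j := by omega
    rw [e] at h1
    omega

theorem nx_lt (C : IsoCyc G k φ) {i : ℕ} (hi : i < k) : nx k i < k := by
  have := C.three
  unfold nx; split_ifs <;> omega

theorem phi_nx (C : IsoCyc G k φ) {i : ℕ} (_hi : i < k) : φ (nx k i) = φ (i + 1) := by
  unfold nx; split_ifs with h
  · rw [h]
    have := C.per 0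
    rw [Nat.zero_add] at this
    exact this.symm
  · rfl

theorem adj_nx (C : IsoCyc G k φ) {i : ℕ} (hi : i < k) : G.Adj (φ i) (φ (nx k i)) := by
  rw [C.phi_nx hi]; exact C.adj i

theorem inj (C : IsoCyc G k φ) {i j : ℕ} (hi : i < k) (hj : j < k) (h : φ i = φ j) : i = j := by
  have h1 := C.dist_eq hi hj
  rw [h, dist_self] at h1
  rcases cd_eq k i j with ⟨g1, g2⟩ | ⟨g1, g2⟩ <;> omega

theorem adj_imp (C : IsoCyc G k φ) {i j : ℕ} (hi : i < k) (hj : j < k)
    (h : G.Adj (φ i) (φ j)) : j = nx k i ∨ i = nx k j := by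
  have h0 := C.three
  have h1 := C.dist_eq hi hj
  have h2 : G.dist (φ i) (φ j) = 1 := dist_eq_one_iff_adj.mpr h
  unfold nx
  rcases cd_eq k i j with ⟨g1, g2⟩ | ⟨g1, g2⟩ <;> split_ifs <;> omega

end IsoCyc

theorem exists_isoCyc [Fintype V] (hc : G.Connected) (hna : ¬ G.IsAcyclic) :
    ∃ (k : ℕ) (φ : ℕ → V), IsoCyc G k φ := by
  obtain ⟨k, φ, h1, h2, h3, h4⟩ := exists_cycle_map hc hna
  exact ⟨k, φ, h1, h2, h3, h4⟩

end Pool.Agent.Helper431
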