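import Pool.Agent.Helper431.Gates
import Pool.Agent.Helper431.Cycle

set_option autoImplicit false

namespace Pool.Agent.Helper431

open SimpleGraph

variable {V : Type*} {G : SimpleGraph V} {dep : V → ℕ} {p : V → V}

/-- The finset of non-forest edges. -/
noncomputable def NE [Fintype V] (G : SimpleGraph V) (R : Set V) (p : V → V) : Finset (Sym2 V) := by
  classical exact Finset.univ.filter (fun e => ∃ u v, e = s(u, v) ∧ NT G R p u v)

theorem mem_NE [Fintype V] {R : Set V} {e : Sym2 V} :
    e ∈ NE G R p ↔ ∃ u v, e = s(u, v) ∧ NT G R p u v := by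
  classical
  simp [NE]

noncomputable def Wf [Fintype V] (G : SimpleGraph V) (R : Set V) (p : V → V) : Finset V := by
  classical exact Finset.univ.filter (fun v => v ∈ WS G R p)

theorem mem_Wf [Fintype V] {R : Set V} {v : V} : v ∈ Wf G R p ↔ v ∈ WS G R p := by
  classical
  simp [Wf]

theorem card_toFinset_le (e : Sym2 V) [DecidableEq V] : e.toFinset.card ≤ 2 := by
  induction e with
  | _ a b =>
    have : (s(a, b)).toFinset ⊆ {a, b} := by
      intro x hx
      simpa using hx
    exact (Finset.card_le_card this).trans Finset.card_le_two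

theorem card_Wf_le [Fintype V] (R : Set V) : (Wf G R p).card ≤ 2 * (NE G R p).card := by
  classical
  have h : Wf G R p ⊆ (NE G R p).biUnion (fun e => e.toFinset) := by
    intro v hv
    rw [mem_Wf] at hv
    obtain ⟨u, hu⟩ := hv
    rw [Finset.mem_biUnion]
    exact ⟨s(v, u), mem_NE.mpr ⟨v, u, rfl, hu⟩, by simp⟩
  calc (Wf G R p).card ≤ _ := Finset.card_le_card h
    _ ≤ ∑ e ∈ NE G R p, e.toFinset.card := Finset.card_biUnion_le
    _ ≤ ∑ e ∈ NE G R p, 2 := Finset.sum_le_sum (fun e _ => card_toFinset_le e)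
    _ = 2 * (NE G R p).card := by rw [Finset.sum_const, smul_eq_mul, mul_comm]

theorem card_Wf_lt [Fintype V] (R : Set V) {s z z' : V} (hne : z ≠ z') (h1 : NT G R p s z)
    (h2 : NT G R p s z') : (Wf G R p).card + 1 ≤ 2 * (NE G R p).card := by
  classical
  let t : Sym2 V → Finset V := fun e => e.toFinset.erase s
  have h : Wf G R p ⊆ insert s ((NE G R p).biUnion t) := by
    intro v hv
    rw [mem_Wf] at hv
    obtain ⟨u, hu⟩ := hv
    by_cases hvs : v = s
    · subst hvs; exact Finset.mem_insert_self _ _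
    · apply Finset.mem_insert_of_mem
      rw [Finset.mem_biUnion]
      exact ⟨s(v, u), mem_NE.mpr ⟨v, u, rfl, hu⟩, by simp [t, hvs]⟩
  have e1 : s(s, z) ∈ NE G R p := mem_NE.mpr ⟨s, z, rfl, h1⟩
  have e2 : s(s, z') ∈ NE G R p := mem_NE.mpr ⟨s, z', rfl, h2⟩
  have hne' : s(s, z') ≠ s(s, z) := by
    intro h
    rw [Sym2.eq_iff] at h
    rcases h with ⟨-, h⟩ | ⟨h, h'⟩
    · exact hne h.symm
    · exact hne (h.symm.trans h'.symm |>.symm ▸ rfl)
  have e2' : s(s, z') ∈ (NE G R p).erase s(s, z) := Finset.mem_erase.mpr ⟨hne', e2⟩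
  have ht1 : ∀ y : V, (t s(s, y)).card ≤ 1 := by
    intro y
    have : t s(s, y) ⊆ {y} := by
      intro x hx
      simp only [t, Finset.mem_erase, Sym2.mem_toFinset, Sym2.mem_iff] at hx
      rcases hx with ⟨hx1, hx2 | hx2⟩
      · exact absurd hx2 hx1
      · simp [hx2]
    exact (Finset.card_le_card this).trans (by simp)
  have ht2 : ∀ e : Sym2 V, (t e).card ≤ 2 := fun e =>
    (Finset.card_le_card (Finset.erase_subset _ _)).trans (card_toFinset_le e)
  have hsum : ∑ e ∈ NE G R p, (t e).card + 2 ≤ 2 * (NE G R p).card := by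
    rw [← Finset.add_sum_erase _ _ e1, ← Finset.add_sum_erase _ _ e2']
    have k1 := ht1 z
    have k2 := ht1 z'
    have k3 : ∑ e ∈ ((NE G R p).erase s(s, z)).erase s(s, z'), (t e).card ≤
        ∑ e ∈ ((NE G R p).erase s(s, z)).erase s(s, z'), 2 :=
      Finset.sum_le_sum (fun e _ => ht2 e)
    rw [Finset.sum_const, smul_eq_mul, Finset.card_erase_of_mem e2', Finset.card_erase_of_mem e1]
      at k3
    have k4 : 0 < ((NE G R p).erase s(s, z)).card := Finset.card_pos.mpr ⟨_, e2'⟩
    rw [Finset.card_erase_of_mem e1] at k4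
    omega
  have k5 : (Wf G R p).card ≤ (insert s ((NE G R p).biUnion t)).card := Finset.card_le_card h
  have k6 := Finset.card_insert_le s ((NE G R p).biUnion t)
  have k7 : ((NE G R p).biUnion t).card ≤ ∑ e ∈ NE G R p, (t e).card := Finset.card_biUnion_le
  omega

/-- non-forest edges, forest edges and inner edges are disjoint. -/
theorem card_NE_le [Fintype V] [DecidableEq V] [DecidableRel G.Adj] (Rf : Finset V)
    (B : BFS G (Rf : Set V) dep p) (E : Finset (Sym2 V)) (hE : E ⊆ G.edgeFinset)
    (hER : ∀ e ∈ E, ∀ v ∈ e, v ∈ Rf) (hcard : Rf.card ≤ E.card) :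
    (NE G (Rf : Set V) p).card + Fintype.card V ≤ G.edgeFinset.card := by
  classical
  let T : Finset (Sym2 V) := (Finset.univ \ Rf).image (fun v => s(v, p v))
  have hnotR : ∀ {v : V}, v ∈ Finset.univ \ Rf → v ∉ (Rf : Set V) := by
    intro v hv
    simpa using hv
  have hTcard : T.card = Fintype.card V - Rf.card := by
    rw [Finset.card_image_of_injOn, Finset.card_univ_diff]
    intro v hv w hw h
    have hv' := B.p_adj v (hnotR hv)
    have hw' := B.p_adj w (hnotR hw)
    simp only [Sym2.eq_iff] at h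
    rcases h with h | ⟨h1, h2⟩
    · exact h.1
    · rw [← h1] at hw'
      rw [h2] at hv'
      omega
  have hTG : T ⊆ G.edgeFinset := by
    intro e he
    simp only [T, Finset.mem_image] at he
    obtain ⟨v, hv, rfl⟩ := he
    rw [mem_edgeFinset]
    exact (B.p_adj v (hnotR hv)).1
  have hNG : NE G (Rf : Set V) p ⊆ G.edgeFinset := by
    intro e he
    rw [mem_NE] at he
    obtain ⟨u, v, rfl, h⟩ := he
    rw [mem_edgeFinset]
    exact h.1
  have hTE : Disjoint T E := by
    rw [Finset.disjoint_left]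
    intro e he he'
    simp only [T, Finset.mem_image] at he
    obtain ⟨v, hv, rfl⟩ := he
    exact hnotR hv (hER _ he' v (by simp))
  have hNT : Disjoint (NE G (Rf : Set V) p) (T ∪ E) := by
    rw [Finset.disjoint_left]
    intro e he he'
    rw [mem_NE] at he
    obtain ⟨u, v, rfl, h⟩ := he
    rw [Finset.mem_union] at he'
    rcases he' with he' | he'
    · simp only [T, Finset.mem_image, Sym2.eq_iff] at he'
      obtain ⟨w, hw, (⟨h1, h2⟩ | ⟨h1, h2⟩)⟩ := he'
      · subst h1; exact h.2.2.1 h2
      · subst h1; exact h.2.2.2 h2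
    · exact h.2.1 ⟨hER _ he' u (by simp), hER _ he' v (by simp)⟩
  have h1 := Finset.card_le_card (Finset.union_subset hNG (Finset.union_subset hTG hE))
  rw [Finset.card_union_of_disjoint hNT, Finset.card_union_of_disjoint hTE, hTcard] at h1
  have h2 : Rf.card ≤ Fintype.card V := Finset.card_le_univ Rf
  omega

/-- the vertex set of an isometric cycle. -/
def cycR {k : ℕ} {φ : ℕ → V} [DecidableEq V] (_C : IsoCyc G k φ) : Finset V :=
  (Finset.range k).image φ

theorem mem_cycR {k : ℕ} {φ : ℕ → V} [DecidableEq V] (C : IsoCyc G k φ) {v : V} :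
    v ∈ cycR C ↔ ∃ i, i < k ∧ φ i = v := by
  simp [cycR]

theorem card_NE_cyc [Fintype V] [DecidableEq V] [DecidableRel G.Adj] {k : ℕ} {φ : ℕ → V}
    (C : IsoCyc G k φ) (B : BFS G (cycR C : Set V) dep p) :
    (NE G (cycR C : Set V) p).card + Fintype.card V ≤ G.edgeFinset.card := by
  classical
  have hk := C.three
  refine card_NE_le (cycR C) B ((Finset.range k).image (fun i => s(φ i, φ (nx k i)))) ?_ ?_ ?_
  · intro e he
    simp only [Finset.mem_image, Finset.mem_range] at he
    obtain ⟨i, hi, rfl⟩ := he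
    rw [mem_edgeFinset]
    exact C.adj_nx hi
  · intro e he v hv
    simp only [Finset.mem_image, Finset.mem_range] at he
    obtain ⟨i, hi, rfl⟩ := he
    rw [mem_cycR]
    simp only [Sym2.mem_iff] at hv
    rcases hv with rfl | rfl
    · exact ⟨i, hi, rfl⟩
    · exact ⟨nx k i, C.nx_lt hi, rfl⟩
  · rw [Finset.card_image_of_injOn (f := fun i => s(φ i, φ (nx k i)))]
    · exact Finset.card_image_le
    · intro i hi j hj h
      simp only [Finset.coe_range, Set.mem_Iio] at hi hj
      simp only [Sym2.eq_iff] at h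
      rcases h with ⟨h1, -⟩ | ⟨h1, h2⟩
      · exact C.inj hi hj h1
      · have e1 := C.inj hi (C.nx_lt hj) h1
        have e2 := C.inj (C.nx_lt hi) hj h2
        unfold nx at e1 e2
        split_ifs at e1 e2 <;> omega

end Pool.Agent.Helper431
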