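import Pool.Agent.Helper431.Main1

set_option autoImplicit false

namespace Pool.Agent.Helper431

open SimpleGraph

variable {V : Type*} {G : SimpleGraph V}

theorem fin_sub_val {k : ℕ} (u v : Fin k) :
    ((u - v).val = 1 ∨ (v - u).val = 1) ↔ (cd k u v = 1 ∧ u.val ≠ v.val) := by
  have hu := u.2
  have hv := v.2
  have h1 : (u - v).val = if v.val ≤ u.val then u.val - v.val else k - v.val + u.val := by
    rw [Fin.val_sub]
    split_ifs with h
    · rw [Nat.mod_eq_sub_mod (by omega), Nat.mod_eq_of_lt (by omega)]; omega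
    · rw [Nat.mod_eq_of_lt (by omega)]
  have h2 : (v - u).val = if u.val ≤ v.val then v.val - u.val else k - u.val + v.val := by
    rw [Fin.val_sub]
    split_ifs with h
    · rw [Nat.mod_eq_sub_mod (by omega), Nat.mod_eq_of_lt (by omega)]; omega
    · rw [Nat.mod_eq_of_lt (by omega)]
  rw [h1, h2]
  obtain ⟨a, ha⟩ := u
  obtain ⟨b, hb⟩ := v
  simp only at *
  rcases cd_eq k a b with ⟨g1, g2⟩ | ⟨g1, g2⟩
  · rw [g2]; split_ifs <;> omega
  · rw [g2]; split_ifs <;> omega

theorem exists_iso_cycleGraph [Fintype V] [DecidableEq V] [DecidableRel G.Adj]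
    (hc : G.Connected) (hdeg : ∀ v, 2 ≤ G.degree v) (hle : ∀ v, G.degree v ≤ 2) :
    ∃ n : ℕ, Nonempty (G ≃g cycleGraph n) := by
  classical
  have hm : Fintype.card V ≤ G.edgeFinset.card := by
    have h1 := G.sum_degrees_eq_twice_card_edges
    have h2 : ∑ w : V, 2 ≤ ∑ w : V, G.degree w := Finset.sum_le_sum (fun w _ => hdeg w)
    rw [Finset.sum_const, smul_eq_mul, Finset.card_univ] at h2
    omega
  have hna : ¬ G.IsAcyclic := by
    intro hac
    have := (IsTree.mk hc hac).card_edgeFinset
    omega
  obtain ⟨k, φ, C⟩ := exists_isoCyc hc hna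
  have hk := C.three
  have hcl : ∀ i, i < k → ∀ u, G.Adj (φ i) u → ∃ j, j < k ∧ φ j = u := by
    intro i hi u hu
    have hpr : (if i = 0 then k - 1 else i - 1) < k := by split_ifs <;> omega
    have a1 := C.adj_nx hi
    have a2 : G.Adj (φ i) (φ (if i = 0 then k - 1 else i - 1)) := by
      have := C.adj_nx hpr
      have e : nx k (if i = 0 then k - 1 else i - 1) = i := by
        unfold nx; split_ifs <;> omega
      rw [e] at this
      exact this.symm
    have hsub : ({φ (nx k i), φ (if i = 0 then k - 1 else i - 1)} : Finset V) ⊆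
        G.neighborFinset (φ i) := by
      intro x hx
      rw [Finset.mem_insert, Finset.mem_singleton] at hx
      rw [mem_neighborFinset]
      rcases hx with rfl | rfl
      · exact a1
      · exact a2
    have hcard : ({φ (nx k i), φ (if i = 0 then k - 1 else i - 1)} : Finset V).card = 2 := by
      apply Finset.card_pair
      intro h
      have := C.inj (C.nx_lt hi) hpr h
      unfold nx at this
      split_ifs at this <;> omega
    have heq := Finset.eq_of_subset_of_card_le hsub (by
      rw [hcard, card_neighborFinset_eq_degree]; exact hle _)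
    have hu' : u ∈ G.neighborFinset (φ i) := by rwa [mem_neighborFinset]
    rw [← heq, Finset.mem_insert, Finset.mem_singleton] at hu'
    rcases hu' with rfl | rfl
    · exact ⟨_, C.nx_lt hi, rfl⟩
    · exact ⟨_, hpr, rfl⟩
  have hall : ∀ v, ∃ j, j < k ∧ φ j = v := by
    intro v
    obtain ⟨w⟩ := hc.preconnected (φ 0) v
    have key : ∀ (x y : V) (w : G.Walk x y), (∃ j, j < k ∧ φ j = x) → ∃ j, j < k ∧ φ j = y := by
      intro x y w
      induction w with
      | nil => exact id
      | cons h q ih =>
        rintro ⟨j, hj, rfl⟩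
        exact ih (hcl j hj _ h)
    exact key _ _ w ⟨0, by omega, rfl⟩
  let f : Fin k → V := fun i => φ i
  have hf : Function.Bijective f := by
    constructor
    · intro i j h
      exact Fin.ext (C.inj i.2 j.2 h)
    · intro v
      obtain ⟨j, hj, h⟩ := hall v
      exact ⟨⟨j, hj⟩, h⟩
  refine ⟨k, ⟨RelIso.symm ⟨Equiv.ofBijective f hf, ?_⟩⟩⟩
  intro u v
  have h1 : G.Adj (f u) (f v) ↔ cd k u v = 1 := by
    rw [← C.dist_eq u.2 v.2, dist_eq_one_iff_adj]
  simp only [Equiv.ofBijective_apply]
  rw [h1, cycleGraph_adj', fin_sub_val]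
  constructor
  · intro h
    refine ⟨h, ?_⟩
    intro he
    rw [he, cd_le _ _ _ le_rfl] at h
    omega
  · exact fun h => h.1

end Pool.Agent.Helper431
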