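import Mathlib

set_option autoImplicit false

namespace Pool.Agent.Helper431

open SimpleGraph

variable {V : Type*} (G : SimpleGraph V)

/-- A BFS forest rooted at a set `R`: `dep` is the distance to `R`, `p` the parent map. -/
structure BFS (R : Set V) (dep : V → ℕ) (p : V → V) : Prop where
  conn : G.Connected
  dep_le : ∀ v, ∀ r ∈ R, dep v ≤ G.dist v r
  dep_att : ∀ v, ∃ r ∈ R, G.dist v r = dep v
  p_adj : ∀ v, v ∉ R → G.Adj v (p v) ∧ dep (p v) + 1 = dep v
  p_root : ∀ v, v ∈ R → p v = v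

/-- The non-forest edges (those not inside `R`). -/
def NT (R : Set V) (p : V → V) (u v : V) : Prop :=
  G.Adj u v ∧ ¬ (u ∈ R ∧ v ∈ R) ∧ p u ≠ v ∧ p v ≠ u

/-- Endpoints of non-forest edges. -/
def WS (R : Set V) (p : V → V) : Set V := {u | ∃ v, NT G R p u v}

/-- `s` has a depth-monotone geodesic to some member of `X`. -/
def J (dep : V → ℕ) (X : Set V) (s : V) : Prop := ∃ x ∈ X, G.dist s x + dep x = dep s

/-- `s` is a forest descendant of a member of `X`. -/
inductive InT (R : Set V) (p : V → V) (X : Set V) : V → Prop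
  | base (x : V) (hx : x ∈ X) : InT R p X x
  | step (s : V) (hs : s ∉ R) (h : InT R p X (p s)) : InT R p X s

variable {G} {R : Set V} {dep : V → ℕ} {p : V → V}

theorem exists_next (hc : G.Connected) {s x : V} (h : s ≠ x) :
    ∃ z, G.Adj s z ∧ G.dist z x + 1 = G.dist s x := by
  obtain ⟨w, hw⟩ := hc.exists_walk_length_eq_dist s x
  cases w with
  | nil => exact absurd rfl h
  | cons hadj q =>
    rename_i z
    refine ⟨z, hadj, ?_⟩
    have h1 : G.dist z x ≤ q.length := dist_le q
    have h2 : G.dist s x ≤ G.dist s z + G.dist z x := hc.dist_triangle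
    have h3 : G.dist s z = 1 := dist_eq_one_iff_adj.mpr hadj
    simp only [Walk.length_cons] at hw
    omega

namespace BFS

theorem dep_root (B : BFS G R dep p) {v : V} (hv : v ∈ R) : dep v = 0 := by
  have := B.dep_le v v hv
  simpa using this

theorem root_of_dep (B : BFS G R dep p) {v : V} (hv : dep v = 0) : v ∈ R := by
  obtain ⟨r, hr, h⟩ := B.dep_att v
  rw [hv] at h
  have := (B.conn.dist_eq_zero_iff).mp h
  rwa [this]

theorem dep_pos (B : BFS G R dep p) {v : V} (hv : v ∉ R) : 0 < dep v := by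
  rcases Nat.eq_zero_or_pos (dep v) with h | h
  · exact absurd (B.root_of_dep h) hv
  · exact h

theorem dep_lip (B : BFS G R dep p) (u v : V) : dep u ≤ G.dist u v + dep v := by
  obtain ⟨r, hr, h⟩ := B.dep_att v
  have h1 := B.dep_le u r hr
  have h2 : G.dist u r ≤ G.dist u v + G.dist v r := B.conn.dist_triangle
  omega

theorem dep_adj (B : BFS G R dep p) {u v : V} (h : G.Adj u v) : dep u ≤ dep v + 1 := by
  have h1 := B.dep_lip u v
  have h3 : G.dist u v = 1 := dist_eq_one_iff_adj.mpr h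
  omega

theorem p_ne (B : BFS G R dep p) {u v : V} (h : dep u ≤ dep v) (hne : u ≠ v) : p u ≠ v := by
  intro hp
  by_cases hu : u ∈ R
  · rw [B.p_root u hu] at hp; exact hne hp
  · have := (B.p_adj u hu).2
    rw [hp] at this; omega

/-- an upward edge that is not the parent edge is a non-forest edge. -/
theorem nt_of_up (B : BFS G R dep p) {s z : V} (h : G.Adj s z) (hd : dep z + 1 = dep s)
    (hne : z ≠ p s) : NT G R p s z := by
  refine ⟨h, ?_, fun h' => hne h'.symm, ?_⟩
  · rintro ⟨hs, -⟩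
    have := B.dep_root hs; omega
  · exact B.p_ne (by omega) (fun h' => by subst h'; omega)

theorem nt_symm {u v : V} (h : NT G R p u v) : NT G R p v u :=
  ⟨h.1.symm, fun h' => h.2.1 ⟨h'.2, h'.1⟩, h.2.2.2, h.2.2.1⟩

theorem J_step (B : BFS G R dep p) {X : Set V} {n : ℕ} (hX : ∀ x ∈ X, dep x = n) {s : V}
    (hs : J G dep X s) (hd : n < dep s) : ∃ z, G.Adj s z ∧ dep z + 1 = dep s ∧ J G dep X z := by
  obtain ⟨x, hx, h⟩ := hs
  have hne : s ≠ x := by
    rintro rfl
    have := hX s hx; omega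
  obtain ⟨z, hz, hz2⟩ := exists_next B.conn hne
  have h1 := B.dep_lip z x
  have h2 := B.dep_adj hz
  exact ⟨z, hz, by omega, x, hx, by omega⟩

theorem J_dep (B : BFS G R dep p) {X : Set V} {n : ℕ} (hX : ∀ x ∈ X, dep x = n) {s : V}
    (hs : J G dep X s) : n ≤ dep s := by
  obtain ⟨x, hx, h⟩ := hs
  have := hX x hx; omega

theorem J_base (B : BFS G R dep p) {X : Set V} {n : ℕ} (hX : ∀ x ∈ X, dep x = n) {s : V}
    (hs : J G dep X s) (hd : dep s = n) : s ∈ X := by
  obtain ⟨x, hx, h⟩ := hs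
  have := hX x hx
  have h0 : G.dist s x = 0 := by omega
  rwa [(B.conn.dist_eq_zero_iff).mp h0]

theorem InT_dep (B : BFS G R dep p) {X : Set V} {n : ℕ} (hX : ∀ x ∈ X, dep x = n) {s : V}
    (hs : InT R p X s) : n ≤ dep s := by
  induction hs with
  | base x hx => exact (hX x hx).ge
  | step s hs h ih => have := (B.p_adj s hs).2; omega

theorem InT_base (B : BFS G R dep p) {X : Set V} {n : ℕ} (hX : ∀ x ∈ X, dep x = n) {s : V}
    (hs : InT R p X s) (hd : dep s = n) : s ∈ X := by
  cases hs with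
  | base x hx => exact hx
  | step s hs h =>
    have := (B.p_adj s hs).2
    have := B.InT_dep hX h
    omega

theorem InT_J (B : BFS G R dep p) {X : Set V} {s : V}
    (hs : InT R p X s) : J G dep X s := by
  induction hs with
  | base x hx => exact ⟨x, hx, by simp⟩
  | step s hs h ih =>
    obtain ⟨x, hx, h⟩ := ih
    have h1 := B.p_adj s hs
    have h2 : G.dist s x ≤ G.dist s (p s) + G.dist (p s) x := B.conn.dist_triangle
    have h3 : G.dist s (p s) = 1 := dist_eq_one_iff_adj.mpr h1.1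
    have h4 := B.dep_lip s x
    exact ⟨x, hx, by omega⟩

theorem InT_parent (B : BFS G R dep p) {X : Set V} {s : V}
    (hs : InT R p X s) (hx : s ∉ X) : InT R p X (p s) ∧ s ∉ R := by
  cases hs with
  | base x hx' => exact absurd hx' hx
  | step s hs h => exact ⟨h, hs⟩

theorem InT_trans {X Y : Set V} (h : ∀ x ∈ X, InT R p Y x) {s : V}
    (hs : InT R p X s) : InT R p Y s := by
  induction hs with
  | base x hx => exact h x hx
  | step s hs _ ih => exact InT.step s hs ih

/-- Claim B. -/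
theorem claimB (B : BFS G R dep p) {X Y : Set V} {n m : ℕ}
    (hX : ∀ x ∈ X, dep x = n) (hY : ∀ y ∈ Y, dep y = n) (hXY : ∀ x ∈ X, x ∉ Y)
    (hmin : ∀ w ∈ WS G R p, InT R p X w → m ≤ dep w) {v : V} (hv : InT R p X v) (hd : dep v < m) :
    ¬ J G dep Y v := by
  induction hv with
  | base x hx =>
    intro hJ
    exact hXY x hx (B.J_base hY hJ (hX x hx))
  | step s hs h ih =>
    intro hJ
    have h1 := B.p_adj s hs
    have h2 := B.InT_dep hX h
    obtain ⟨z, hz, hzd, hzJ⟩ := B.J_step hY hJ (by omega)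
    by_cases hzp : z = p s
    · subst hzp
      exact ih (by omega) hzJ
    · have := hmin s ⟨z, B.nt_of_up hz hzd hzp⟩ (InT.step s hs h)
      omega

/-- Claim C. -/
theorem claimC (B : BFS G R dep p) {X : Set V} {n m : ℕ}
    (hX : ∀ x ∈ X, dep x = n)
    (hmin : ∀ w ∈ WS G R p, InT R p X w → m ≤ dep w) :
    ∀ (k : ℕ) (v : V), dep v = k → ¬ InT R p X v → dep v < m → ¬ J G dep X v := by
  intro k
  induction k using Nat.strong_induction_on with
  | _ k ih =>
    intro v hk hv hd hJ
    have hge := B.J_dep hX hJ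
    rcases Nat.lt_or_ge n (dep v) with hlt | hle
    · obtain ⟨z, hz, hzd, hzJ⟩ := B.J_step hX hJ hlt
      have hvR : v ∉ R := fun h => by have := B.dep_root h; omega
      by_cases hzT : InT R p X z
      · have hzp : z ≠ p v := by
          rintro rfl
          exact hv (InT.step v hvR hzT)
        have hnt := B.nt_of_up hz hzd hzp
        have := hmin z ⟨v, nt_symm hnt⟩ hzT
        omega
      · exact ih (dep z) (by omega) z rfl hzT (by omega) hzJ
    · have : v ∈ X := B.J_base hX hJ (by omega)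
      exact hv (InT.base v this)

/-- Lemma A: separation of disjoint same-depth sets by the endpoints of non-forest edges. -/
theorem lemmaA (B : BFS G R dep p) {X Y : Set V} {n : ℕ}
    (hX : ∀ x ∈ X, dep x = n) (hY : ∀ y ∈ Y, dep y = n) (hXY : ∀ x ∈ X, x ∉ Y)
    (hW : ∃ s ∈ WS G R p, InT R p X s) :
    ∃ s ∈ WS G R p, ¬ (J G dep X s ↔ J G dep Y s) := by
  by_contra hcon
  push Not at hcon
  classical
  have hex : ∃ m, ∃ s ∈ WS G R p, InT R p X s ∧ dep s = m := by
    obtain ⟨s, hs, hs'⟩ := hW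
    exact ⟨_, s, hs, hs', rfl⟩
  obtain ⟨s, hsW, hsT, hsd⟩ := Nat.find_spec hex
  have hmin : ∀ w ∈ WS G R p, InT R p X w → dep s ≤ dep w := by
    intro w hw hwT
    rw [hsd]
    exact Nat.find_min' hex ⟨w, hw, hwT, rfl⟩
  have hJX : J G dep X s := B.InT_J hsT
  have hJY : J G dep Y s := (hcon s hsW).mp hJX
  have hge := B.InT_dep hX hsT
  have hlt : n < dep s := by
    rcases Nat.lt_or_ge n (dep s) with h | h
    · exact h
    · exact absurd (B.J_base hY hJY (by omega)) (hXY s (B.InT_base hX hsT (by omega)))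
  obtain ⟨z, hz, hzd, hzJ⟩ := B.J_step hY hJY hlt
  have hzT : ¬ InT R p X z := fun hzT =>
    B.claimB hX hY hXY hmin hzT (by omega) hzJ
  have hsX : s ∉ X := fun h => by have := hX s h; omega
  have hzp : z ≠ p s := by
    rintro rfl
    exact hzT (B.InT_parent hsT hsX).1
  have hnt := B.nt_of_up hz hzd hzp
  have hzW : z ∈ WS G R p := ⟨s, nt_symm hnt⟩
  have hzX : J G dep X z := (hcon z hzW).mpr hzJ
  exact B.claimC hX hmin (dep z) z rfl hzT (by omega) hzX

theorem J_single {x s : V} : J G dep {x} s ↔ G.dist s x + dep x = dep s := by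
  simp [J]

/-- vertex pairs not both inside the root set are separated by `W`. -/
theorem resolve_vertex (B : BFS G R dep p)
    (hgood : ∀ v, v ∉ R → ∃ s ∈ WS G R p, InT R p {v} s) {x y : V} (hne : x ≠ y)
    (hout : ¬ (x ∈ R ∧ y ∈ R)) : ∃ s ∈ WS G R p, G.dist s x ≠ G.dist s y := by
  wlog hle : dep x ≤ dep y generalizing x y
  · obtain ⟨s, hs, h⟩ := this hne.symm (fun h => hout ⟨h.2, h.1⟩) (by omega)
    exact ⟨s, hs, h.symm⟩
  have hy : y ∉ R := by
    intro hy
    have h0 := B.dep_root hy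
    exact hout ⟨B.root_of_dep (by omega), hy⟩
  rcases Nat.lt_or_ge (dep x) (dep y) with hlt | hge
  · obtain ⟨s, hs, hT⟩ := hgood y hy
    have h1 := J_single.mp (B.InT_J hT)
    have h2 := B.dep_lip s x
    exact ⟨s, hs, by omega⟩
  · have heq : dep x = dep y := by omega
    obtain ⟨s, hs, hJ⟩ := B.lemmaA (X := {y}) (Y := {x}) (n := dep y) (by simp)
      (by simp [heq]) (by simpa using hne.symm) (hgood y hy)
    rw [J_single, J_single] at hJ
    exact ⟨s, hs, by omega⟩

theorem edge_low (B : BFS G R dep p) (s a b : V) :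
    dep s ≤ min (G.dist s a) (G.dist s b) + max (dep a) (dep b) := by
  have h1 := B.dep_lip s a
  have h2 := B.dep_lip s b
  omega

theorem edge_hit (B : BFS G R dep p)
    (hgood : ∀ v, v ∉ R → ∃ s ∈ WS G R p, InT R p {v} s) {a b : V} (hab : G.Adj a b)
    (hout : ¬ (a ∈ R ∧ b ∈ R)) :
    ∃ s ∈ WS G R p, min (G.dist s a) (G.dist s b) + max (dep a) (dep b) = dep s := by
  wlog hle : dep a ≤ dep b generalizing a b
  · obtain ⟨s, hs, h⟩ := this hab.symm (fun h => hout ⟨h.2, h.1⟩) (by omega)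
    exact ⟨s, hs, by omega⟩
  have hb : b ∉ R := by
    intro hb
    have h0 := B.dep_root hb
    exact hout ⟨B.root_of_dep (by omega), hb⟩
  by_cases hp : p b = a
  · obtain ⟨s, hs, hT⟩ := hgood b hb
    have h1 := J_single.mp (B.InT_J hT)
    have h2 := B.dep_lip s a
    exact ⟨s, hs, by omega⟩
  · have hnt : NT G R p b a := ⟨hab.symm, fun h => hb h.1, hp, B.p_ne hle hab.ne⟩
    refine ⟨b, ⟨a, hnt⟩, ?_⟩
    simp; omega

theorem edge_core (B : BFS G R dep p)
    (hgood : ∀ v, v ∉ R → ∃ s ∈ WS G R p, InT R p {v} s) {a b c d : V} (hab : G.Adj a b)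
    (hcd : G.Adj c d) (h1 : dep a ≤ dep b) (h2 : dep c ≤ dep d) (h3 : dep b = dep d)
    (hb : b ∉ R) (hd : d ∉ R) (hne1 : ¬ (a = c ∧ b = d)) (hne2 : ¬ (a = d ∧ b = c)) :
    ∃ s ∈ WS G R p, min (G.dist s a) (G.dist s b) ≠ min (G.dist s c) (G.dist s d) := by
  have hpos : ∀ {x y : V}, x ≠ y → 0 < G.dist x y := fun h => B.conn.pos_dist_of_ne h
  have key : ∀ {a b c d : V}, G.Adj a b → G.Adj c d → dep a = dep b → b ∉ R →
      ¬ (a = c ∧ b = d) → ¬ (a = d ∧ b = c) →
      ∃ s ∈ WS G R p, min (G.dist s a) (G.dist s b) ≠ min (G.dist s c) (G.dist s d) := by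
    intro a b c d hab hcd heq hb hne1 hne2
    have hnt : NT G R p a b := ⟨hab, fun h => hb h.2, B.p_ne heq.le hab.ne,
      B.p_ne heq.ge hab.symm.ne⟩
    by_cases ha : a = c ∨ a = d
    · have hb' : b ≠ c ∧ b ≠ d := by
        rcases ha with rfl | rfl
        · exact ⟨hab.symm.ne, fun h => hne1 ⟨rfl, h⟩⟩
        · exact ⟨fun h => hne2 ⟨rfl, h⟩, hab.symm.ne⟩
      refine ⟨b, ⟨a, nt_symm hnt⟩, ?_⟩
      have e1 := hpos hb'.1
      have e2 := hpos hb'.2
      have e3 : G.dist b b = 0 := dist_self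
      omega
    · push Not at ha
      refine ⟨a, ⟨b, hnt⟩, ?_⟩
      have e1 := hpos ha.1
      have e2 := hpos ha.2
      have e3 : G.dist a a = 0 := dist_self
      omega
  rcases Nat.lt_or_ge (dep a) (dep b) with hlt | hge
  · rcases Nat.lt_or_ge (dep c) (dep d) with hlt' | hge'
    · have k1 := B.dep_adj hab.symm
      have k2 := B.dep_adj hcd.symm
      by_cases hbd : b = d
      · subst hbd
        have hac : a ≠ c := fun h => hne1 ⟨h, rfl⟩
        by_cases hp : p b = a
        · have hpc : p b ≠ c := fun h => hac (hp.symm.trans h)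
          have hnt : NT G R p b c := B.nt_of_up hcd.symm (by omega) (fun h => hpc h.symm)
          refine ⟨c, ⟨b, nt_symm hnt⟩, ?_⟩
          have e1 := hpos hac.symm
          have e2 := hpos hcd.ne
          have e3 : G.dist c c = 0 := dist_self
          omega
        · have hnt : NT G R p b a := B.nt_of_up hab.symm (by omega) (fun h => hp h.symm)
          refine ⟨a, ⟨b, nt_symm hnt⟩, ?_⟩
          have e1 := hpos hac
          have e2 := hpos hab.ne
          have e3 : G.dist a a = 0 := dist_self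
          omega
      · obtain ⟨s, hs, hJ⟩ := B.lemmaA (X := {b}) (Y := {d}) (n := dep b) (by simp)
          (by simp [h3]) (by simpa using hbd) (hgood b hb)
        rw [J_single, J_single] at hJ
        have e1 := B.dep_lip s a
        have e2 := B.dep_lip s b
        have e3 := B.dep_lip s c
        have e4 := B.dep_lip s d
        exact ⟨s, hs, by omega⟩
    · obtain ⟨s, hs, h⟩ := key hcd hab (by omega) hd (fun h => hne1 ⟨h.1.symm, h.2.symm⟩)
        (fun h => hne2 ⟨h.2.symm, h.1.symm⟩)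
      exact ⟨s, hs, h.symm⟩
  · exact key hab hcd (by omega) hb hne1 hne2

/-- edge pairs not both inside the root set are separated by `W`. -/
theorem resolve_edge (B : BFS G R dep p)
    (hgood : ∀ v, v ∉ R → ∃ s ∈ WS G R p, InT R p {v} s) {a b c d : V} (hab : G.Adj a b)
    (hcd : G.Adj c d) (hne1 : ¬ (a = c ∧ b = d)) (hne2 : ¬ (a = d ∧ b = c))
    (hout : ¬ ((a ∈ R ∧ b ∈ R) ∧ (c ∈ R ∧ d ∈ R))) :
    ∃ s ∈ WS G R p, min (G.dist s a) (G.dist s b) ≠ min (G.dist s c) (G.dist s d) := by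
  wlog hab' : dep a ≤ dep b generalizing a b
  · obtain ⟨s, hs, h⟩ := this hab.symm (fun h => hne2 ⟨h.2, h.1⟩) (fun h => hne1 ⟨h.2, h.1⟩)
      (fun h => hout ⟨⟨h.1.2, h.1.1⟩, h.2⟩) (by omega)
    exact ⟨s, hs, by rwa [min_comm (G.dist s a)]⟩
  wlog hcd' : dep c ≤ dep d generalizing c d
  · obtain ⟨s, hs, h⟩ := this hcd.symm hne2 hne1
      (fun h => hout ⟨h.1, ⟨h.2.2, h.2.1⟩⟩) (by omega)
    exact ⟨s, hs, by rwa [min_comm (G.dist s c)]⟩
  rcases Nat.lt_trichotomy (dep b) (dep d) with h | h | h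
  · have hd : ¬ (c ∈ R ∧ d ∈ R) := fun h' => by
      have := B.dep_root h'.2; omega
    obtain ⟨s, hs, h'⟩ := B.edge_hit hgood hcd hd
    have := B.edge_low s a b
    exact ⟨s, hs, by omega⟩
  · by_cases hb : b ∈ R
    · exfalso
      have h0 := B.dep_root hb
      exact hout ⟨⟨B.root_of_dep (by omega), hb⟩,
        ⟨B.root_of_dep (by omega), B.root_of_dep (by omega)⟩⟩
    · have hd : d ∉ R := fun h' => by
        have h0 := B.dep_root h'
        exact hb (B.root_of_dep (by omega))
      exact B.edge_core hgood hab hcd hab' hcd' h hb hd hne1 hne2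
  · have hb : ¬ (a ∈ R ∧ b ∈ R) := fun h' => by
      have := B.dep_root h'.2; omega
    obtain ⟨s, hs, h'⟩ := B.edge_hit hgood hab hb
    have := B.edge_low s c d
    exact ⟨s, hs, by omega⟩

/-- If all degrees are at least two, every non-root vertex has a member of `W` below it. -/
theorem exists_W_below [Fintype V] [DecidableRel G.Adj] (B : BFS G R dep p)
    (hdeg : ∀ v, 2 ≤ G.degree v) (v : V) (hv : v ∉ R) : ∃ s ∈ WS G R p, InT R p {v} s := by
  classical
  obtain ⟨l, hl, hmax⟩ := Set.exists_max_image {u | InT R p {v} u} dep (Set.toFinite _)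
    ⟨v, InT.base v rfl⟩
  have hlR : l ∉ R := fun h => by
    have h0 := B.dep_root h
    have h1 := B.InT_dep (X := {v}) (n := dep v) (by simp) hl
    have h2 := B.dep_pos hv
    omega
  have hcard : 1 < (G.neighborFinset l).card := by
    rw [card_neighborFinset_eq_degree]; exact hdeg l
  obtain ⟨u, hu, hne⟩ := Finset.exists_mem_ne hcard (p l)
  rw [mem_neighborFinset] at hu
  refine ⟨l, ⟨u, hu, fun h => hlR h.1, hne.symm, ?_⟩, hl⟩
  intro hpu
  have huR : u ∉ R := fun h => by
    rw [B.p_root u h] at hpu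
    exact hu.ne hpu.symm
  have h1 := hmax u (InT.step u huR (by rw [hpu]; exact hl))
  have h2 := (B.p_adj u huR).2
  rw [hpu] at h2
  omega

/-- Existence of BFS forests. -/
theorem _root_.Pool.Agent.Helper431.exists_BFS (hc : G.Connected) (hR : R.Nonempty) :
    ∃ (dep : V → ℕ) (p : V → V), BFS G R dep p := by
  classical
  have hex : ∀ v, ∃ n, ∃ r ∈ R, G.dist v r = n := fun v => by
    obtain ⟨r, hr⟩ := hR
    exact ⟨_, r, hr, rfl⟩
  let dep : V → ℕ := fun v => Nat.find (hex v)
  have h1 : ∀ v, ∀ r ∈ R, dep v ≤ G.dist v r := fun v r hr => Nat.find_min' (hex v) ⟨r, hr, rfl⟩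
  have h2 : ∀ v, ∃ r ∈ R, G.dist v r = dep v := fun v => Nat.find_spec (hex v)
  have h3 : ∀ v, v ∉ R → ∃ z, G.Adj v z ∧ dep z + 1 = dep v := by
    intro v hv
    obtain ⟨r, hr, h⟩ := h2 v
    have hne : v ≠ r := fun h' => hv (h' ▸ hr)
    obtain ⟨z, hz, hz'⟩ := exists_next hc hne
    obtain ⟨r', hr', h'⟩ := h2 z
    have e1 := h1 z r hr
    have e2 := h1 v r' hr'
    have e3 : G.dist v r' ≤ G.dist v z + G.dist z r' := hc.dist_triangle
    have e4 : G.dist v z = 1 := dist_eq_one_iff_adj.mpr hz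
    exact ⟨z, hz, by omega⟩
  choose! f hf using h3
  refine ⟨dep, fun v => if v ∈ R then v else f v, hc, h1, h2, ?_, ?_⟩
  · intro v hv
    simp only [if_neg hv]
    exact hf v hv
  · intro v hv
    simp [hv]

end BFS

end Pool.Agent.Helper431
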