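import Pool.Agent.Helper431.Forest

set_option autoImplicit false

namespace Pool.Agent.Helper431

open SimpleGraph

variable {V : Type*} {G : SimpleGraph V} {R : Set V} {dep : V → ℕ} {p : V → V}

/-- attachment vertices: root vertices with a neighbour outside the root set. -/
def Att (G : SimpleGraph V) (R : Set V) : Set V := {y | y ∈ R ∧ ∃ u, u ∉ R ∧ G.Adj y u}

/-- distance-like functions to targets inside the root set. -/
structure Tar (G : SimpleGraph V) (R : Set V) (p : V → V) (F : V → ℕ) : Prop where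
  tri : ∀ s y, F s ≤ G.dist s y + F y
  hit : ∀ s ∈ WS G R p, ∃ y ∈ Att G R, F s = G.dist s y + F y

namespace BFS

theorem hit_att (B : BFS G R dep p) {x : V} (hx : x ∈ R) :
    ∀ (n : ℕ) (s : V), G.dist s x = n → s ∉ R →
      ∃ y ∈ Att G R, G.dist s x = G.dist s y + G.dist y x := by
  intro n
  induction n with
  | zero =>
    intro s h hs
    have := (B.conn.dist_eq_zero_iff).mp h
    exact absurd (this ▸ hx) hs
  | succ n ih =>
    intro s h hs
    have hne : s ≠ x := fun h' => hs (h' ▸ hx)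
    obtain ⟨z, hz, hz'⟩ := exists_next B.conn hne
    by_cases hzR : z ∈ R
    · refine ⟨z, ⟨hzR, s, hs, hz.symm⟩, ?_⟩
      have : G.dist s z = 1 := dist_eq_one_iff_adj.mpr hz
      omega
    · obtain ⟨y, hy, hy'⟩ := ih z (by omega) hzR
      refine ⟨y, hy, ?_⟩
      have e1 : G.dist s z = 1 := dist_eq_one_iff_adj.mpr hz
      have e2 : G.dist s y ≤ G.dist s z + G.dist z y := B.conn.dist_triangle
      have e3 : G.dist s x ≤ G.dist s y + G.dist y x := B.conn.dist_triangle
      omega

theorem W_att (B : BFS G R dep p) {s : V} (hs : s ∈ WS G R p) (hR : s ∈ R) : s ∈ Att G R := by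
  obtain ⟨u, h1, h2, h3, h4⟩ := hs
  exact ⟨hR, u, fun h => h2 ⟨hR, h⟩, h1⟩

theorem tar_vertex (B : BFS G R dep p) {x : V} (hx : x ∈ R) :
    Tar G R p (fun s => G.dist s x) where
  tri s y := B.conn.dist_triangle
  hit s hs := by
    by_cases hR : s ∈ R
    · exact ⟨s, B.W_att hs hR, by simp⟩
    · exact B.hit_att hx _ s rfl hR

theorem tar_min (B : BFS G R dep p) {F F' : V → ℕ} (h : Tar G R p F) (h' : Tar G R p F') :
    Tar G R p (fun s => min (F s) (F' s)) where
  tri s y := by
    have h1 := h.tri s y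
    have h2 := h'.tri s y
    omega
  hit s hs := by
    rcases le_total (F s) (F' s) with hle | hle
    · obtain ⟨y, hy, hy'⟩ := h.hit s hs
      refine ⟨y, hy, ?_⟩
      have h1 := h.tri s y
      have h2 := h'.tri s y
      omega
    · obtain ⟨y, hy, hy'⟩ := h'.hit s hs
      refine ⟨y, hy, ?_⟩
      have h1 := h.tri s y
      have h2 := h'.tri s y
      omega

/-- If two targets are not separated by `W`, they have a common nearest attachment. -/
theorem common_att (B : BFS G R dep p)
    (hgoodR : ∀ v ∈ Att G R, ∃ s ∈ WS G R p, InT R p {v} s)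
    (hne : (Att G R).Nonempty) {F F' : V → ℕ} (hF : Tar G R p F) (hF' : Tar G R p F')
    (h : ∀ s ∈ WS G R p, F s = F' s) :
    ∃ y ∈ Att G R, F y = F' y ∧ ∀ y' ∈ Att G R, F y ≤ F y' ∧ F' y ≤ F' y' := by
  classical
  have hmin : ∀ F : V → ℕ, ∃ y ∈ Att G R, ∀ y' ∈ Att G R, F y ≤ F y' := by
    intro F
    have hex : ∃ n, ∃ y ∈ Att G R, F y = n := by
      obtain ⟨y, hy⟩ := hne
      exact ⟨_, y, hy, rfl⟩
    obtain ⟨y, hy, hy'⟩ := Nat.find_spec hex
    refine ⟨y, hy, fun y' hy'' => ?_⟩
    rw [hy']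
    exact Nat.find_min' hex ⟨y', hy'', rfl⟩
  have hdepA : ∀ y ∈ Att G R, dep y = 0 := fun y hy => B.dep_root hy.1
  have key : ∀ {F F' : V → ℕ}, Tar G R p F → Tar G R p F' → (∀ s ∈ WS G R p, F s = F' s) →
      ∀ y ∈ Att G R, ∃ y' ∈ Att G R, F' y' ≤ F y := by
    intro F F' hF hF' h y hy
    obtain ⟨s, hs, hT⟩ := hgoodR y hy
    have e1 := J_single.mp (B.InT_J hT)
    have e2 := hF.tri s y
    obtain ⟨y', hy', e3⟩ := hF'.hit s hs
    have e4 := h s hs
    have e5 := B.dep_lip s y'
    have e6 := hdepA y hy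
    have e7 := hdepA y' hy'
    exact ⟨y', hy', by omega⟩
  obtain ⟨y0, hy0, hm0⟩ := hmin F
  obtain ⟨y1, hy1, hm1⟩ := hmin F'
  have ht : F y0 = F' y1 := by
    obtain ⟨z, hz, hz'⟩ := key hF hF' h y0 hy0
    obtain ⟨z', hz1, hz1'⟩ := key hF' hF (fun s hs => (h s hs).symm) y1 hy1
    have := hm1 z hz
    have := hm0 z' hz1
    omega
  by_contra hcon
  push Not at hcon
  obtain ⟨s, hs, hJ⟩ := B.lemmaA (X := {y | y ∈ Att G R ∧ F y = F y0})
    (Y := {y | y ∈ Att G R ∧ F' y = F y0}) (n := 0) (fun x hx => hdepA x hx.1)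
    (fun x hx => hdepA x hx.1)
    (by
      rintro x ⟨hx1, hx2⟩ ⟨hx3, hx4⟩
      obtain ⟨y', hy', h'⟩ := hcon x hx1 (by omega)
      have g1 := hm0 y' hy'
      have g2 := hm1 y' hy'
      have := h' (by omega)
      omega)
    (by
      obtain ⟨s, hs, hT⟩ := hgoodR y0 hy0
      refine ⟨s, hs, InT_trans ?_ hT⟩
      rintro x rfl
      exact InT.base _ ⟨hy0, rfl⟩)
  apply hJ
  have hA : ∀ {F : V → ℕ} {y0 : V}, Tar G R p F → (∀ y' ∈ Att G R, F y0 ≤ F y') →
      (J G dep {y | y ∈ Att G R ∧ F y = F y0} s ↔ F s = dep s + F y0) := by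
    intro F y0 hF hm
    constructor
    · rintro ⟨y, ⟨hy1, hy2⟩, hy3⟩
      have e1 := hF.tri s y
      obtain ⟨z, hz, hz'⟩ := hF.hit s hs
      have e2 := hm z hz
      have e3 := B.dep_lip s z
      have e4 := hdepA z hz
      have e5 := hdepA y hy1
      omega
    · intro he
      obtain ⟨z, hz, hz'⟩ := hF.hit s hs
      have e2 := hm z hz
      have e3 := B.dep_lip s z
      have e4 := hdepA z hz
      exact ⟨z, ⟨hz, by omega⟩, by omega⟩
  have h1 := hA hF hm0
  have h2 := hA hF' hm1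
  rw [← ht] at h2
  rw [h1, h2, h s hs]

/-- the only upward edges below the minimal `W`-depth are parent edges. -/
theorem up_unique (B : BFS G R dep p) {s z : V} (hmin : ∀ w ∈ WS G R p, dep s ≤ dep w)
    (hz : G.Adj s z) (hd : dep z + 1 = dep s) : z = p s := by
  by_contra hne
  have hnt := B.nt_of_up hz hd hne
  have := hmin z ⟨s, nt_symm hnt⟩
  omega

theorem J_parent (B : BFS G R dep p) {s g : V} (hmin : ∀ w ∈ WS G R p, dep s ≤ dep w)
    (hg : g ∈ R) (hJ : G.dist s g = dep s) (hs : s ∉ R) : G.dist (p s) g = dep (p s) := by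
  have hne : s ≠ g := fun h => hs (h ▸ hg)
  obtain ⟨z, hz, hz'⟩ := exists_next B.conn hne
  have h0 := B.dep_root hg
  have h1 := B.dep_lip z g
  have h2 := B.dep_adj hz
  have h3 : z = p s := B.up_unique hmin hz (by omega)
  subst h3
  omega

/-- a vertex of depth at most the minimal `W`-depth has a unique gate. -/
theorem gate_unique (B : BFS G R dep p) :
    ∀ (n : ℕ) (s : V), dep s = n → (∀ w ∈ WS G R p, dep s ≤ dep w) →
    ∀ g ∈ R, ∀ g' ∈ R, G.dist s g = dep s → G.dist s g' = dep s → g = g' := by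
  intro n
  induction n with
  | zero =>
    intro s hn _ g hg g' hg' h1 h2
    have e1 := (B.conn.dist_eq_zero_iff).mp (h1.trans hn)
    have e2 := (B.conn.dist_eq_zero_iff).mp (h2.trans hn)
    exact e1.symm.trans e2
  | succ n ih =>
    intro s hn hmin g hg g' hg' h1 h2
    have hs : s ∉ R := fun h => by have := B.dep_root h; omega
    have e := (B.p_adj s hs).2
    exact ih (p s) (by omega) (fun w hw => by have := hmin w hw; omega) g hg g' hg'
      (B.J_parent hmin hg h1 hs) (B.J_parent hmin hg' h2 hs)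

theorem low_gate (B : BFS G R dep p) :
    ∀ (n : ℕ) (s : V), dep s = n → (∀ w ∈ WS G R p, dep s < dep w) →
    ∀ g ∈ R, G.dist s g = dep s → ∀ u ∈ R, G.dist s u = dep s + 1 → G.dist g u ≤ 1 := by
  intro n
  induction n with
  | zero =>
    intro s hn _ g hg h1 u hu h2
    have e1 := (B.conn.dist_eq_zero_iff).mp (h1.trans hn)
    subst e1
    omega
  | succ n ih =>
    intro s hn hmin g hg h1 u hu h2
    have hs : s ∉ R := fun h => by have := B.dep_root h; omega
    have e := (B.p_adj s hs).2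
    have hne : s ≠ u := fun h => hs (h ▸ hu)
    obtain ⟨z, hz, hz'⟩ := exists_next B.conn hne
    have k0 := B.dep_root hu
    have k1 := B.dep_lip z u
    have k2 := B.dep_adj hz
    have hmin' : ∀ w ∈ WS G R p, dep s ≤ dep w := fun w hw => (hmin w hw).le
    rcases Nat.lt_or_ge (dep z) (dep s) with hlt | hge
    · have h3 : z = p s := B.up_unique hmin' hz (by omega)
      subst h3
      exact ih (p s) (by omega) (fun w hw => by have := hmin w hw; omega) g hg
        (B.J_parent hmin' hg h1 hs) u hu (by omega)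
    · exfalso
      have heq : dep z = dep s := by omega
      have hnt : NT G R p s z := ⟨hz, fun h => hs h.1, B.p_ne heq.ge hz.ne,
        B.p_ne heq.le hz.symm.ne⟩
      have := hmin s ⟨z, hnt⟩
      omega

/-- A minimal-depth member of `W` reaching a far root vertex in `dep + 1` steps does so through a
horizontal non-forest edge. -/
theorem horizontal (B : BFS G R dep p) {s g u : V} (hsW : s ∈ WS G R p)
    (hmin : ∀ w ∈ WS G R p, dep s ≤ dep w) (hg : g ∈ R) (h1 : G.dist s g = dep s)
    (hu : u ∈ R) (h2 : G.dist s u = dep s + 1) (h3 : 2 ≤ G.dist g u) :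
    ∃ z, NT G R p s z ∧ dep z = dep s ∧ G.dist z u = dep s := by
  have hs : s ∉ R := by
    intro hs
    have h0 := B.dep_root hs
    have := (B.conn.dist_eq_zero_iff).mp (h1.trans h0)
    subst this
    omega
  have hne : s ≠ u := fun h => hs (h ▸ hu)
  obtain ⟨z, hz, hz'⟩ := exists_next B.conn hne
  have k0 := B.dep_root hu
  have k1 := B.dep_lip z u
  have k2 := B.dep_adj hz
  rcases Nat.lt_or_ge (dep z) (dep s) with hlt | hge
  · exfalso
    have e : z = p s := B.up_unique hmin hz (by omega)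
    subst e
    have := B.low_gate (dep (p s)) (p s) rfl (fun w hw => by have := hmin w hw; omega) g hg
      (B.J_parent hmin hg h1 hs) u hu (by omega)
    omega
  · have heq : dep z = dep s := by omega
    exact ⟨z, ⟨hz, fun h => hs h.1, B.p_ne heq.ge hz.ne, B.p_ne heq.le hz.symm.ne⟩, heq,
      by omega⟩

/-- every attachment has a member of `W` below it. -/
theorem att_good (B : BFS G R dep p)
    (hgood : ∀ v, v ∉ R → ∃ s ∈ WS G R p, InT R p {v} s) :
    ∀ v ∈ Att G R, ∃ s ∈ WS G R p, InT R p {v} s := by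
  rintro v ⟨hv, u, hu, hvu⟩
  by_cases hp : p u = v
  · obtain ⟨s, hs, hT⟩ := hgood u hu
    refine ⟨s, hs, InT_trans ?_ hT⟩
    rintro x rfl
    exact InT.step _ hu (by rw [hp]; exact InT.base _ rfl)
  · refine ⟨v, ⟨u, hvu, fun h => hu h.2, ?_, hp⟩, InT.base _ rfl⟩
    rw [B.p_root v hv]
    exact hvu.ne

end BFS

end Pool.Agent.Helper431
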