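import Pool.Agent.Helper431.Core5

set_option autoImplicit false

namespace Pool.Agent.Helper431

open SimpleGraph

variable {V : Type*} {G : SimpleGraph V}

/-- `G` is obtained from the subgraph induced on `K` by hanging trees on it. -/
structure Hang (G : SimpleGraph V) (K : Set V) (p : V → V) (h : V → ℕ) (κ : V → V) : Prop where
  root : ∀ v ∈ K, p v = v ∧ h v = 0 ∧ κ v = v
  step : ∀ v, v ∉ K → G.Adj v (p v) ∧ h v = h (p v) + 1 ∧ κ v = κ (p v)
  edge : ∀ u v, G.Adj u v → (u ∈ K ∧ v ∈ K) ∨ (u ∉ K ∧ p u = v) ∨ (v ∉ K ∧ p v = u)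

/-- 1-Lipschitz functions. -/
theorem lip_dist (hc : G.Connected) (F : V → ℤ) (hF : ∀ u v, G.Adj u v → F u ≤ F v + 1)
    (x y : V) : F x ≤ F y + G.dist x y := by
  obtain ⟨w, hw⟩ := hc.exists_walk_length_eq_dist x y
  have key : ∀ (x y : V) (w : G.Walk x y), F x ≤ F y + w.length := by
    intro x y w
    induction w with
    | nil => simp
    | cons h q ih =>
      have := hF _ _ h
      rw [Walk.length_cons]
      push_cast
      omega
  rw [← hw]
  exact key x y w

namespace Hang

variable {K : Set V} {p : V → V} {h : V → ℕ} {κ : V → V}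

theorem mem_of_h (A : Hang G K p h κ) {v : V} (hv : h v = 0) : v ∈ K := by
  by_contra hv'
  have := (A.step v hv').2.1
  omega

theorem κ_mem (A : Hang G K p h κ) (v : V) : κ v ∈ K := by
  have key : ∀ (n : ℕ) (v : V), h v = n → κ v ∈ K := by
    intro n
    induction n with
    | zero =>
      intro v hv
      have := A.mem_of_h hv
      rwa [(A.root v this).2.2]
    | succ n ih =>
      intro v hv
      have hvK : v ∉ K := fun h' => by have := (A.root v h').2.1; omega
      obtain ⟨-, h1, h2⟩ := A.step v hvK
      rw [h2]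
      exact ih _ (by omega)
  exact key _ v rfl

theorem reach (A : Hang G K p h κ) {x y : V} (w : G.Walk x y) :
    (G.induce K).Reachable ⟨κ x, A.κ_mem x⟩ ⟨κ y, A.κ_mem y⟩ := by
  induction w with
  | nil => exact Reachable.refl _
  | cons hadj q ih =>
    rename_i x y z
    rcases A.edge _ _ hadj with ⟨h1, h2⟩ | ⟨h1, h2⟩ | ⟨h1, h2⟩
    · refine Reachable.trans (Adj.reachable ?_) ih
      rw [comap_adj]
      simp only [Function.Embedding.subtype_apply]
      rw [(A.root x h1).2.2, (A.root y h2).2.2]
      exact hadj
    · have : κ x = κ y := by rw [(A.step x h1).2.2, h2]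
      simp only [this]
      exact ih
    · have : κ x = κ y := by rw [(A.step y h1).2.2, h2]
      simp only [this]
      exact ih

theorem conn (A : Hang G K p h κ) (hc : G.Connected) : (G.induce K).Connected := by
  obtain ⟨v⟩ := hc.nonempty
  refine (connected_iff _).mpr ⟨?_, ?_⟩
  · rintro ⟨x, hx⟩ ⟨y, hy⟩
    obtain ⟨w⟩ := hc.preconnected x y
    have := A.reach w
    simp only [(A.root x hx).2.2, (A.root y hy).2.2] at this
    exact this
  · exact ⟨⟨κ v, A.κ_mem v⟩⟩

theorem dist_κ (A : Hang G K p h κ) (hc : G.Connected) (v : V) : G.dist (κ v) v ≤ h v := by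
  have key : ∀ (n : ℕ) (v : V), h v = n → G.dist (κ v) v ≤ h v := by
    intro n
    induction n with
    | zero =>
      intro v hv
      have := A.mem_of_h hv
      rw [(A.root v this).2.2]
      simp
    | succ n ih =>
      intro v hv
      have hvK : v ∉ K := fun h' => by have := (A.root v h').2.1; omega
      obtain ⟨h0, h1, h2⟩ := A.step v hvK
      rw [h2]
      have e1 := ih (p v) (by omega)
      have e2 : G.dist (κ (p v)) v ≤ G.dist (κ (p v)) (p v) + G.dist (p v) v := hc.dist_triangle
      have e3 : G.dist (p v) v = 1 := dist_eq_one_iff_adj.mpr h0.symm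
      omega
  exact key _ v rfl

theorem dist_eq (A : Hang G K p h κ) (hc : G.Connected) (s : K) (x : V) :
    G.dist s x = (G.induce K).dist s ⟨κ x, A.κ_mem x⟩ + h x := by
  have hcH := A.conn hc
  apply le_antisymm
  · have e1 : G.dist s x ≤ G.dist s (κ x) + G.dist (κ x) x := hc.dist_triangle
    have e2 := A.dist_κ hc x
    obtain ⟨w, hw⟩ := hcH.exists_walk_length_eq_dist s ⟨κ x, A.κ_mem x⟩
    have e3 : G.dist s (κ x) ≤ (w.map (Embedding.induce K).toHom).length := dist_le _
    rw [Walk.length_map] at e3
    omega
  · have := lip_dist hc (fun v => ((G.induce K).dist s ⟨κ v, A.κ_mem v⟩ + h v : ℤ)) ?_ x s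
    · have h0 := A.root s s.2
      have e1 : (⟨κ (s : V), A.κ_mem s⟩ : K) = s := Subtype.ext h0.2.2
      simp only [e1, h0.2.1, dist_self] at this
      rw [dist_comm (u := x)] at this
      push_cast at this
      omega
    · intro u v huv
      have hadj := A.edge _ _ huv
      rcases hadj with ⟨h1, h2⟩ | ⟨h1, h2⟩ | ⟨h1, h2⟩
      · have a1 := A.root u h1
        have a2 := A.root v h2
        have e1 : (⟨κ u, A.κ_mem u⟩ : K) = ⟨u, h1⟩ := Subtype.ext a1.2.2
        have e2 : (⟨κ v, A.κ_mem v⟩ : K) = ⟨v, h2⟩ := Subtype.ext a2.2.2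
        simp only [e1, e2, a1.2.1, a2.2.1]
        have e3 : (G.induce K).Adj ⟨v, h2⟩ ⟨u, h1⟩ := by
          rw [comap_adj]; exact huv.symm
        have e4 := dist_eq_one_iff_adj.mpr e3
        have e5 : (G.induce K).dist s ⟨u, h1⟩ ≤ (G.induce K).dist s ⟨v, h2⟩ +
          (G.induce K).dist ⟨v, h2⟩ ⟨u, h1⟩ := hcH.dist_triangle
        push_cast
        omega
      · have a1 := A.step u h1
        rw [h2] at a1
        have e1 : (⟨κ u, A.κ_mem u⟩ : K) = ⟨κ v, A.κ_mem v⟩ := Subtype.ext a1.2.2
        simp only [e1, a1.2.1]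
        push_cast
        omega
      · have a1 := A.step v h1
        rw [h2] at a1
        have e1 : (⟨κ v, A.κ_mem v⟩ : K) = ⟨κ u, A.κ_mem u⟩ := Subtype.ext a1.2.2
        simp only [e1, a1.2.1]
        push_cast
        omega

/-- Removing a leaf of the core. -/
theorem remove [DecidableEq V] (A : Hang G K p h κ) {v u : V} (hv : v ∈ K) (hu : u ∈ K)
    (huv : G.Adj v u) (huni : ∀ z ∈ K, G.Adj v z → z = u) :
    ∃ p' h' κ', Hang G (K \ {v}) p' h' κ' := by
  refine ⟨Function.update p v u, fun x => if κ x = v then h x + 1 else h x,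
    fun x => if κ x = v then u else κ x, ?_, ?_, ?_⟩
  · rintro x ⟨hx, hxv⟩
    rw [Set.mem_singleton_iff] at hxv
    obtain ⟨h1, h2, h3⟩ := A.root x hx
    rw [Function.update_of_ne hxv]
    simp [h1, h2, h3, hxv]
  · intro x hx
    have hx' : x ∉ K ∨ x = v := by
      by_cases h' : x ∈ K
      · right
        by_contra hne
        exact hx ⟨h', hne⟩
      · exact Or.inl h'
    have hune : u ≠ v := huv.ne.symm
    by_cases hxv : x = v
    · subst hxv
      obtain ⟨h1, h2, h3⟩ := A.root x hv
      obtain ⟨g1, g2, g3⟩ := A.root u hu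
      simp [h2, h3, g2, g3, hune, huv]
    · have hxK : x ∉ K := by
        rcases hx' with h' | h'
        · exact h'
        · exact absurd h' hxv
      obtain ⟨h1, h2, h3⟩ := A.step x hxK
      rw [Function.update_of_ne hxv]
      refine ⟨h1, ?_, ?_⟩
      · simp only [h3, h2]
        split_ifs <;> rfl
      · simp only [h3]
  · intro a b hab
    rcases A.edge a b hab with ⟨h1, h2⟩ | ⟨h1, h2⟩ | ⟨h1, h2⟩
    · by_cases ha : a = v
      · subst ha
        right; left
        refine ⟨by simp, ?_⟩
        simp [huni b h2 hab]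
      · by_cases hb : b = v
        · subst hb
          right; right
          refine ⟨by simp, ?_⟩
          simp [huni a h1 hab.symm]
        · left
          exact ⟨⟨h1, ha⟩, ⟨h2, hb⟩⟩
    · right; left
      have hav : a ≠ v := by rintro rfl; exact h1 hv
      refine ⟨fun h' => h1 h'.1, ?_⟩
      rw [Function.update_of_ne hav, h2]
    · right; right
      have hbv : b ≠ v := by rintro rfl; exact h1 hv
      refine ⟨fun h' => h1 h'.1, ?_⟩
      rw [Function.update_of_ne hbv, h2]

theorem p_inj (A : Hang G K p h κ) {v w : V} (hv : v ∉ K) (hw : w ∉ K)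
    (he : s(v, p v) = s(w, p w)) : v = w := by
  have hv' := A.step v hv
  have hw' := A.step w hw
  simp only [Sym2.eq_iff] at he
  rcases he with h | ⟨h1, h2⟩
  · exact h.1
  · rw [← h1] at hw'
    rw [h2] at hv'
    omega

end Hang

/-- Counting edges. -/
theorem Hang.card_edges [Fintype V] [DecidableEq V] [DecidableRel G.Adj] {K : Finset V}
    {p : V → V} {h : V → ℕ} {κ : V → V} (A : Hang G (K : Set V) p h κ)
    [DecidableRel (G.induce (K : Set V)).Adj] :
    (G.induce (K : Set V)).edgeFinset.card + Fintype.card V = G.edgeFinset.card + K.card := by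
  classical
  let E1 := (G.induce (K : Set V)).edgeFinset.image (Sym2.map Subtype.val)
  let E2 := (Finset.univ \ K).image (fun v => s(v, p v))
  have c1 : E1.card = (G.induce (K : Set V)).edgeFinset.card :=
    Finset.card_image_of_injective _ (Sym2.map.injective Subtype.val_injective)
  have c2 : E2.card = Fintype.card V - K.card := by
    rw [Finset.card_image_of_injOn, Finset.card_univ_sdiff]
    intro v hv w hw he
    refine A.p_inj (by simpa using hv) (by simpa using hw) he
  have hd : Disjoint E1 E2 := by
    rw [Finset.disjoint_left]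
    intro e he he'
    simp only [E1, Finset.mem_image] at he
    obtain ⟨e0, -, rfl⟩ := he
    simp only [E2, Finset.mem_image, Finset.mem_sdiff, Finset.mem_univ, true_and] at he'
    obtain ⟨v, hv, hv'⟩ := he'
    have : v ∈ Sym2.map Subtype.val e0 := by rw [← hv']; simp
    rw [Sym2.mem_map] at this
    obtain ⟨a, -, rfl⟩ := this
    exact hv a.2
  have hu : E1 ∪ E2 = G.edgeFinset := by
    ext e
    induction e with
    | _ a b =>
      rw [Finset.mem_union, mem_edgeFinset, mem_edgeSet]
      constructor
      · rintro (he | he)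
        · simp only [E1, Finset.mem_image] at he
          obtain ⟨e0, he0, he⟩ := he
          induction e0 with
          | _ x y =>
            rw [mem_edgeFinset, mem_edgeSet, comap_adj] at he0
            rw [Sym2.map_mk] at he
            rw [Sym2.eq_iff] at he
            rcases he with ⟨rfl, rfl⟩ | ⟨rfl, rfl⟩
            · exact he0
            · exact he0.symm
        · simp only [E2, Finset.mem_image, Finset.mem_sdiff, Finset.mem_univ, true_and] at he
          obtain ⟨v, hv, hv'⟩ := he
          have := (A.step v (by simpa using hv)).1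
          rw [Sym2.eq_iff] at hv'
          rcases hv' with ⟨rfl, rfl⟩ | ⟨rfl, rfl⟩
          · exact this
          · exact this.symm
      · intro hab
        rcases A.edge a b hab with ⟨h1, h2⟩ | ⟨h1, h2⟩ | ⟨h1, h2⟩
        · left
          simp only [E1, Finset.mem_image]
          refine ⟨s(⟨a, h1⟩, ⟨b, h2⟩), ?_, rfl⟩
          rw [mem_edgeFinset, mem_edgeSet, comap_adj]
          exact hab
        · right
          simp only [E2, Finset.mem_image, Finset.mem_sdiff, Finset.mem_univ, true_and]
          exact ⟨a, by simpa using h1, by rw [h2]⟩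
        · right
          simp only [E2, Finset.mem_image, Finset.mem_sdiff, Finset.mem_univ, true_and]
          exact ⟨b, by simpa using h1, by rw [h2]; exact Sym2.eq_swap⟩
  have h1 := Finset.card_union_of_disjoint hd
  rw [hu, c1, c2] at h1
  have h2 : K.card ≤ Fintype.card V := Finset.card_le_univ K
  omega

/-- Existence of the 2-core. -/
theorem exists_core [Fintype V] [DecidableEq V] [DecidableRel G.Adj] (hc : G.Connected)
    (hE : Fintype.card V ≤ G.edgeFinset.card) :
    ∃ (K : Finset V) (p : V → V) (h : V → ℕ) (κ : V → V), Hang G (K : Set V) p h κ ∧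
      ∀ v ∈ K, ∃ u1 ∈ K, ∃ u2 ∈ K, u1 ≠ u2 ∧ G.Adj v u1 ∧ G.Adj v u2 := by
  classical
  have hex : ∃ n, ∃ K : Finset V, K.card = n ∧ ∃ p h κ, Hang G (K : Set V) p h κ := by
    refine ⟨_, Finset.univ, rfl, id, fun _ => 0, id, ?_, ?_, ?_⟩
    · intro v _; simp
    · intro v hv; simp at hv
    · intro u v _; simp
  obtain ⟨K, hK, p, h, κ, A⟩ := Nat.find_spec hex
  refine ⟨K, p, h, κ, A, ?_⟩
  intro v hv
  by_contra hcon
  push Not at hcon
  have hcount := A.card_edges
  by_cases hnb : ∃ u ∈ K, G.Adj v u
  · obtain ⟨u, hu, huv⟩ := hnb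
    obtain ⟨p', h', κ', A'⟩ := A.remove (v := v) (u := u) hv hu huv (by
      intro z hz hvz
      by_contra hne
      exact hcon u hu z hz (fun h => hne h.symm) huv hvz)
    have hmin := Nat.find_min' hex ⟨K.erase v, rfl, p', h', κ', by
      rwa [Finset.coe_erase]⟩
    rw [← hK, Finset.card_erase_of_mem hv] at hmin
    have := Finset.card_pos.mpr ⟨v, hv⟩
    omega
  · push Not at hnb
    have hcH := A.conn hc
    have hK1 : K = {v} := by
      ext w
      rw [Finset.mem_singleton]
      constructor
      · intro hw
        obtain ⟨q⟩ := hcH.preconnected ⟨v, hv⟩ ⟨w, hw⟩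
        cases q with
        | nil => rfl
        | cons hadj q =>
          rename_i z
          rw [comap_adj] at hadj
          exact absurd hadj (hnb z z.2)
      · rintro rfl; exact hv
    have hE0 : (G.induce (K : Set V)).edgeFinset = ∅ := by
      ext e
      induction e with
      | _ x y =>
        rw [mem_edgeFinset, mem_edgeSet]
        simp only [Finset.notMem_empty, iff_false]
        intro hadj
        have hx : (x : V) = v :=
          Finset.mem_singleton.mp ((Finset.ext_iff.mp hK1 x).mp x.2)
        rw [comap_adj] at hadj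
        simp only [Function.Embedding.subtype_apply] at hadj
        rw [hx] at hadj
        exact hnb y y.2 hadj
    rw [hE0, hK1] at hcount
    simp only [Finset.card_empty, Finset.card_singleton] at hcount
    omega

end Pool.Agent.Helper431
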