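import Pool.Agent.Helper431.Hang

set_option autoImplicit false

namespace Pool.Agent.Helper431

open SimpleGraph

variable {V : Type*} {G : SimpleGraph V}

/-- The end vertices of the legs at `v`. -/
def Leaf [Fintype V] (G : SimpleGraph V) [DecidableRel G.Adj] (v : V) : Set V :=
  {u : V | G.degree u = 1 ∧ ∃ p : G.Walk v u, p.IsPath ∧
    ∀ w ∈ p.support, w ≠ v → w ≠ u → G.degree w = 2}

open Classical in
/-- a chosen leg end -/
noncomputable def chL [Fintype V] (G : SimpleGraph V) [DecidableRel G.Adj] (v : V) : V :=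
  if h : (Leaf G v).Nonempty then h.some else v

open Classical in
/-- A branch-resolving set. -/
noncomputable def BS [Fintype V] (G : SimpleGraph V) [DecidableRel G.Adj] : Finset V :=
  (Finset.univ.filter (fun v => 3 ≤ G.degree v)).biUnion
    (fun v => (Finset.univ.filter (fun u => u ∈ Leaf G v)).erase (chL G v))

theorem card_BS [Fintype V] [DecidableRel G.Adj] :
    (BS G).card ≤ ∑ v ∈ Finset.univ.filter (fun v => 3 ≤ G.degree v), ((Leaf G v).ncard - 1) := by
  classical
  unfold BS
  refine Finset.card_biUnion_le.trans (Finset.sum_le_sum ?_)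
  intro v _
  have h1 : (Leaf G v).ncard = (Finset.univ.filter (fun u => u ∈ Leaf G v)).card := by
    rw [← Set.ncard_coe_finset]
    congr 1
    ext u
    simp
  rw [h1]
  by_cases h : (Leaf G v).Nonempty
  · have h2 : chL G v ∈ Leaf G v := by
      unfold chL
      rw [dif_pos h]
      exact h.some_mem
    rw [Finset.card_erase_of_mem (by simpa using h2)]
  · rw [Set.not_nonempty_iff_eq_empty] at h
    have : (Finset.univ.filter (fun u => u ∈ Leaf G v)) = ∅ := by
      rw [h]; simp
    rw [this]
    simp

theorem mem_BS [Fintype V] [DecidableRel G.Adj] {v l1 l2 : V} (hv : 3 ≤ G.degree v)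
    (h1 : l1 ∈ Leaf G v) (h2 : l2 ∈ Leaf G v) (hne : l1 ≠ l2) : l1 ∈ BS G ∨ l2 ∈ BS G := by
  classical
  unfold BS
  simp only [Finset.mem_biUnion, Finset.mem_filter, Finset.mem_univ, true_and, Finset.mem_erase]
  by_cases h : l1 = chL G v
  · right
    exact ⟨v, hv, fun h' => hne (h.trans h'.symm), h2⟩
  · left
    exact ⟨v, hv, h, h1⟩

namespace Hang

variable {K : Set V} {p : V → V} {h : V → ℕ} {κ : V → V}

theorem toBFS (A : Hang G K p h κ) (hc : G.Connected) : BFS G K h p where
  conn := hc
  dep_le v r hr := by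
    have := A.dist_eq hc ⟨r, hr⟩ v
    simp only at this
    rw [dist_comm]
    omega
  dep_att v := by
    refine ⟨κ v, A.κ_mem v, ?_⟩
    have := A.dist_eq hc ⟨κ v, A.κ_mem v⟩ v
    simp only [dist_self] at this
    rw [dist_comm]
    omega
  p_adj v hv := by
    obtain ⟨h1, h2, -⟩ := A.step v hv
    exact ⟨h1, h2.symm⟩
  p_root v hv := (A.root v hv).1

theorem T_h (A : Hang G K p h κ) {x t : V} (ht : InT K p {x} t) : h x ≤ h t := by
  induction ht with
  | base z hz => rw [Set.mem_singleton_iff.mp hz]
  | step s hs _ ih => have := (A.step s hs).2.1; omega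

theorem T_notK (A : Hang G K p h κ) {x t : V} (hx : x ∉ K) (ht : InT K p {x} t) : t ∉ K := by
  cases ht with
  | base z hz => rwa [Set.mem_singleton_iff.mp hz]
  | step s hs _ => exact hs

theorem T_anc (A : Hang G K p h κ) {x y t : V} (hd : h x = h y) (hx : InT K p {x} t)
    (hy : InT K p {y} t) : x = y := by
  induction hx with
  | base z hz =>
    rw [Set.mem_singleton_iff] at hz
    subst hz
    cases hy with
    | base z' hz' => exact Set.mem_singleton_iff.mp hz'
    | step s hs h' =>
      have h1 := A.T_h h'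
      have h2 := (A.step _ hs).2.1
      omega
  | step s hs h' ih =>
    cases hy with
    | base z' hz' =>
      rw [Set.mem_singleton_iff] at hz'
      subst hz'
      have h1 := A.T_h h'
      have h2 := (A.step _ hs).2.1
      omega
    | step s' hs' h'' => exact ih h''

/-- Distances across the root of a hanging subtree. -/
theorem cut (A : Hang G K p h κ) (hc : G.Connected) {x s y : V} (hx : x ∉ K)
    (hs : InT K p {x} s) (hy : ¬ InT K p {x} y) :
    h s + G.dist (p x) y ≤ h (p x) + G.dist s y := by
  classical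
  have B := A.toBFS hc
  have hxs := A.step x hx
  have := lip_dist hc (fun v => if InT K p {x} v then (h v - h (p x) : ℤ) else
    -(G.dist (p x) v : ℤ)) ?_ s y
  · simp only [if_pos hs, if_neg hy] at this
    omega
  · intro u v huv
    by_cases hu : InT K p {x} u
    · by_cases hv : InT K p {x} v
      · simp only [if_pos hu, if_pos hv]
        have := B.dep_adj huv
        omega
      · simp only [if_pos hu, if_neg hv]
        have huK := A.T_notK hx hu
        rcases A.edge u v huv with ⟨h1, h2⟩ | ⟨h1, h2⟩ | ⟨h1, h2⟩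
        · exact absurd h1 huK
        · by_cases hux : u = x
          · subst hux
            rw [← h2, dist_self]
            have := hxs.2.1
            push_cast
            omega
          · exfalso
            apply hv
            rw [← h2]
            exact (B.InT_parent hu (by simpa using hux)).1
        · exact absurd (InT.step v h1 (by rw [h2]; exact hu)) hv
    · by_cases hv : InT K p {x} v
      · simp only [if_neg hu, if_pos hv]
        have := A.T_h hv
        omega
      · simp only [if_neg hu, if_neg hv]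
        have e1 : G.dist (p x) v ≤ G.dist (p x) u + G.dist u v := hc.dist_triangle
        have e2 : G.dist u v = 1 := dist_eq_one_iff_adj.mpr huv
        omega

/-- Children of the last common vertex. -/
theorem lca (A : Hang G K p h κ) : ∀ (n : ℕ) (x y : V), h x = n → h y = n → κ x = κ y → x ≠ y →
    ∃ x' y', x' ∉ K ∧ y' ∉ K ∧ p x' = p y' ∧ x' ≠ y' ∧ InT K p {x'} x ∧ InT K p {y'} y := by
  intro n
  induction n with
  | zero =>
    intro x y hx hy hκ hne
    have h1 := (A.root x (A.mem_of_h hx)).2.2
    have h2 := (A.root y (A.mem_of_h hy)).2.2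
    exact absurd (h1.symm.trans (hκ.trans h2)) hne
  | succ n ih =>
    intro x y hx hy hκ hne
    have hxK : x ∉ K := fun h' => by have := (A.root x h').2.1; omega
    have hyK : y ∉ K := fun h' => by have := (A.root y h').2.1; omega
    have h1 := A.step x hxK
    have h2 := A.step y hyK
    by_cases hp : p x = p y
    · exact ⟨x, y, hxK, hyK, hp, hne, InT.base _ rfl, InT.base _ rfl⟩
    · obtain ⟨x', y', g1, g2, g3, g4, g5, g6⟩ := ih (p x) (p y) (by omega) (by omega)
        (by rw [← h1.2.2, ← h2.2.2, hκ]) hp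
      exact ⟨x', y', g1, g2, g3, g4, InT.step _ hxK g5, InT.step _ hyK g6⟩

/-- Separation by a vertex below one of the two children. -/
theorem sep_core (A : Hang G K p h κ) (hc : G.Connected) {x y x' y' s : V} (hx' : x' ∉ K)
    (hy' : y' ∉ K) (hp : p x' = p y') (hne : x' ≠ y') (hx : InT K p {x'} x)
    (hy : InT K p {y'} y) (hs : InT K p {x'} s) (hd : h x = h y) :
    G.dist s x < G.dist s y ∧ G.dist s x < G.dist s (p y) := by
  have B := A.toBFS hc
  have a1 := A.step x' hx'
  have a2 := A.step y' hy'
  have hyK : y ∉ K := A.T_notK hy' hy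
  have a3 := A.step y hyK
  have hh : h x' = h y' := by
    have := congrArg h hp
    omega
  have hyT : ¬ InT K p {x'} y := fun h' => hne (A.T_anc hh h' hy)
  have hpyT : ¬ InT K p {x'} (p y) := by
    intro h'
    exact hyT (InT.step y hyK h')
  have c1 := A.cut hc hx' hs hyT
  have c2 := A.cut hc hx' hs hpyT
  have j1 := BFS.J_single.mp (B.InT_J hs)
  have j2 := BFS.J_single.mp (B.InT_J hx)
  have t1 : G.dist s x ≤ G.dist s x' + G.dist x' x := hc.dist_triangle
  have l1 := B.dep_lip y (p x')
  have l2 := B.dep_lip (p y) (p x')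
  rw [dist_comm] at l1 l2
  rw [dist_comm] at j2
  omega

/-- Below every hanging vertex there is a vertex of `BS` or a pendant path. -/
theorem exists_leaf [Fintype V] [DecidableRel G.Adj] (A : Hang G K p h κ) (hc : G.Connected) :
    ∀ (n : ℕ) (N : ℕ) (x : V), (∀ v, h v ≤ N) → N - h x = n → x ∉ K →
      (∃ s ∈ BS G, InT K p {x} s) ∨
      (∃ l, InT K p {x} l ∧ G.degree l = 1 ∧ ∃ w : G.Walk x l, w.IsPath ∧
        (∀ t ∈ w.support, InT K p {x} t) ∧ ∀ t ∈ w.support, t ≠ l → G.degree t = 2) := by
  classical
  intro n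
  induction n using Nat.strong_induction_on with
  | _ n ih =>
  intro N x hN hn hx
  have hxs := A.step x hx
  have hchild : ∀ u, G.Adj x u → u ≠ p x → u ∉ K ∧ p u = x := by
    intro u hu hne
    rcases A.edge x u hu with ⟨h1, h2⟩ | ⟨h1, h2⟩ | ⟨h1, h2⟩
    · exact absurd h1 hx
    · exact absurd h2.symm hne
    · exact ⟨h1, h2⟩
  have hih : ∀ u, G.Adj x u → u ≠ p x → (∃ s ∈ BS G, InT K p {x} s) ∨
      (∃ l, InT K p {u} l ∧ G.degree l = 1 ∧ ∃ w : G.Walk x l, w.IsPath ∧
        (∀ t ∈ w.support, InT K p {x} t) ∧ ∀ t ∈ w.support, t ≠ x → t ≠ l → G.degree t = 2) := by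
    intro u hu hne
    obtain ⟨huK, hpu⟩ := hchild u hu hne
    have hus := A.step u huK
    have hxu : InT K p {x} u := InT.step u huK (by rw [hpu]; exact InT.base _ rfl)
    have htr : ∀ t, InT K p {u} t → InT K p {x} t := fun t ht =>
      BFS.InT_trans (by rintro z hz; rw [Set.mem_singleton_iff] at hz; subst hz; exact hxu) ht
    have hNu := hN u
    rw [hpu] at hus
    rcases ih (N - h u) (by omega) N u hN rfl huK with ⟨s, hs, hsT⟩ | ⟨l, hl, hl1, w, hw, hwT, hw2⟩
    · exact Or.inl ⟨s, hs, htr s hsT⟩
    · right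
      refine ⟨l, hl, hl1, Walk.cons hu w, ?_, ?_, ?_⟩
      · rw [Walk.cons_isPath_iff]
        refine ⟨hw, fun h' => ?_⟩
        have := A.T_h (hwT x h')
        omega
      · intro t ht
        rw [Walk.support_cons, List.mem_cons] at ht
        rcases ht with rfl | ht
        · exact InT.base _ rfl
        · exact htr t (hwT t ht)
      · intro t ht htx htl
        rw [Walk.support_cons, List.mem_cons] at ht
        rcases ht with rfl | ht
        · exact absurd rfl htx
        · exact hw2 t ht htl
  have hpos : 0 < G.degree x := by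
    rw [← card_neighborFinset_eq_degree]
    exact Finset.card_pos.mpr ⟨p x, by rw [mem_neighborFinset]; exact hxs.1⟩
  rcases Nat.lt_or_ge (G.degree x) 2 with h2 | h2
  · right
    refine ⟨x, InT.base _ rfl, by omega, Walk.nil, Walk.IsPath.nil, ?_, ?_⟩
    · intro t ht
      rw [Walk.support_nil, List.mem_singleton] at ht
      subst ht
      exact InT.base _ rfl
    · intro t ht hne
      rw [Walk.support_nil, List.mem_singleton] at ht
      exact absurd ht hne
  · have hcard : 1 < (G.neighborFinset x).card := by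
      rw [card_neighborFinset_eq_degree]; omega
    obtain ⟨u, hu, hne⟩ := Finset.exists_mem_ne hcard (p x)
    rw [mem_neighborFinset] at hu
    rcases hih u hu hne with h' | ⟨l, hl, hl1, w, hw, hwT, hw2⟩
    · exact Or.inl h'
    · rcases Nat.lt_or_ge (G.degree x) 3 with h3 | h3
      · right
        refine ⟨l, hwT l w.end_mem_support, hl1, w, hw, hwT, ?_⟩
        intro t ht htl
        by_cases htx : t = x
        · subst htx; omega
        · exact hw2 t ht htx htl
      · obtain ⟨u', hu', hne', hne''⟩ := BFS.third_nbr (G := G) (x := p x) (y := u) h3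
        rcases hih u' hu' hne' with h' | ⟨l', hl', hl1', w', hw', hwT', hw2'⟩
        · exact Or.inl h'
        · left
          have hll : l ≠ l' := by
            rintro rfl
            have g1 := hchild u hu hne
            have g2 := hchild u' hu' hne'
            have g3 := A.step u g1.1
            have g4 := A.step u' g2.1
            rw [g1.2] at g3
            rw [g2.2] at g4
            exact hne'' (A.T_anc (by omega) hl' hl)
          have m1 : l ∈ Leaf G x := ⟨hl1, w, hw, hw2⟩
          have m2 : l' ∈ Leaf G x := ⟨hl1', w', hw', hw2'⟩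
          rcases mem_BS h3 m1 m2 hll with h' | h'
          · exact ⟨l, h', hwT l w.end_mem_support⟩
          · exact ⟨l', h', hwT' l' w'.end_mem_support⟩

/-- `BS` meets the union of the subtrees below two children of one vertex. -/
theorem hit [Fintype V] [DecidableRel G.Adj] (A : Hang G K p h κ) (hc : G.Connected)
    (hK : ∀ v ∈ K, ∃ u1 ∈ K, ∃ u2 ∈ K, u1 ≠ u2 ∧ G.Adj v u1 ∧ G.Adj v u2)
    {x y : V} (hx : x ∉ K) (hy : y ∉ K) (hp : p x = p y) (hne : x ≠ y) :
    ∃ s ∈ BS G, InT K p {x} s ∨ InT K p {y} s := by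
  classical
  have a1 := A.step x hx
  have a2 := A.step y hy
  have hd : h x = h y := by
    have := congrArg h hp
    omega
  obtain ⟨N, hN⟩ : ∃ N, ∀ v, h v ≤ N := by
    obtain ⟨m, -, hm⟩ := Set.exists_max_image (Set.univ : Set V) h (Set.toFinite _)
      ⟨x, Set.mem_univ _⟩
    exact ⟨h m, fun v => hm v (Set.mem_univ _)⟩
  -- degree of the parent
  have h3 : 3 ≤ G.degree (p x) := by
    have hcard : ∀ a b c : V, a ≠ b → a ≠ c → b ≠ c → G.Adj (p x) a → G.Adj (p x) b →
        G.Adj (p x) c → 3 ≤ G.degree (p x) := by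
      intro a b c hab hac hbc g1 g2 g3
      have hsub : ({a, b, c} : Finset V) ⊆ G.neighborFinset (p x) := by
        intro t ht
        simp only [Finset.mem_insert, Finset.mem_singleton] at ht
        rw [mem_neighborFinset]
        rcases ht with rfl | rfl | rfl
        · exact g1
        · exact g2
        · exact g3
      have := Finset.card_le_card hsub
      rwa [card_neighborFinset_eq_degree, Finset.card_eq_three.mpr
        ⟨a, b, c, hab, hac, hbc, rfl⟩] at this
    by_cases hz : p x ∈ K
    · obtain ⟨u1, hu1, u2, hu2, hne', g1, g2⟩ := hK _ hz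
      exact hcard u1 u2 x hne' (by rintro rfl; exact hx hu1) (by rintro rfl; exact hx hu2)
        g1 g2 a1.1.symm
    · have a3 := A.step _ hz
      refine hcard x y (p (p x)) hne ?_ ?_ a1.1.symm (by rw [hp]; exact a2.1.symm) a3.1
      · intro h'
        have := congrArg h h'
        omega
      · intro h'
        have := congrArg h h'
        omega
  -- leaves
  have hleaf : ∀ x' : V, x' ∉ K → p x' = p x → (∃ s ∈ BS G, InT K p {x'} s) ∨
      ∃ l ∈ Leaf G (p x), InT K p {x'} l := by
    intro x' hx' hpx'
    have a3 := A.step x' hx'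
    rcases A.exists_leaf hc _ N x' hN rfl hx' with h' | ⟨l, hl, hl1, w, hw, hwT, hw2⟩
    · exact Or.inl h'
    · right
      have hadj : G.Adj (p x) x' := by rw [← hpx']; exact a3.1.symm
      refine ⟨l, ⟨hl1, Walk.cons hadj w, ?_, ?_⟩, hl⟩
      · rw [Walk.cons_isPath_iff]
        refine ⟨hw, fun h' => ?_⟩
        have := A.T_h (hwT _ h')
        rw [hpx'] at a3
        omega
      · intro t ht htx htl
        rw [Walk.support_cons, List.mem_cons] at ht
        rcases ht with rfl | ht
        · exact absurd rfl htx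
        · exact hw2 t ht htl
  rcases hleaf x hx rfl with ⟨s, hs, hsT⟩ | ⟨l, hl, hlT⟩
  · exact ⟨s, hs, Or.inl hsT⟩
  rcases hleaf y hy hp.symm with ⟨s, hs, hsT⟩ | ⟨l', hl', hlT'⟩
  · exact ⟨s, hs, Or.inr hsT⟩
  have hll : l ≠ l' := by
    rintro rfl
    exact hne (A.T_anc hd hlT hlT')
  rcases mem_BS h3 hl hl' hll with h' | h'
  · exact ⟨l, h', Or.inl hlT⟩
  · exact ⟨l', h', Or.inr hlT'⟩

/-- Separation of two vertices hanging at the same place and height, and of the edges above
them. -/
theorem sep [Fintype V] [DecidableRel G.Adj] (A : Hang G K p h κ) (hc : G.Connected)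
    (hK : ∀ v ∈ K, ∃ u1 ∈ K, ∃ u2 ∈ K, u1 ≠ u2 ∧ G.Adj v u1 ∧ G.Adj v u2)
    {x y : V} (hd : h x = h y) (hκ : κ x = κ y) (hne : x ≠ y) :
    ∃ s ∈ BS G, G.dist s x ≠ G.dist s y ∧
      min (G.dist s x) (G.dist s (p x)) ≠ min (G.dist s y) (G.dist s (p y)) := by
  obtain ⟨x', y', g1, g2, g3, g4, g5, g6⟩ := A.lca _ x y rfl hd.symm hκ hne
  obtain ⟨s, hs, hs' | hs'⟩ := A.hit hc hK g1 g2 g3 g4
  · have := A.sep_core hc g1 g2 g3 g4 g5 g6 hs' hd
    exact ⟨s, hs, by omega, by omega⟩
  · have := A.sep_core hc g2 g1 g3.symm g4.symm g6 g5 hs' hd.symm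
    exact ⟨s, hs, by omega, by omega⟩

end Hang

/-- Double resolution. -/
theorem dbl {W : Type*} {H : SimpleGraph W} (hc : H.Connected) {r : W} {S : Finset W}
    (hr : r ∈ S) (hM : MR H (S : Set W))
    (hJ : ∀ w, ∃ s ∈ S, H.dist s w + H.dist r w = H.dist s r) {a b : W} {m n : ℕ}
    (hu : ∀ s ∈ S, H.dist s a + m = H.dist s b + n) : a = b ∧ m = n := by
  have hr' := hu r hr
  by_cases hab : a = b
  · subst hab
    exact ⟨rfl, by omega⟩
  · exfalso
    rcases Nat.lt_trichotomy m n with h | h | h
    · obtain ⟨s, hs, h'⟩ := hJ a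
      have h1 := hu s hs
      have h2 : H.dist s r ≤ H.dist s b + H.dist b r := hc.dist_triangle
      rw [dist_comm (u := b)] at h2
      omega
    · obtain ⟨s, hs, h'⟩ := hM.vv a b hab
      have h1 := hu s (by exact_mod_cast hs)
      omega
    · obtain ⟨s, hs, h'⟩ := hJ b
      have h1 := hu s hs
      have h2 : H.dist s r ≤ H.dist s a + H.dist a r := hc.dist_triangle
      rw [dist_comm (u := a)] at h2
      omega

theorem dbl_edge {W : Type*} {H : SimpleGraph W} (hc : H.Connected) {r : W} {S : Finset W}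
    (hr : r ∈ S) (hM : MR H (S : Set W))
    (hJ : ∀ w, ∃ s ∈ S, H.dist s w + H.dist r w = H.dist s r) {a b c : W} (hab : H.Adj a b)
    {k : ℕ} (hu : ∀ s ∈ S, min (H.dist s a) (H.dist s b) = H.dist s c + k) : False := by
  rcases Nat.eq_zero_or_pos k with h | h
  · obtain ⟨s, hs, h'⟩ := hM.ve c a b hab
    have h1 := hu s (by exact_mod_cast hs)
    omega
  · obtain ⟨s, hs, h'⟩ := hJ a
    have h1 := hu s hs
    have h3 := hu r hr
    have h2 : H.dist s r ≤ H.dist s c + H.dist c r := hc.dist_triangle
    rw [dist_comm (u := c)] at h2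
    omega

end Pool.Agent.Helper431
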