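import Pool.Agent.Helper431.Count

set_option autoImplicit false

namespace Pool.Agent.Helper431

open SimpleGraph

variable {V : Type*} {G : SimpleGraph V} {dep : V → ℕ} {p : V → V}

namespace IsoCyc

variable {k : ℕ} {φ : ℕ → V}

theorem per_mul (C : IsoCyc G k φ) (i m : ℕ) : φ (i + k * m) = φ i := by
  induction m with
  | zero => simp
  | succ m ih =>
    have e : i + k * (m + 1) = (i + k * m) + k := by ring
    rw [e, C.per, ih]

theorem mem_iff [DecidableEq V] (C : IsoCyc G k φ) {v : V} :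
    v ∈ cycR C ↔ ∃ i, φ i = v := by
  rw [mem_cycR]
  constructor
  · rintro ⟨i, -, h⟩; exact ⟨i, h⟩
  · rintro ⟨i, h⟩
    have h3 := C.three
    refine ⟨i % k, Nat.mod_lt _ (by omega), ?_⟩
    rw [← h]
    conv_rhs => rw [← Nat.mod_add_div i k]
    rw [C.per_mul]

theorem cycR_shift [DecidableEq V] (C : IsoCyc G k φ) (a : ℕ) :
    cycR (C.shift a) = cycR C := by
  ext v
  rw [C.mem_iff, (C.shift a).mem_iff]
  constructor
  · rintro ⟨i, h⟩; exact ⟨i + a, h⟩
  · rintro ⟨i, h⟩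
    have h3 := C.three
    have hle : a ≤ k * a := Nat.le_mul_of_pos_left a (by omega)
    refine ⟨i + (k * a - a), ?_⟩
    have e : i + (k * a - a) + a = i + k * a := by omega
    rw [e, C.per_mul, h]

theorem degree_le [Fintype V] [DecidableEq V] [DecidableRel G.Adj] (C : IsoCyc G k φ)
    (hall : ∀ v, v ∈ cycR C) (v : V) : G.degree v ≤ 2 := by
  have h3 := C.three
  obtain ⟨i, hi, rfl⟩ := (mem_cycR C).mp (hall v)
  have hsub : G.neighborFinset (φ i) ⊆ {φ (nx k i), φ (if i = 0 then k - 1 else i - 1)} := by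
    intro u hu
    rw [mem_neighborFinset] at hu
    obtain ⟨j, hj, rfl⟩ := (mem_cycR C).mp (hall u)
    rw [Finset.mem_insert, Finset.mem_singleton]
    rcases C.adj_imp hi hj hu with h | h
    · left; rw [h]
    · right
      unfold nx at h
      congr 1
      split_ifs at h ⊢ <;> omega
  rw [← card_neighborFinset_eq_degree]
  exact (Finset.card_le_card hsub).trans Finset.card_le_two

end IsoCyc

/-- all the data needed for the two choices. -/
theorem setup [Fintype V] [DecidableEq V] [DecidableRel G.Adj] (hc : G.Connected)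
    (hdeg : ∀ v, 2 ≤ G.degree v) (h3 : ∃ v, 3 ≤ G.degree v) :
    ∃ (k : ℕ) (φ : ℕ → V) (C : IsoCyc G k φ) (dep : V → ℕ) (p : V → V) (s : V),
      BFS G (cycR C : Set V) dep p ∧ s ∈ WS G (cycR C : Set V) p ∧
      (∀ w ∈ WS G (cycR C : Set V) p, dep s ≤ dep w) ∧ G.dist s (φ 0) = dep s ∧
      φ 0 ∈ Att G (cycR C : Set V) := by
  classical
  have hm : Fintype.card V + 1 ≤ G.edgeFinset.card := by
    have h1 := G.sum_degrees_eq_twice_card_edges
    obtain ⟨v, hv⟩ := h3
    have h2 : ∑ w : V, 2 < ∑ w : V, G.degree w :=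
      Finset.sum_lt_sum (fun w _ => hdeg w) ⟨v, Finset.mem_univ v, by omega⟩
    rw [Finset.sum_const, smul_eq_mul, Finset.card_univ] at h2
    omega
  have hna : ¬ G.IsAcyclic := by
    intro hac
    have := (IsTree.mk hc hac).card_edgeFinset
    omega
  obtain ⟨k, φ, C⟩ := exists_isoCyc hc hna
  have hk := C.three
  have hne : (cycR C : Set V).Nonempty := ⟨φ 0, by
    rw [Finset.mem_coe, C.mem_iff]; exact ⟨0, rfl⟩⟩
  obtain ⟨dep, p, B⟩ := exists_BFS hc hne
  have hgood := B.exists_W_below hdeg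
  -- a vertex outside the cycle
  obtain ⟨v0, hv0⟩ : ∃ v, v ∉ (cycR C : Set V) := by
    by_contra hcon
    push Not at hcon
    obtain ⟨v, hv⟩ := h3
    have := C.degree_le (fun v => by simpa using hcon v) v
    omega
  obtain ⟨w0, hw0, -⟩ := hgood v0 hv0
  obtain ⟨s, hs, hmin⟩ := Set.exists_min_image (WS G (cycR C : Set V) p) dep (Set.toFinite _)
    ⟨w0, hw0⟩
  obtain ⟨g, hg, hgd⟩ := B.dep_att s
  have hgA : g ∈ Att G (cycR C : Set V) := by
    by_cases hsR : s ∈ (cycR C : Set V)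
    · have h0 := B.dep_root hsR
      have : s = g := (B.conn.dist_eq_zero_iff).mp (hgd.trans h0)
      subst this
      exact B.W_att hs hsR
    · obtain ⟨y, hy, hy'⟩ := B.hit_att hg _ s rfl hsR
      have e1 := B.dep_lip s y
      have e2 := B.dep_root hy.1
      have e3 : y = g := (B.conn.dist_eq_zero_iff).mp (by omega)
      exact e3 ▸ hy
  obtain ⟨a, ha⟩ := (C.mem_iff).mp (Finset.mem_coe.mp hg)
  refine ⟨k, fun i => φ (i + a), C.shift a, dep, p, s, ?_⟩
  rw [C.cycR_shift a]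
  refine ⟨B, hs, hmin, ?_, ?_⟩
  · simp only [Nat.zero_add, ha, hgd]
  · simp only [Nat.zero_add, ha, hgA]

section

variable {k : ℕ} {φ : ℕ → V} [Fintype V] [DecidableEq V] [DecidableRel G.Adj]
  {C : IsoCyc G k φ} {s : V}

theorem att_pos (C : IsoCyc G k φ) {y : V} (hy : y ∈ Att G (cycR C : Set V)) :
    ∃ a, a < k ∧ φ a = y := (mem_cycR C).mp (Finset.mem_coe.mp hy.1)

theorem phi_mem (C : IsoCyc G k φ) (i : ℕ) : φ i ∈ (cycR C : Set V) := by
  rw [Finset.mem_coe, C.mem_iff]; exact ⟨i, rfl⟩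

theorem vertex_choice (C : IsoCyc G k φ) (B : BFS G (cycR C : Set V) dep p)
    (hgood : ∀ v, v ∉ (cycR C : Set V) → ∃ s ∈ WS G (cycR C : Set V) p,
      InT (cycR C : Set V) p {v} s)
    (hs : s ∈ WS G (cycR C : Set V) p)
    (hmin : ∀ w ∈ WS G (cycR C : Set V) p, dep s ≤ dep w) (hg : G.dist s (φ 0) = dep s)
    (hatt : φ 0 ∈ Att G (cycR C : Set V)) :
    ∃ b, b < k ∧ ∀ i j, i < k → j < k → i ≠ j →
      (∀ w ∈ WS G (cycR C : Set V) p, G.dist w (φ i) = G.dist w (φ j)) →
      G.dist (φ b) (φ i) ≠ G.dist (φ b) (φ j) := by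
  have hk := C.three
  obtain ⟨b, hb, h⟩ := choose_v hk
    (fun i j => ∀ w ∈ WS G (cycR C : Set V) p, G.dist w (φ i) = G.dist w (φ j))
    (fun i => φ i ∈ Att G (cycR C : Set V)) (fun i => G.dist s (φ i)) (dep s)
    (fun i j h w hw => (h w hw).symm) (fun i j l h h' w hw => (h w hw).trans (h' w hw)) hatt
    (by
      intro i j hi hj hij hU
      obtain ⟨y, hy, h1, h2⟩ := B.common_att (B.att_good hgood) ⟨_, hatt⟩
        (B.tar_vertex (phi_mem C i)) (B.tar_vertex (phi_mem C j)) hU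
      obtain ⟨a, ha, rfl⟩ := att_pos C hy
      refine ⟨a, ha, hy, ?_, ?_⟩
      · rw [C.dist_eq ha hi, C.dist_eq ha hj] at h1
        exact h1
      · intro a' ha' hatt'
        have := h2 _ hatt'
        rw [C.dist_eq ha hi, C.dist_eq ha hj, C.dist_eq ha' hi, C.dist_eq ha' hj] at this
        exact this)
    (fun i j h => h s hs)
    (by omega)
    (by
      intro a ha0 ha
      by_contra hlt
      push Not at hlt
      have e1 := B.dep_lip s (φ a)
      have e2 := B.dep_root (phi_mem C a)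
      have e3 := B.gate_unique _ s rfl hmin (φ a) (phi_mem C a) (φ 0) (phi_mem C 0)
        (by omega) hg
      have := C.inj ha (by omega) e3
      omega)
    (by
      intro i hi
      have e1 : G.dist s (φ i) ≤ G.dist s (φ 0) + G.dist (φ 0) (φ i) := B.conn.dist_triangle
      rw [C.dist_eq (by omega) hi] at e1
      omega)
    (by
      intro i hi
      obtain ⟨y, hy, h1⟩ := (B.tar_vertex (phi_mem C i)).hit s hs
      obtain ⟨a, ha, rfl⟩ := att_pos C hy
      rw [C.dist_eq ha hi] at h1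
      exact ⟨a, ha, hy, h1⟩)
  refine ⟨b, hb, fun i j hi hj hij hU => ?_⟩
  have := h i j hi hj hij hU
  rwa [← C.dist_eq hb hi, ← C.dist_eq hb hj] at this

/-- distance to the `i`-th cycle edge. -/
noncomputable def ed (G : SimpleGraph V) (k : ℕ) (φ : ℕ → V) (w : V) (i : ℕ) : ℕ :=
  min (G.dist w (φ i)) (G.dist w (φ (nx k i)))

theorem ed_phi (C : IsoCyc G k φ) {b i : ℕ} (hb : b < k) (hi : i < k) :
    ed G k φ (φ b) i = ce k b i := by
  unfold ed ce
  rw [C.dist_eq hb hi, C.dist_eq hb (C.nx_lt hi)]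

theorem edge_choice (C : IsoCyc G k φ) (B : BFS G (cycR C : Set V) dep p)
    (hgood : ∀ v, v ∉ (cycR C : Set V) → ∃ s ∈ WS G (cycR C : Set V) p,
      InT (cycR C : Set V) p {v} s)
    (hs : s ∈ WS G (cycR C : Set V) p)
    (hmin : ∀ w ∈ WS G (cycR C : Set V) p, dep s ≤ dep w) (hg : G.dist s (φ 0) = dep s)
    (hatt : φ 0 ∈ Att G (cycR C : Set V)) :
    (∃ b, b < k ∧ ∀ i j, i < k → j < k → i ≠ j →
      (∀ w ∈ WS G (cycR C : Set V) p, ed G k φ w i = ed G k φ w j) →
      ed G k φ (φ b) i ≠ ed G k φ (φ b) j) ∨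
    (∃ z z', z ≠ z' ∧ NT G (cycR C : Set V) p s z ∧ NT G (cycR C : Set V) p s z') := by
  have hk := C.three
  have hc0 : ∀ u, 2 ≤ u → u + 2 ≤ k → 2 ≤ G.dist (φ 0) (φ u) := by
    intro u h1 h2
    rw [C.dist_eq (by omega) (by omega), cd_le _ _ _ (by omega)]
    omega
  rcases choose_e hk
    (fun i j => ∀ w ∈ WS G (cycR C : Set V) p, ed G k φ w i = ed G k φ w j)
    (fun i => φ i ∈ Att G (cycR C : Set V)) (fun i => G.dist s (φ i)) (dep s)
    (fun i j h w hw => (h w hw).symm) (fun i j l h h' w hw => (h w hw).trans (h' w hw)) hatt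
    (by
      intro i j hi hj hij hU
      obtain ⟨y, hy, h1, h2⟩ := B.common_att (B.att_good hgood) ⟨_, hatt⟩
        (B.tar_min (B.tar_vertex (phi_mem C i)) (B.tar_vertex (phi_mem C (nx k i))))
        (B.tar_min (B.tar_vertex (phi_mem C j)) (B.tar_vertex (phi_mem C (nx k j)))) hU
      obtain ⟨a, ha, rfl⟩ := att_pos C hy
      refine ⟨a, ha, hy, ?_, ?_⟩
      · rw [← ed_phi C ha hi, ← ed_phi C ha hj]
        exact h1
      · intro a' ha' hatt'
        have := h2 _ hatt'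
        rw [← ed_phi C ha hi, ← ed_phi C ha hj, ← ed_phi C ha' hi, ← ed_phi C ha' hj]
        exact this)
    (fun i j h => h s hs)
    (by
      intro a ha0 ha
      by_contra hlt
      push Not at hlt
      have e1 := B.dep_lip s (φ a)
      have e2 := B.dep_root (phi_mem C a)
      have e3 := B.gate_unique _ s rfl hmin (φ a) (phi_mem C a) (φ 0) (phi_mem C 0)
        (by omega) hg
      have := C.inj ha (by omega) e3
      omega)
    (by
      intro i hi
      have e1 : G.dist s (φ i) ≤ G.dist s (φ 0) + G.dist (φ 0) (φ i) := B.conn.dist_triangle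
      rw [C.dist_eq (by omega) hi] at e1
      omega) with h | h | h
  · left
    obtain ⟨b, hb, h⟩ := h
    refine ⟨b, hb, fun i j hi hj hij hU => ?_⟩
    have := h i j hi hj hij hU
    rwa [← ed_phi C hb hi, ← ed_phi C hb hj] at this
  · right
    obtain ⟨u, v, huv, hu1, hu2, hv1, hv2, hfu, hfv⟩ := h
    obtain ⟨z, hz, hzd, hzu⟩ := B.horizontal hs hmin (phi_mem C 0) hg (phi_mem C u) hfu
      (hc0 u hu1 hu2)
    obtain ⟨z', hz', hzd', hzv⟩ := B.horizontal hs hmin (phi_mem C 0) hg (phi_mem C v) hfv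
      (hc0 v hv1 hv2)
    refine ⟨z, z', ?_, hz, hz'⟩
    rintro rfl
    have e := B.gate_unique _ z rfl (by rw [hzd]; exact hmin) (φ u) (phi_mem C u) (φ v)
      (phi_mem C v) (by omega) (by omega)
    exact huv (C.inj (by omega) (by omega) e)
  · exfalso
    obtain ⟨hk6, hf3, hU⟩ := h
    subst hk6
    obtain ⟨z, hz, hzd, hzu⟩ := B.horizontal hs hmin (phi_mem C 0) hg (phi_mem C 3) hf3
      (hc0 3 (by omega) (by omega))
    have hzW : z ∈ WS G (cycR C : Set V) p := ⟨s, BFS.nt_symm hz⟩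
    have h1 := hU z hzW
    have n3 : nx 6 3 = 4 := by decide
    have n4 : nx 6 4 = 5 := by decide
    simp only [ed, n3, n4] at h1
    have gz := B.gate_unique _ z rfl (by rw [hzd]; exact hmin) (φ 3) (phi_mem C 3)
    have e4 := B.dep_lip z (φ 4)
    have e5 := B.dep_lip z (φ 5)
    have d4 := B.dep_root (phi_mem C 4)
    have d5 := B.dep_root (phi_mem C 5)
    rcases Nat.lt_or_ge (dep z) (G.dist z (φ 4)) with hlt | hge
    · have e := gz (φ 5) (phi_mem C 5) (by omega) (by omega)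
      have := C.inj (by omega) (by omega) e
      omega
    · have e := gz (φ 4) (phi_mem C 4) (by omega) (by omega)
      have := C.inj (by omega) (by omega) e
      omega

/-- every edge with both ends on the cycle is a cycle edge. -/
theorem edge_pos (C : IsoCyc G k φ) {a b : V} (hab : G.Adj a b) (ha : a ∈ (cycR C : Set V))
    (hb : b ∈ (cycR C : Set V)) :
    ∃ i, i < k ∧ ((a = φ i ∧ b = φ (nx k i)) ∨ (b = φ i ∧ a = φ (nx k i))) := by
  obtain ⟨i, hi, rfl⟩ := (mem_cycR C).mp (Finset.mem_coe.mp ha)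
  obtain ⟨j, hj, rfl⟩ := (mem_cycR C).mp (Finset.mem_coe.mp hb)
  rcases C.adj_imp hi hj hab with h | h
  · exact ⟨i, hi, Or.inl ⟨rfl, by rw [h]⟩⟩
  · exact ⟨j, hj, Or.inr ⟨rfl, by rw [h]⟩⟩

end

theorem vertex_part (V : Type*) [Fintype V] [DecidableEq V] (G : SimpleGraph V)
    [DecidableRel G.Adj] (hc : G.Connected) (hdeg : ∀ v : V, 2 ≤ G.degree v)
    (h3 : ∃ v : V, 3 ≤ G.degree v) :
    ∃ S : Finset V,
      (S.card : ℤ) ≤ 2 * ((G.edgeFinset.card : ℤ) - (Fintype.card V : ℤ) + 1) - 1 ∧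
      ∀ u v : V, u ≠ v → ∃ s ∈ S, G.dist s u ≠ G.dist s v := by
  classical
  obtain ⟨k, φ, C, dep, p, s, B, hs, hmin, hg, hatt⟩ := setup hc hdeg h3
  have hgood := B.exists_W_below hdeg
  obtain ⟨b, hb, hres⟩ := vertex_choice C B hgood hs hmin hg hatt
  refine ⟨insert (φ b) (Wf G (cycR C : Set V) p), ?_, ?_⟩
  · have h1 := Finset.card_insert_le (φ b) (Wf G (cycR C : Set V) p)
    have h2 := card_Wf_le (G := G) (p := p) (cycR C : Set V)
    have h3 := card_NE_cyc C B
    omega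
  · intro u v huv
    by_cases hR : u ∈ (cycR C : Set V) ∧ v ∈ (cycR C : Set V)
    · obtain ⟨i, hi, rfl⟩ := (mem_cycR C).mp (Finset.mem_coe.mp hR.1)
      obtain ⟨j, hj, rfl⟩ := (mem_cycR C).mp (Finset.mem_coe.mp hR.2)
      have hij : i ≠ j := fun h => huv (by rw [h])
      by_cases hU : ∀ w ∈ WS G (cycR C : Set V) p, G.dist w (φ i) = G.dist w (φ j)
      · exact ⟨φ b, Finset.mem_insert_self _ _, hres i j hi hj hij hU⟩
      · push Not at hU
        obtain ⟨w, hw, h⟩ := hU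
        exact ⟨w, Finset.mem_insert_of_mem (mem_Wf.mpr hw), h⟩
    · obtain ⟨w, hw, h⟩ := B.resolve_vertex hgood huv hR
      exact ⟨w, Finset.mem_insert_of_mem (mem_Wf.mpr hw), h⟩

theorem edge_part (V : Type*) [Fintype V] [DecidableEq V] (G : SimpleGraph V)
    [DecidableRel G.Adj] (hc : G.Connected) (hdeg : ∀ v : V, 2 ≤ G.degree v)
    (h3 : ∃ v : V, 3 ≤ G.degree v) :
    ∃ S : Finset V,
      (S.card : ℤ) ≤ 2 * ((G.edgeFinset.card : ℤ) - (Fintype.card V : ℤ) + 1) - 1 ∧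
      ∀ a b c d : V, G.Adj a b → G.Adj c d → s(a, b) ≠ s(c, d) →
        ∃ s ∈ S, min (G.dist s a) (G.dist s b) ≠ min (G.dist s c) (G.dist s d) := by
  classical
  obtain ⟨k, φ, C, dep, p, s, B, hs, hmin, hg, hatt⟩ := setup hc hdeg h3
  have hgood := B.exists_W_below hdeg
  have hk := C.three
  -- reduction to cycle edges
  have red : ∀ S : Finset V, Wf G (cycR C : Set V) p ⊆ S →
      (∀ i j, i < k → j < k → i ≠ j → ∃ s ∈ S, ed G k φ s i ≠ ed G k φ s j) →
      ∀ a b c d : V, G.Adj a b → G.Adj c d → s(a, b) ≠ s(c, d) →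
        ∃ s ∈ S, min (G.dist s a) (G.dist s b) ≠ min (G.dist s c) (G.dist s d) := by
    intro S hS hcyc a b c d hab hcd hne
    have hne1 : ¬ (a = c ∧ b = d) := fun h => hne (by rw [h.1, h.2])
    have hne2 : ¬ (a = d ∧ b = c) := fun h => hne (by
      rw [h.1, h.2]; exact Sym2.eq_iff.mpr (Or.inr ⟨rfl, rfl⟩))
    by_cases hR : (a ∈ (cycR C : Set V) ∧ b ∈ (cycR C : Set V)) ∧
        (c ∈ (cycR C : Set V) ∧ d ∈ (cycR C : Set V))
    · obtain ⟨i, hi, h1⟩ := edge_pos C hab hR.1.1 hR.1.2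
      obtain ⟨j, hj, h2⟩ := edge_pos C hcd hR.2.1 hR.2.2
      have hij : i ≠ j := by
        rintro rfl
        rcases h1 with ⟨rfl, rfl⟩ | ⟨rfl, rfl⟩ <;> rcases h2 with ⟨rfl, rfl⟩ | ⟨rfl, rfl⟩
        · exact hne1 ⟨rfl, rfl⟩
        · exact hne2 ⟨rfl, rfl⟩
        · exact hne2 ⟨rfl, rfl⟩
        · exact hne1 ⟨rfl, rfl⟩
      obtain ⟨s, hs, h⟩ := hcyc i j hi hj hij
      refine ⟨s, hs, ?_⟩
      unfold ed at h
      rcases h1 with ⟨rfl, rfl⟩ | ⟨rfl, rfl⟩ <;> rcases h2 with ⟨rfl, rfl⟩ | ⟨rfl, rfl⟩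
      · exact h
      · rwa [min_comm (G.dist s (φ (nx k j)))]
      · rwa [min_comm (G.dist s (φ (nx k i)))]
      · rwa [min_comm (G.dist s (φ (nx k j))), min_comm (G.dist s (φ (nx k i)))]
    · obtain ⟨w, hw, h⟩ := B.resolve_edge hgood hab hcd hne1 hne2 hR
      exact ⟨w, hS (mem_Wf.mpr hw), h⟩
  rcases edge_choice C B hgood hs hmin hg hatt with ⟨b, hb, hres⟩ | ⟨z, z', hzz, hz, hz'⟩
  · refine ⟨insert (φ b) (Wf G (cycR C : Set V) p), ?_, ?_⟩
    · have h1 := Finset.card_insert_le (φ b) (Wf G (cycR C : Set V) p)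
      have h2 := card_Wf_le (G := G) (p := p) (cycR C : Set V)
      have h3 := card_NE_cyc C B
      omega
    · apply red _ (Finset.subset_insert _ _)
      intro i j hi hj hij
      by_cases hU : ∀ w ∈ WS G (cycR C : Set V) p, ed G k φ w i = ed G k φ w j
      · exact ⟨φ b, Finset.mem_insert_self _ _, hres i j hi hj hij hU⟩
      · push Not at hU
        obtain ⟨w, hw, h⟩ := hU
        exact ⟨w, Finset.mem_insert_of_mem (mem_Wf.mpr hw), h⟩
  · refine ⟨insert (φ 0) (insert (φ 1) (Wf G (cycR C : Set V) p)), ?_, ?_⟩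
    · have h1 := Finset.card_insert_le (φ 1) (Wf G (cycR C : Set V) p)
      have h1' := Finset.card_insert_le (φ 0) (insert (φ 1) (Wf G (cycR C : Set V) p))
      have h2 := card_Wf_lt (G := G) (p := p) (cycR C : Set V) hzz hz hz'
      have h3 := card_NE_cyc C B
      omega
    · apply red _ ((Finset.subset_insert _ _).trans (Finset.subset_insert _ _))
      intro i j hi hj hij
      by_contra hcon
      push Not at hcon
      have e0 := hcon (φ 0) (by simp)
      have e1 := hcon (φ 1) (by simp)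
      rw [ed_phi C (by omega) hi, ed_phi C (by omega) hj] at e0 e1
      have := center_e (by omega : 0 < k) (by omega : 1 < k) hi hj hij e0 e1
      omega

end Pool.Agent.Helper431
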