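import Pool.Agent.Helper431.Legs

set_option autoImplicit false

namespace Pool.Agent.Helper431

open SimpleGraph

variable {V : Type*} {G : SimpleGraph V}

/-- The resolving set of a connected graph with cyclomatic number at least two. -/
theorem exists_S [Fintype V] [DecidableEq V] [DecidableRel G.Adj] (hc : G.Connected)
    (hE : Fintype.card V + 1 ≤ G.edgeFinset.card) :
    ∃ S : Finset V,
      S.card + 2 * Fintype.card V ≤
        (∑ v ∈ Finset.univ.filter (fun v => 3 ≤ G.degree v), ((Leaf G v).ncard - 1)) +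
          2 * G.edgeFinset.card + 2 ∧
      (∀ x y, x ≠ y → ∃ s ∈ S, G.dist s x ≠ G.dist s y) ∧
      (∀ a b c d, G.Adj a b → G.Adj c d → s(a, b) ≠ s(c, d) →
        ∃ s ∈ S, min (G.dist s a) (G.dist s b) ≠ min (G.dist s c) (G.dist s d)) := by
  classical
  obtain ⟨K, p, h, κ, A, hK⟩ := exists_core hc (by omega)
  let H := G.induce (K : Set V)
  have hcount : H.edgeFinset.card + Fintype.card V = G.edgeFinset.card + K.card := by
    convert A.card_edges
  have hcH : H.Connected := A.conn hc
  have hcardK : Fintype.card (K : Set V) = K.card := by simp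
  -- degrees
  have hdegH : ∀ v, 2 ≤ H.degree v := by
    rintro ⟨v, hv⟩
    obtain ⟨u1, hu1, u2, hu2, hne, g1, g2⟩ := hK v hv
    have hsub : ({⟨u1, hu1⟩, ⟨u2, hu2⟩} : Finset (K : Set V)) ⊆ H.neighborFinset ⟨v, hv⟩ := by
      intro t ht
      simp only [Finset.mem_insert, Finset.mem_singleton] at ht
      rw [mem_neighborFinset]
      rcases ht with rfl | rfl
      · exact g1
      · exact g2
    have h1 := Finset.card_le_card hsub
    rwa [card_neighborFinset_eq_degree, Finset.card_pair (by
      intro h'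
      exact hne (congrArg Subtype.val h'))] at h1
  have h3 : ∃ v, 3 ≤ H.degree v := by
    by_contra hcon
    push Not at hcon
    have h1 := H.sum_degrees_eq_twice_card_edges
    have h2 : ∑ w : (K : Set V), H.degree w ≤ ∑ w : (K : Set V), 2 :=
      Finset.sum_le_sum (fun w _ => by have := hcon w; omega)
    rw [Finset.sum_const, smul_eq_mul, Finset.card_univ, hcardK] at h2
    omega
  obtain ⟨r, SH, hr, hcard, hM, hJ⟩ := core hcH hdegH h3
  rw [hcardK] at hcard
  have hdist : ∀ (s : (K : Set V)) (x : V), G.dist s x = H.dist s ⟨κ x, A.κ_mem x⟩ + h x :=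
    A.dist_eq hc
  have hdistK : ∀ (s x : (K : Set V)), G.dist s x = H.dist s x := by
    intro s x
    have := hdist s x
    obtain ⟨-, h1, h2⟩ := A.root x x.2
    have e : (⟨κ (x : V), A.κ_mem x⟩ : (K : Set V)) = x := Subtype.ext h2
    rw [e, h1] at this
    exact this
  refine ⟨SH.image Subtype.val ∪ BS G, ?_, ?_, ?_⟩
  · have h1 := Finset.card_union_le (SH.image Subtype.val) (BS G)
    have h2 : (SH.image Subtype.val).card ≤ SH.card := Finset.card_image_le
    have h3 := card_BS (G := G)
    omega
  · intro x y hxy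
    by_cases hex : ∃ s ∈ SH, G.dist (s : V) x ≠ G.dist (s : V) y
    · obtain ⟨s, hs, h'⟩ := hex
      exact ⟨s, Finset.mem_union_left _ (Finset.mem_image_of_mem _ hs), h'⟩
    · push Not at hex
      have := dbl hcH hr hM hJ (a := ⟨κ x, A.κ_mem x⟩) (b := ⟨κ y, A.κ_mem y⟩) (m := h x)
        (n := h y) (fun s hs => by rw [← hdist, ← hdist]; exact hex s hs)
      obtain ⟨s, hs, h', -⟩ := A.sep hc hK this.2 (congrArg Subtype.val this.1) hxy
      exact ⟨s, Finset.mem_union_right _ hs, h'⟩
  · intro a b c d hab hcd hne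
    by_contra hcon
    push Not at hcon
    have hcon1 : ∀ s ∈ SH, min (G.dist (s : V) a) (G.dist (s : V) b) =
        min (G.dist (s : V) c) (G.dist (s : V) d) := fun s hs =>
      hcon s (Finset.mem_union_left _ (Finset.mem_image_of_mem _ hs))
    have hcon2 : ∀ s ∈ BS G, min (G.dist (s : V) a) (G.dist (s : V) b) =
        min (G.dist (s : V) c) (G.dist (s : V) d) := fun s hs =>
      hcon s (Finset.mem_union_right _ hs)
    have norm : ∀ a b, G.Adj a b → (a ∈ K ∧ b ∈ K) ∨
        ∃ v, v ∉ K ∧ s(a, b) = s(v, p v) ∧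
          ∀ s, min (G.dist s a) (G.dist s b) = min (G.dist s v) (G.dist s (p v)) := by
      intro a b hab
      rcases A.edge a b hab with ⟨h1, h2⟩ | ⟨h1, h2⟩ | ⟨h1, h2⟩
      · exact Or.inl ⟨h1, h2⟩
      · exact Or.inr ⟨a, h1, by rw [h2], fun s => by rw [h2]⟩
      · exact Or.inr ⟨b, h1, by rw [h2]; exact Sym2.eq_swap, fun s => by rw [h2, min_comm]⟩
    have hmin : ∀ v, v ∉ K → ∀ s : (K : Set V), min (G.dist (s : V) v) (G.dist (s : V) (p v)) + 1 =
        H.dist s ⟨κ v, A.κ_mem v⟩ + h v := by
      intro v hv s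
      obtain ⟨-, h1, h2⟩ := A.step v hv
      have e : (⟨κ (p v), A.κ_mem (p v)⟩ : (K : Set V)) = ⟨κ v, A.κ_mem v⟩ :=
        Subtype.ext h2.symm
      rw [hdist s v, hdist s (p v), e]
      omega
    have mixed : ∀ a b v, G.Adj a b → a ∈ K → b ∈ K → v ∉ K →
        (∀ s ∈ SH, min (G.dist (s : V) a) (G.dist (s : V) b) =
          min (G.dist (s : V) v) (G.dist (s : V) (p v))) → False := by
      intro a b v hab ha hb hv hs
      obtain ⟨-, h1, h2⟩ := A.step v hv
      refine dbl_edge hcH hr hM hJ (a := ⟨a, ha⟩) (b := ⟨b, hb⟩) (c := ⟨κ v, A.κ_mem v⟩)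
        (k := h v - 1) hab ?_
      intro s hs'
      have e1 := hs s hs'
      have e2 := hmin v hv s
      have e3 := hdistK s ⟨a, ha⟩
      have e4 := hdistK s ⟨b, hb⟩
      simp only at e3 e4
      omega
    rcases norm a b hab with ⟨ha, hb⟩ | ⟨v, hv, hev, hsv⟩
    · rcases norm c d hcd with ⟨hc', hd⟩ | ⟨w, hw, hew, hsw⟩
      · obtain ⟨s, hs, h'⟩ := hM.ee ⟨a, ha⟩ ⟨b, hb⟩ ⟨c, hc'⟩ ⟨d, hd⟩ hab hcd
          (fun h => hne (by
            have e1 := congrArg Subtype.val h.1
            have e2 := congrArg Subtype.val h.2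
            simp only at e1 e2
            rw [e1, e2]))
          (fun h => hne (by
            have e1 := congrArg Subtype.val h.1
            have e2 := congrArg Subtype.val h.2
            simp only at e1 e2
            rw [e1, e2, Sym2.eq_swap]))
        apply h'
        have := hcon1 s (by exact_mod_cast hs)
        have e1 := hdistK s ⟨a, ha⟩
        have e2 := hdistK s ⟨b, hb⟩
        have e3 := hdistK s ⟨c, hc'⟩
        have e4 := hdistK s ⟨d, hd⟩
        simp only at e1 e2 e3 e4
        omega
      · exact mixed a b w hab ha hb hw (fun s hs => by rw [hcon1 s hs, hsw])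
    · rcases norm c d hcd with ⟨hc', hd⟩ | ⟨w, hw, hew, hsw⟩
      · exact mixed c d v hcd hc' hd hv (fun s hs => by rw [← hcon1 s hs, hsv])
      · have hvw : v ≠ w := by
          rintro rfl
          exact hne (hev.trans hew.symm)
        have := dbl hcH hr hM hJ (a := ⟨κ v, A.κ_mem v⟩) (b := ⟨κ w, A.κ_mem w⟩) (m := h v)
          (n := h w) (fun s hs => by
            have e1 := hcon1 s hs
            rw [hsv, hsw] at e1
            have e2 := hmin v hv s
            have e3 := hmin w hw s
            omega)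
        obtain ⟨s, hs, -, h'⟩ := A.sep hc hK this.2 (congrArg Subtype.val this.1) hvw
        apply h'
        rw [← hsv, ← hsw]
        exact hcon2 s hs

end Pool.Agent.Helper431
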