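import Mathlib

set_option autoImplicit false
open Finset

namespace Pool.Agent.Helper431.Moser

/-! digits -/

def dig (M L l : ℕ) : ℕ := L / M ^ l % M

theorem dig_zero (M L : ℕ) : dig M L 0 = L % M := by simp [dig]

theorem dig_succ (M L l : ℕ) : dig M L (l + 1) = dig M (L / M) l := by
  unfold dig
  rw [pow_succ', Nat.div_div_eq_div_mul]

theorem div_lt_pow {M D a : ℕ} (h : a < M ^ (D + 1)) : a / M < M ^ D := by
  apply Nat.div_lt_of_lt_mul
  rwa [← pow_succ']

theorem parity_of_digits {M : ℕ} (D : ℕ) : ∀ a b : ℕ, a < M ^ D → b < M ^ D →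
    (∀ l < D, dig M a l % 2 = dig M b l % 2) → a % 2 = b % 2 := by
  induction D with
  | zero => intro a b ha hb _; simp at ha hb; rw [ha, hb]
  | succ D ih =>
    intro a b ha hb h
    have h0 := h 0 (by omega)
    rw [dig_zero, dig_zero] at h0
    have h1 := ih (a / M) (b / M) (div_lt_pow ha) (div_lt_pow hb) (fun l hl => by
      have := h (l + 1) (by omega)
      rwa [dig_succ, dig_succ] at this)
    have e1 := Nat.div_add_mod a M
    have e2 := Nat.div_add_mod b M
    have e3 : (M * (a / M)) % 2 = (M * (b / M)) % 2 := by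
      rw [Nat.mul_mod, h1, ← Nat.mul_mod]
    omega

theorem dig_mid {M : ℕ} (D : ℕ) : ∀ a b m : ℕ, a < M ^ D → b < M ^ D →
    (∀ l < D, dig M a l % 2 = dig M b l % 2) → 2 * m = a + b →
    ∀ l < D, 2 * dig M m l = dig M a l + dig M b l := by
  induction D with
  | zero => intro a b m _ _ _ _ l hl; omega
  | succ D ih =>
    intro a b m ha hb h hm
    have hM : 0 < M := by
      rcases Nat.eq_zero_or_pos M with h0 | h0
      · subst h0; simp at ha
      · exact h0
    have h0 := h 0 (by omega)
    rw [dig_zero, dig_zero] at h0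
    have hpar : ∀ l < D, dig M (a / M) l % 2 = dig M (b / M) l % 2 := fun l hl => by
      have := h (l + 1) (by omega)
      rwa [dig_succ, dig_succ] at this
    have h1 := parity_of_digits D (a / M) (b / M) (div_lt_pow ha) (div_lt_pow hb) hpar
    have e1 := Nat.div_add_mod a M
    have e2 := Nat.div_add_mod b M
    have l1 := Nat.mod_lt a hM
    have l2 := Nat.mod_lt b hM
    obtain ⟨e, he⟩ : ∃ e, 2 * e = a % M + b % M := ⟨(a % M + b % M) / 2, by omega⟩
    obtain ⟨m', hm'⟩ : ∃ m', 2 * m' = a / M + b / M := ⟨(a / M + b / M) / 2, by omega⟩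
    have hme : m = M * m' + e := by
      have : 2 * m = 2 * (M * m' + e) := by
        have h3 : M * (2 * m') = M * (a / M) + M * (b / M) := by rw [hm']; ring
        have h4 : 2 * (M * m' + e) = M * (2 * m') + 2 * e := by ring
        rw [h4, h3, he, hm]
        omega
      omega
    have heM : e < M := by omega
    have hmod : m % M = e := by
      rw [hme, Nat.mul_add_mod, Nat.mod_eq_of_lt heM]
    have hdiv : m / M = m' := by
      rw [hme, Nat.mul_add_div hM, Nat.div_eq_of_lt heM, add_zero]
    intro l hl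
    rcases l with _ | l
    · rw [dig_zero, dig_zero, dig_zero, hmod]; exact he
    · rw [dig_succ, dig_succ, dig_succ, hdiv]
      exact ih (a / M) (b / M) m' (div_lt_pow ha) (div_lt_pow hb) hpar hm' l (by omega)

theorem digits_inj {M : ℕ} (D : ℕ) : ∀ a b : ℕ, a < M ^ D → b < M ^ D →
    (∀ l < D, dig M a l = dig M b l) → a = b := by
  induction D with
  | zero => intro a b ha hb _; simp at ha hb; rw [ha, hb]
  | succ D ih =>
    intro a b ha hb h
    have h0 := h 0 (by omega)
    rw [dig_zero, dig_zero] at h0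
    have h1 := ih (a / M) (b / M) (div_lt_pow ha) (div_lt_pow hb) (fun l hl => by
      have := h (l + 1) (by omega)
      rwa [dig_succ, dig_succ] at this)
    rw [← Nat.div_add_mod a M, ← Nat.div_add_mod b M, h1, h0]

/-! labels -/

variable {n : ℕ}

def lab (u : Fin n → ℕ) (j : ℕ) : ℕ := ∑ i, u i * (i : ℕ) ^ j

def Q (M D w : ℕ) (u : Fin n → ℕ) : ℕ :=
  ∑ j ∈ range w, ∑ l ∈ range D, (dig M (lab u j) l) ^ 2

def par (M D w : ℕ) (u : Fin n → ℕ) : Fin w × Fin D → Bool :=
  fun jl => decide (dig M (lab u jl.1) jl.2 % 2 = 1)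

def kap (D w : ℕ) : ℕ := Fintype.card (Fin w × Fin D → Bool)

noncomputable def code (M D w : ℕ) (u : Fin n → ℕ) : ℕ :=
  (Fintype.equivFin (Fin w × Fin D → Bool) (par M D w u)).val

theorem code_lt (M D w : ℕ) (u : Fin n → ℕ) : code M D w u < kap D w :=
  (Fintype.equivFin (Fin w × Fin D → Bool) (par M D w u)).isLt

theorem par_of_code {M D w : ℕ} {u v : Fin n → ℕ} (h : code M D w u = code M D w v) :
    par M D w u = par M D w v :=
  (Fintype.equivFin _).injective (Fin.ext h)

noncomputable def col (M D w : ℕ) (u : Fin n → ℕ) : ℕ := kap D w * Q M D w u + code M D w u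

def supp (u : Fin n → ℕ) : ℕ := (univ.filter (fun i => u i ≠ 1)).card

noncomputable def F (M D w : ℕ) (u : Fin n → ℕ) : ℕ := supp u + w * col M D w u

theorem col_of_lab {M D w : ℕ} {u v : Fin n → ℕ} (h : ∀ j < w, lab u j = lab v j) :
    col M D w u = col M D w v := by
  have h1 : Q M D w u = Q M D w v := by
    unfold Q
    refine sum_congr rfl (fun j hj => ?_)
    rw [h j (mem_range.1 hj)]
  have h2 : par M D w u = par M D w v := by
    funext jl
    unfold par
    rw [h jl.1 jl.1.2]
  unfold col code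
  rw [h1, h2]

/-- The triple structure: `p` and `q` are opposite points of the set of changing coordinates. -/
def Triple (p y q : Fin n → ℕ) : Prop :=
  (∀ i, (p i = y i ∧ q i = y i) ∨ (p i = 2 ∧ y i = 1 ∧ q i = 0) ∨ (p i = 0 ∧ y i = 1 ∧ q i = 2)) ∧
  p ≠ q

theorem Triple.lab_add {p y q : Fin n → ℕ} (h : Triple p y q) (j : ℕ) :
    2 * lab y j = lab p j + lab q j := by
  unfold lab
  rw [mul_sum, ← sum_add_distrib]
  refine sum_congr rfl (fun i _ => ?_)
  rcases h.1 i with ⟨h1, h2⟩ | ⟨h1, h2, h3⟩ | ⟨h1, h2, h3⟩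
  · rw [h1, h2]; ring
  · rw [h1, h2, h3]; ring
  · rw [h1, h2, h3]; ring

theorem Triple.supp_eq {p y q : Fin n → ℕ} (h : Triple p y q) :
    supp p = supp q ∧ supp p = supp y + (univ.filter (fun i => p i ≠ q i)).card := by
  constructor
  · unfold supp
    congr 1
    ext i
    simp only [mem_filter, mem_univ, true_and]
    rcases h.1 i with ⟨h1, h2⟩ | ⟨h1, h2, h3⟩ | ⟨h1, h2, h3⟩
    · rw [h1, h2]
    · rw [h1, h3]; simp
    · rw [h1, h3]; simp
  · unfold supp
    rw [← card_union_of_disjoint]
    · congr 1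
      ext i
      simp only [mem_filter, mem_univ, true_and, mem_union]
      rcases h.1 i with ⟨h1, h2⟩ | ⟨h1, h2, h3⟩ | ⟨h1, h2, h3⟩
      · rw [h1, h2]; simp
      · rw [h1, h2, h3]; simp
      · rw [h1, h2, h3]; simp
    · rw [disjoint_left]
      intro i hi hi'
      simp only [mem_filter, mem_univ, true_and] at hi hi'
      rcases h.1 i with ⟨h1, h2⟩ | ⟨h1, h2, h3⟩ | ⟨h1, h2, h3⟩
      · rw [h1, h2] at hi'; exact hi' rfl
      · exact hi h2
      · exact hi h2

theorem Triple.card_pos {p y q : Fin n → ℕ} (h : Triple p y q) :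
    0 < (univ.filter (fun i => p i ≠ q i)).card := by
  rw [Finset.card_pos]
  by_contra hcon
  rw [not_nonempty_iff_eq_empty, filter_eq_empty_iff] at hcon
  exact h.2 (funext fun i => by simpa using hcon (mem_univ i))

/-- Vandermonde: equal labels force many changing coordinates. -/
theorem Triple.big {p y q : Fin n → ℕ} (h : Triple p y q) {w : ℕ}
    (hl : ∀ j < w, lab p j = lab q j) : w < (univ.filter (fun i => p i ≠ q i)).card := by
  by_contra hcon
  push Not at hcon
  set R := univ.filter (fun i : Fin n => p i ≠ q i) with hR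
  set r := R.card with hr
  have hpos := h.card_pos
  rw [← hR] at hpos
  set e := R.orderEmbOfFin hr.symm with he
  have hsum : ∀ j < w, ∑ a : Fin r, ((p (e a) : ℤ) - (q (e a) : ℤ)) * ((e a : ℕ) : ℤ) ^ j = 0 := by
    intro j hj
    have h1 := hl j hj
    have h2 : ∑ i : Fin n, ((p i : ℤ) - (q i : ℤ)) * ((i : ℕ) : ℤ) ^ j = 0 := by
      have : ((lab p j : ℕ) : ℤ) = ((lab q j : ℕ) : ℤ) := by rw [h1]
      unfold lab at this
      push_cast at this
      rw [← sub_eq_zero, ← sum_sub_distrib] at this
      rw [← this]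
      refine sum_congr rfl (fun i _ => by ring)
    have h3 : ∑ i ∈ R, ((p i : ℤ) - (q i : ℤ)) * ((i : ℕ) : ℤ) ^ j = 0 := by
      rw [← h2]
      refine sum_subset (subset_univ _) ?_
      intro i _ hi
      rw [hR] at hi
      simp only [mem_filter, mem_univ, true_and, not_not] at hi
      rw [hi]; simp
    have h4 : R = univ.map e.toEmbedding := by
      ext i
      simp only [mem_map, mem_univ, true_and]
      constructor
      · intro hi
        have : i ∈ Set.range e := by
          rw [he, R.range_orderEmbOfFin hr.symm]; exact hi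
        obtain ⟨a, ha⟩ := this
        exact ⟨a, ha⟩
      · rintro ⟨a, ha⟩
        rw [← ha]
        exact R.orderEmbOfFin_mem hr.symm a
    rw [h4, sum_map] at h3
    exact h3
  have hinj : Function.Injective (fun a : Fin r => (((e a : Fin n) : ℕ) : ℤ)) := by
    intro a b hab
    have : (e a : ℕ) = (e b : ℕ) := by
      have h0 : (((e a : Fin n) : ℕ) : ℤ) = (((e b : Fin n) : ℕ) : ℤ) := hab
      exact_mod_cast h0
    exact e.injective (Fin.ext this)
  have hv := Matrix.eq_zero_of_forall_pow_sum_mul_pow_eq_zero hinj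
    (v := fun a : Fin r => (p (e a) : ℤ) - (q (e a) : ℤ)) (fun j => hsum j (by omega))
  have ha := congrFun hv ⟨0, hpos⟩
  simp only [Pi.zero_apply] at ha
  have hmem := R.orderEmbOfFin_mem hr.symm ⟨0, hpos⟩
  rw [← he, hR] at hmem
  simp only [mem_filter, mem_univ, true_and] at hmem
  apply hmem
  have : (p (e ⟨0, hpos⟩) : ℤ) = (q (e ⟨0, hpos⟩) : ℤ) := by linarith
  exact_mod_cast this

theorem Q_lt {M D w : ℕ} {p y q : Fin n → ℕ} (h : Triple p y q)
    (hp : ∀ j < w, lab p j < M ^ D) (hq : ∀ j < w, lab q j < M ^ D)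
    (hpar : par M D w p = par M D w q) (hQ : Q M D w p = Q M D w q)
    (hne : ∃ j < w, lab p j ≠ lab q j) : Q M D w y < Q M D w p := by
  have hpar' : ∀ j < w, ∀ l < D, dig M (lab p j) l % 2 = dig M (lab q j) l % 2 := by
    intro j hj l hl
    have := congrFun hpar (⟨j, hj⟩, ⟨l, hl⟩)
    unfold par at this
    simp only [decide_eq_decide] at this
    omega
  have hmid : ∀ j < w, ∀ l < D, 2 * dig M (lab y j) l = dig M (lab p j) l + dig M (lab q j) l :=
    fun j hj => dig_mid D _ _ _ (hp j hj) (hq j hj) (hpar' j hj) (h.lab_add j)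
  -- work with sums over a product
  have hQs : ∀ u : Fin n → ℕ, Q M D w u = ∑ jl ∈ range w ×ˢ range D, (dig M (lab u jl.1) jl.2) ^ 2 := by
    intro u
    unfold Q
    rw [sum_product]
  have hle : ∀ jl ∈ range w ×ˢ range D, 2 * (dig M (lab y jl.1) jl.2) ^ 2 ≤
      (dig M (lab p jl.1) jl.2) ^ 2 + (dig M (lab q jl.1) jl.2) ^ 2 := by
    intro jl hjl
    rw [mem_product, mem_range, mem_range] at hjl
    have := hmid jl.1 hjl.1 jl.2 hjl.2
    zify at this ⊢
    nlinarith [sq_nonneg ((dig M (lab p jl.1) jl.2 : ℤ) - (dig M (lab q jl.1) jl.2 : ℤ))]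
  obtain ⟨j, hj, hnej⟩ := hne
  have hex : ∃ l < D, dig M (lab p j) l ≠ dig M (lab q j) l := by
    by_contra hcon
    push Not at hcon
    exact hnej (digits_inj D _ _ (hp j hj) (hq j hj) hcon)
  obtain ⟨l, hl, hnel⟩ := hex
  have hlt : 2 * ∑ jl ∈ range w ×ˢ range D, (dig M (lab y jl.1) jl.2) ^ 2 <
      ∑ jl ∈ range w ×ˢ range D, ((dig M (lab p jl.1) jl.2) ^ 2 +
        (dig M (lab q jl.1) jl.2) ^ 2) := by
    rw [mul_sum]
    refine sum_lt_sum hle ⟨(j, l), by simp [hj, hl], ?_⟩
    have := hmid j hj l hl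
    simp only
    have hne2 : (dig M (lab p j) l : ℤ) - (dig M (lab q j) l : ℤ) ≠ 0 := by
      intro h0
      apply hnel
      have : (dig M (lab p j) l : ℤ) = (dig M (lab q j) l : ℤ) := by linarith
      exact_mod_cast this
    have hpos := pow_pos (lt_of_le_of_ne (abs_nonneg _) (abs_ne_zero.2 hne2).symm) 2
    rw [sq_abs] at hpos
    zify at this ⊢
    nlinarith
  rw [sum_add_distrib, ← hQs, ← hQs, ← hQs, ← hQ] at hlt
  omega

theorem no_triple {M D w : ℕ} (hw : 0 < w) {p y q : Fin n → ℕ} (h : Triple p y q)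
    (hp : ∀ j < w, lab p j < M ^ D) (hq : ∀ j < w, lab q j < M ^ D)
    (hFq : F M D w p / w = F M D w q / w) (hFy : F M D w p / w = F M D w y / w) : False := by
  have hs := h.supp_eq
  have hrpos := h.card_pos
  set r := (univ.filter (fun i => p i ≠ q i)).card with hr
  -- windows
  have hwin : ∀ A B : ℕ, A / w = B / w → A < B + w := by
    intro A B hAB
    have h1 := Nat.div_add_mod A w
    have h2 := Nat.div_add_mod B w
    have h3 := Nat.mod_lt A hw
    rw [hAB] at h1
    omega
  have k1 := hwin _ _ hFq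
  have k2 := hwin _ _ hFq.symm
  have k3 := hwin _ _ hFy
  unfold F at k1 k2 k3
  have hcol : col M D w p = col M D w q := by
    rcases lt_trichotomy (col M D w p) (col M D w q) with hlt | heq | hlt
    · exfalso
      have : w * (col M D w p + 1) ≤ w * col M D w q := Nat.mul_le_mul_left _ hlt
      rw [mul_add, mul_one] at this
      omega
    · exact heq
    · exfalso
      have : w * (col M D w q + 1) ≤ w * col M D w p := Nat.mul_le_mul_left _ hlt
      rw [mul_add, mul_one] at this
      omega
  by_cases hlab : ∀ j < w, lab p j = lab q j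
  · have hbig := h.big hlab
    rw [← hr] at hbig
    have hy : ∀ j < w, lab p j = lab y j := by
      intro j hj
      have := h.lab_add j
      rw [← hlab j hj] at this
      omega
    have := col_of_lab (M := M) (D := D) hy
    rw [this] at k3
    omega
  · push Not at hlab
    have hkpos : 0 < kap D w := lt_of_le_of_lt (Nat.zero_le _) (code_lt M D w p)
    have hQeq : Q M D w p = Q M D w q := by
      have h1 : col M D w p / kap D w = Q M D w p := by
        unfold col
        rw [Nat.mul_add_div hkpos, Nat.div_eq_of_lt (code_lt M D w p), add_zero]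
      have h2 : col M D w q / kap D w = Q M D w q := by
        unfold col
        rw [Nat.mul_add_div hkpos, Nat.div_eq_of_lt (code_lt M D w q), add_zero]
      rw [← h1, ← h2, hcol]
    have hcode : code M D w p = code M D w q := by
      have h1 : col M D w p % kap D w = code M D w p := by
        unfold col
        rw [Nat.mul_add_mod, Nat.mod_eq_of_lt (code_lt M D w p)]
      have h2 : col M D w q % kap D w = code M D w q := by
        unfold col
        rw [Nat.mul_add_mod, Nat.mod_eq_of_lt (code_lt M D w q)]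
      rw [← h1, ← h2, hcol]
    have hlt := Q_lt h hp hq (par_of_code hcode) hQeq hlab
    have hc : col M D w y + 1 ≤ col M D w p := by
      have h1 : kap D w * (Q M D w y + 1) ≤ kap D w * Q M D w p := Nat.mul_le_mul_left _ hlt
      have h2 := code_lt M D w y
      unfold col
      rw [mul_add, mul_one] at h1
      omega
    have : w * (col M D w y + 1) ≤ w * col M D w p := Nat.mul_le_mul_left _ hc
    rw [mul_add, mul_one] at this
    omega

end Pool.Agent.Helper431.Moser
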