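import Pool.Agent.Helper431.Moser1

set_option autoImplicit false
open Finset

namespace Pool.Agent.Helper431.Moser

theorem second_moment (k : ℕ) (Y : Fin k → ℝ) (hY : ∑ a, Y a = 0) (n : ℕ) : ∀ z : ℝ,
    (k : ℝ) * ∑ x : Fin n → Fin k, (z + ∑ i, Y (x i)) ^ 2 =
      (k : ℝ) ^ n * (k * z ^ 2 + n * ∑ a, Y a ^ 2) := by
  induction n with
  | zero =>
    intro z
    simp
  | succ n ih =>
    intro z
    rw [← (Fin.consEquiv (fun _ : Fin (n + 1) => Fin k)).sum_comp, Fintype.sum_prod_type]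
    have h1 : ∀ a : Fin k, ∑ x : Fin n → Fin k,
        (z + ∑ i, Y ((Fin.consEquiv (fun _ : Fin (n + 1) => Fin k)) (a, x) i)) ^ 2 =
        ∑ x : Fin n → Fin k, ((z + Y a) + ∑ i, Y (x i)) ^ 2 := by
      intro a
      refine sum_congr rfl (fun x _ => ?_)
      rw [Fin.sum_univ_succ]
      simp only [Fin.consEquiv_apply, Fin.cons_zero, Fin.cons_succ]
      ring
    rw [sum_congr rfl (fun a _ => h1 a), mul_sum, sum_congr rfl (fun a _ => ih (z + Y a)),
      ← mul_sum, sum_add_distrib]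
    have h2 : ∑ a : Fin k, (k : ℝ) * (z + Y a) ^ 2 = k * (k * z ^ 2 + ∑ a, Y a ^ 2) := by
      have : ∀ a : Fin k, (k : ℝ) * (z + Y a) ^ 2 = k * z ^ 2 + (2 * k * z) * Y a + k * Y a ^ 2 := by
        intro a; ring
      have e1 : ∑ a : Fin k, (2 * (k : ℝ) * z) * Y a = 0 := by rw [← mul_sum, hY, mul_zero]
      have e2 : ∑ a : Fin k, (k : ℝ) * Y a ^ 2 = k * ∑ a, Y a ^ 2 := by rw [← mul_sum]
      rw [sum_congr rfl (fun a _ => this a), sum_add_distrib, sum_add_distrib, e1, e2,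
        sum_const, card_univ, Fintype.card_fin, nsmul_eq_mul]
      ring
    rw [h2, sum_const, card_univ, Fintype.card_fin, nsmul_eq_mul]
    push_cast
    ring

def tt (k : ℕ) (a : Fin k) : ℕ := if a.val = 0 then 2 else if a.val + 1 = k then 0 else 1

def uu {n k : ℕ} (x : Fin n → Fin k) : Fin n → ℕ := fun i => tt k (x i)

theorem uu_le {n k : ℕ} (x : Fin n → Fin k) (i : Fin n) : uu x i ≤ 2 := by
  unfold uu tt; split_ifs <;> omega

theorem card_ends {k : ℕ} (hk : 3 ≤ k) : (univ.filter (fun a : Fin k => tt k a ≠ 1)).card = 2 := by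
  have : univ.filter (fun a : Fin k => tt k a ≠ 1) =
      {(⟨0, by omega⟩ : Fin k), (⟨k - 1, by omega⟩ : Fin k)} := by
    ext a
    simp only [mem_filter, mem_univ, true_and, mem_insert, mem_singleton]
    unfold tt
    constructor
    · intro h
      split_ifs at h with h1 h2
      · left; exact Fin.ext h1
      · right; exact Fin.ext (by simp only; omega)
      · exact absurd rfl h
    · rintro (h | h)
      · rw [h]; simp
      · rw [h]
        simp only
        rw [if_neg (by omega), if_pos (by omega)]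
        simp
  rw [this, card_pair]
  intro h
  have := congrArg Fin.val h
  simp only at this
  omega

/-- most points have the right number of extreme coordinates -/
theorem typical {k : ℕ} (hk : 3 ≤ k) (n h : ℕ) (hh : n < h ^ 2) :
    (k : ℝ) ^ n ≤ 2 * ((univ.filter (fun x : Fin n → Fin k =>
      k * supp (uu x) < 2 * n + 2 * k * h ∧ 2 * n < k * supp (uu x) + 2 * k * h)).card : ℝ) := by
  set T := univ.filter (fun x : Fin n → Fin k =>
      k * supp (uu x) < 2 * n + 2 * k * h ∧ 2 * n < k * supp (uu x) + 2 * k * h) with hT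
  set Y : Fin k → ℝ := fun a => if tt k a ≠ 1 then (k : ℝ) - 2 else -2 with hYd
  have hkR : (3 : ℝ) ≤ k := by exact_mod_cast hk
  have hcount : ∀ c d : ℝ, ∑ a : Fin k, (if tt k a ≠ 1 then c else d) = 2 * c + (k - 2) * d := by
    intro c d
    rw [sum_ite, sum_const, sum_const, card_ends hk, nsmul_eq_mul, nsmul_eq_mul]
    have h1 := Finset.card_filter_add_card_filter_not (s := (univ : Finset (Fin k)))
      (fun a => tt k a ≠ 1)
    rw [card_ends hk, card_univ, Fintype.card_fin] at h1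
    have h2 : ((univ.filter (fun a : Fin k => ¬ (tt k a ≠ 1))).card : ℝ) = k - 2 := by
      have : (2 : ℝ) + ((univ.filter (fun a : Fin k => ¬ (tt k a ≠ 1))).card : ℝ) = k := by
        exact_mod_cast h1
      linarith
    rw [h2]; norm_num
  have hY : ∑ a, Y a = 0 := by
    rw [hYd, hcount]; ring
  have hV : ∑ a, Y a ^ 2 = 2 * k * (k - 2) := by
    have : ∀ a : Fin k, Y a ^ 2 = if tt k a ≠ 1 then ((k : ℝ) - 2) ^ 2 else 4 := by
      intro a
      simp only [hYd]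
      split_ifs <;> norm_num
    rw [sum_congr rfl (fun a _ => this a), hcount]; ring
  have hsm := second_moment k Y hY n 0
  rw [hV] at hsm
  have hkpos : (0 : ℝ) < k := by linarith
  have hsum : ∑ x : Fin n → Fin k, ((k : ℝ) * supp (uu x) - 2 * n) ^ 2 =
      (k : ℝ) ^ n * (n * (2 * (k - 2))) := by
    have h1 : ∀ x : Fin n → Fin k, (k : ℝ) * supp (uu x) - 2 * n = 0 + ∑ i, Y (x i) := by
      intro x
      have h2 : ∀ i, Y (x i) = (k : ℝ) * (if tt k (x i) ≠ 1 then (1 : ℝ) else 0) - 2 := by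
        intro i
        simp only [hYd]
        split_ifs <;> ring
      rw [sum_congr rfl (fun i _ => h2 i), sum_sub_distrib, ← mul_sum, sum_boole, sum_const,
        card_univ, Fintype.card_fin, nsmul_eq_mul]
      unfold supp uu
      ring
    rw [sum_congr rfl (fun x _ => by rw [h1 x])]
    have h3 : (k : ℝ) * ∑ x : Fin n → Fin k, (0 + ∑ i, Y (x i)) ^ 2 =
        k * ((k : ℝ) ^ n * (n * (2 * (k - 2)))) := by
      rw [hsm]; ring
    exact mul_left_cancel₀ hkpos.ne' h3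
  -- Markov
  have hcompl : (((univ.filter (fun x : Fin n → Fin k => ¬ (k * supp (uu x) < 2 * n + 2 * k * h ∧
      2 * n < k * supp (uu x) + 2 * k * h))).card : ℝ)) * (4 * k ^ 2 * h ^ 2) ≤
      (k : ℝ) ^ n * (n * (2 * (k - 2))) := by
    rw [← hsum, ← nsmul_eq_mul, ← sum_const]
    refine (sum_le_sum ?_).trans (sum_le_sum_of_subset_of_nonneg (filter_subset _ _)
      (fun _ _ _ => sq_nonneg _))
    intro x hx
    rw [mem_filter] at hx
    have hx2 := hx.2
    rw [not_and_or, not_lt, not_lt] at hx2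
    have e : (4 * (k : ℝ) ^ 2 * h ^ 2) = (2 * k * h) ^ 2 := by ring
    rw [e]
    have hnn : (0 : ℝ) ≤ 2 * k * h := by positivity
    rcases hx2 with h1 | h1
    · have h2 : (2 * (n : ℝ) + 2 * k * h) ≤ k * supp (uu x) := by exact_mod_cast h1
      exact pow_le_pow_left₀ hnn (by linarith) 2
    · have h2 : (k : ℝ) * supp (uu x) + 2 * k * h ≤ 2 * n := by exact_mod_cast h1
      rw [← neg_sq ((k : ℝ) * supp (uu x) - 2 * n)]
      exact pow_le_pow_left₀ hnn (by linarith) 2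
  have hpart := Finset.card_filter_add_card_filter_not (s := (univ : Finset (Fin n → Fin k)))
      (fun x => k * supp (uu x) < 2 * n + 2 * k * h ∧ 2 * n < k * supp (uu x) + 2 * k * h)
  rw [card_univ, Fintype.card_fun, Fintype.card_fin, Fintype.card_fin] at hpart
  have hpartR : (T.card : ℝ) + ((univ.filter (fun x : Fin n → Fin k => ¬ (k * supp (uu x) <
      2 * n + 2 * k * h ∧ 2 * n < k * supp (uu x) + 2 * k * h))).card : ℝ) = (k : ℝ) ^ n := by
    exact_mod_cast hpart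
  set Z : ℝ := ((univ.filter (fun x : Fin n → Fin k => ¬ (k * supp (uu x) <
      2 * n + 2 * k * h ∧ 2 * n < k * supp (uu x) + 2 * k * h))).card : ℝ) with hZ
  have hnh : (n : ℝ) ≤ (h : ℝ) ^ 2 := by exact_mod_cast hh.le
  have hh2 : (0 : ℝ) < (h : ℝ) ^ 2 := by
    have : 0 < h ^ 2 := lt_of_le_of_lt (Nat.zero_le _) hh
    exact_mod_cast this
  have hP : (0 : ℝ) ≤ (k : ℝ) ^ n := by positivity
  have h5 : Z * (4 * k ^ 2 * h ^ 2) ≤ ((k : ℝ) ^ n / 2) * (4 * k ^ 2 * h ^ 2) := by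
    refine hcompl.trans ?_
    have h6 : (n : ℝ) * (2 * (k - 2)) ≤ h ^ 2 * (2 * k ^ 2) := by
      apply mul_le_mul hnh _ (by linarith) hh2.le
      nlinarith
    calc (k : ℝ) ^ n * (n * (2 * (k - 2))) ≤ (k : ℝ) ^ n * (h ^ 2 * (2 * k ^ 2)) :=
          mul_le_mul_of_nonneg_left h6 hP
      _ = ((k : ℝ) ^ n / 2) * (4 * k ^ 2 * h ^ 2) := by ring
  have h7 : Z ≤ (k : ℝ) ^ n / 2 := le_of_mul_le_mul_right h5 (by positivity)
  linarith

theorem col_le {n M D w : ℕ} (hM : 0 < M) (u : Fin n → ℕ) :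
    col M D w u < kap D w * (w * D * M ^ 2) + kap D w := by
  have hQ : Q M D w u ≤ w * D * M ^ 2 := by
    unfold Q
    have h1 : ∀ j ∈ range w, ∑ l ∈ range D, (dig M (lab u j) l) ^ 2 ≤ D * M ^ 2 := by
      intro j _
      have h2 : ∀ l ∈ range D, (dig M (lab u j) l) ^ 2 ≤ M ^ 2 := by
        intro l _
        exact Nat.pow_le_pow_left (Nat.mod_lt _ hM).le 2
      have := sum_le_sum h2
      rwa [sum_const, card_range, smul_eq_mul] at this
    have := sum_le_sum h1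
    rw [sum_const, card_range, smul_eq_mul] at this
    rw [mul_assoc]; exact this
  have h3 := code_lt M D w u
  have h4 : kap D w * Q M D w u ≤ kap D w * (w * D * M ^ 2) := Nat.mul_le_mul_left _ hQ
  unfold col
  omega

theorem lab_lt {n w : ℕ} (hn : 0 < n) (hw : 0 < w) {M : ℕ} (hM : 2 * n < M ^ 8) {k : ℕ}
    (x : Fin n → Fin k) (j : ℕ) (hj : j < w) : lab (uu x) j < M ^ (8 * w) := by
  have h1 : lab (uu x) j ≤ n * (2 * n ^ (w - 1)) := by
    unfold lab
    have : ∀ i ∈ (univ : Finset (Fin n)), uu x i * (i : ℕ) ^ j ≤ 2 * n ^ (w - 1) := by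
      intro i _
      apply Nat.mul_le_mul (uu_le x i)
      exact (Nat.pow_le_pow_left i.2.le j).trans (Nat.pow_le_pow_right hn (by omega))
    have := sum_le_sum this
    rwa [sum_const, card_univ, Fintype.card_fin, smul_eq_mul] at this
  have h2 : n * (2 * n ^ (w - 1)) ≤ (2 * n) ^ w := by
    obtain ⟨v, rfl⟩ : ∃ v, w = v + 1 := ⟨w - 1, by omega⟩
    rw [Nat.add_sub_cancel, mul_pow, pow_succ, pow_succ]
    have : 1 ≤ 2 ^ v := Nat.one_le_two_pow
    nlinarith [Nat.zero_le (n ^ v * n)]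
  have h3 : (2 * n) ^ w < (M ^ 8) ^ w := Nat.pow_lt_pow_left hM (by omega)
  rw [pow_mul]
  omega

theorem final_ineq {c : ℝ} (hc : 0 < c) {w κ q n : ℕ} (hw0 : 0 < w) (hw16 : 16 * c ≤ w)
    (hAq : 2 + 16 * c + 8 * c * κ * (32 * (w : ℝ) ^ 2 + 1) ≤ q) (hq1 : q ^ 8 ≤ 2 * n) :
    2 * c * ((4 * (Nat.sqrt n + 1) / w + 2 + (κ * (w * (8 * w) * (q + 1) ^ 2) + κ) : ℕ) : ℝ) ≤
      Real.sqrt n := by
  have hq1R : (q : ℝ) ^ 8 ≤ 2 * n := by exact_mod_cast hq1
  have hs2 : Real.sqrt n ^ 2 = n := Real.sq_sqrt (Nat.cast_nonneg n)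
  have hR0 : 0 ≤ Real.sqrt n := Real.sqrt_nonneg _
  have hhR : ((Nat.sqrt n : ℕ) : ℝ) ≤ Real.sqrt n := Real.nat_sqrt_le_real_sqrt
  generalize Real.sqrt n = R at *
  have hq4 : (q : ℝ) ^ 4 ≤ 2 * R := by
    have h8 : ((q : ℝ) ^ 4) ^ 2 ≤ (2 * R) ^ 2 := by
      have e : ((q : ℝ) ^ 4) ^ 2 = (q : ℝ) ^ 8 := by ring
      have : (0 : ℝ) ≤ n := Nat.cast_nonneg n
      rw [e, mul_pow, hs2]
      linarith
    exact (pow_le_pow_iff_left₀ (by positivity) (by positivity) (by norm_num)).1 h8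
  have hκ0 : (0 : ℝ) ≤ κ := Nat.cast_nonneg _
  have hwR : (0 : ℝ) < w := by exact_mod_cast hw0
  have hA2 : 2 ≤ 2 + 16 * c + 8 * c * κ * (32 * (w : ℝ) ^ 2 + 1) := by
    have : 0 ≤ 8 * c * κ * (32 * (w : ℝ) ^ 2 + 1) := by positivity
    linarith
  have hq1' : (1 : ℝ) ≤ q := by linarith
  have hqsq : (1 : ℝ) ≤ (q : ℝ) ^ 2 := by nlinarith
  have hdiv : ((4 * (Nat.sqrt n + 1) / w : ℕ) : ℝ) ≤ 4 * (Nat.sqrt n + 1) / w := by
    have := @Nat.cast_div_le ℝ _ _ _ (4 * (Nat.sqrt n + 1)) w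
    push_cast at this
    exact this
  have h1 : 2 * c * ((4 * (Nat.sqrt n + 1) / w : ℕ) : ℝ) ≤ (R + 1) / 2 := by
    have h2 : 2 * c * ((4 * (Nat.sqrt n + 1) / w : ℕ) : ℝ) ≤ 2 * c * (4 * (Nat.sqrt n + 1) / w) :=
      mul_le_mul_of_nonneg_left hdiv (by positivity)
    have h3 : 2 * c * (4 * ((Nat.sqrt n : ℝ) + 1) / w) = (8 * c / w) * ((Nat.sqrt n : ℝ) + 1) := by
      ring
    have h4 : 8 * c / w ≤ 1 / 2 := by
      rw [div_le_div_iff₀ hwR (by norm_num)]; linarith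
    have h5 : (8 * c / w) * ((Nat.sqrt n : ℝ) + 1) ≤ (1 / 2) * ((Nat.sqrt n : ℝ) + 1) :=
      mul_le_mul_of_nonneg_right h4 (by positivity)
    linarith
  have hCmR : (κ : ℝ) * (w * (8 * w) * (q + 1) ^ 2) + κ ≤ κ * (32 * w ^ 2 * q ^ 2 + 1) := by
    have h6 : ((q : ℝ) + 1) ^ 2 ≤ 4 * q ^ 2 := by nlinarith
    have h7 : (w : ℝ) * (8 * w) * (q + 1) ^ 2 ≤ 32 * w ^ 2 * q ^ 2 := by
      have : (w : ℝ) * (8 * w) * (q + 1) ^ 2 ≤ (w : ℝ) * (8 * w) * (4 * q ^ 2) :=
        mul_le_mul_of_nonneg_left h6 (by positivity)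
      linarith
    have h8 : (κ : ℝ) * ((w : ℝ) * (8 * w) * (q + 1) ^ 2) ≤ κ * (32 * w ^ 2 * q ^ 2) :=
      mul_le_mul_of_nonneg_left h7 hκ0
    linarith
  have h9 : 2 + 16 * c + 8 * c * κ * (32 * w ^ 2 * q ^ 2 + 1) ≤ (q : ℝ) ^ 4 := by
    have e1 : 2 + 16 * c + 8 * c * κ * (32 * (w : ℝ) ^ 2 * q ^ 2 + 1) ≤
        (2 + 16 * c + 8 * c * κ * (32 * (w : ℝ) ^ 2 + 1)) * q ^ 2 := by
      have e2 : (0 : ℝ) ≤ (2 + 16 * c + 8 * c * κ) * (q ^ 2 - 1) :=
        mul_nonneg (by positivity) (by linarith)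
      have e5 : (2 + 16 * c + 8 * c * κ * (32 * (w : ℝ) ^ 2 + 1)) * (q : ℝ) ^ 2 =
        2 + 16 * c + 8 * c * κ * (32 * (w : ℝ) ^ 2 * q ^ 2 + 1) +
          (2 + 16 * c + 8 * c * κ) * (q ^ 2 - 1) := by ring
      linarith
    have e3 : (2 + 16 * c + 8 * c * κ * (32 * (w : ℝ) ^ 2 + 1)) * (q : ℝ) ^ 2 ≤ q * q ^ 2 :=
      mul_le_mul_of_nonneg_right hAq (by positivity)
    have e4 : (q : ℝ) * q ^ 2 ≤ q ^ 4 := by
      have : (q : ℝ) ^ 4 = q * q ^ 2 * q := by ring
      rw [this]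
      exact le_mul_of_one_le_right (by positivity) hq1'
    linarith
  have h10 : 2 * c * ((κ : ℝ) * (w * (8 * w) * (q + 1) ^ 2) + κ) ≤
      2 * c * (κ * (32 * w ^ 2 * q ^ 2 + 1)) :=
    mul_le_mul_of_nonneg_left hCmR (by positivity)
  push_cast at h1 ⊢
  have h11 : 2 * c * (((4 * (Nat.sqrt n + 1) / w : ℕ) : ℝ) + 2 +
      ((κ : ℝ) * (w * (8 * w) * (q + 1) ^ 2) + κ)) =
      2 * c * ((4 * (Nat.sqrt n + 1) / w : ℕ) : ℝ) + 4 * c +
      2 * c * ((κ : ℝ) * (w * (8 * w) * (q + 1) ^ 2) + κ) := by ring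
  have h12 : 2 * c * ((κ : ℝ) * (32 * w ^ 2 * q ^ 2 + 1)) =
      (8 * c * κ * (32 * w ^ 2 * q ^ 2 + 1)) / 4 := by ring
  rw [h11]
  linarith

/-- The dense family: for every `c` there is, for all large `n`, a set of at least
`c k^n / sqrt n` points without triples. -/
theorem exists_dense {k : ℕ} (hk : 3 ≤ k) (c : ℝ) (hc : 0 < c) : ∃ N : ℕ, ∀ n : ℕ, N ≤ n →
    ∃ S : Finset (Fin n → Fin k), c * (k : ℝ) ^ n / Real.sqrt (n : ℝ) ≤ (S.card : ℝ) ∧
      ∀ x ∈ S, ∀ y ∈ S, ∀ z ∈ S, ¬ Triple (uu x) (uu y) (uu z) := by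
  obtain ⟨w, hw16⟩ := exists_nat_ge (16 * c)
  have hw0 : 0 < w := by
    have : (0 : ℝ) < w := by linarith
    exact_mod_cast this
  set D := 8 * w with hD
  set κ := kap D w with hκ
  set A : ℝ := 2 + 16 * c + 8 * c * κ * (32 * w ^ 2 + 1) with hA
  obtain ⟨q0, hq0⟩ := exists_nat_ge A
  refine ⟨q0 ^ 8 + 1, fun n hn => ?_⟩
  have hn0 : 0 < n := by omega
  -- choice of q
  obtain ⟨q, hq1, hq2⟩ : ∃ q : ℕ, q ^ 8 ≤ 2 * n ∧ 2 * n < (q + 1) ^ 8 := by
    have hex : ∃ m : ℕ, 2 * n < (m + 1) ^ 8 := ⟨2 * n, by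
      have : 2 * n + 1 ≤ (2 * n + 1) ^ 8 := Nat.le_self_pow (by norm_num) _
      omega⟩
    refine ⟨Nat.find hex, ?_, Nat.find_spec hex⟩
    rcases Nat.eq_zero_or_pos (Nat.find hex) with h0 | h0
    · rw [h0]; simp
    · have := Nat.find_min hex (m := Nat.find hex - 1) (by omega)
      rw [Nat.sub_add_cancel h0] at this
      omega
  have hqq0 : q0 ≤ q := by
    by_contra hlt
    push Not at hlt
    have : (q + 1) ^ 8 ≤ q0 ^ 8 := Nat.pow_le_pow_left hlt 8
    omega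
  set M := q + 1 with hM
  set h := Nat.sqrt n + 1 with hh
  have hnh : n < h ^ 2 := by
    have := Nat.lt_succ_sqrt n
    rw [pow_two]; exact this
  set T := univ.filter (fun x : Fin n → Fin k =>
      k * supp (uu x) < 2 * n + 2 * k * h ∧ 2 * n < k * supp (uu x) + 2 * k * h) with hT
  have htyp := typical hk n h hnh
  rw [← hT] at htyp
  have hkpos : (0 : ℝ) < (k : ℝ) := by
    have : (3 : ℝ) ≤ k := by exact_mod_cast hk
    linarith
  have hkn : (0 : ℝ) < (k : ℝ) ^ n := pow_pos hkpos n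
  have hTne : T.Nonempty := by
    rw [← Finset.card_pos]
    have : (0 : ℝ) < T.card := by linarith
    exact_mod_cast this
  obtain ⟨x0, hx0, hmin⟩ := Finset.exists_min_image T (fun x => supp (uu x)) hTne
  set s0 := supp (uu x0) with hs0
  set Cm := κ * (w * D * M ^ 2) + κ with hCm
  set B := 4 * h / w + 2 + Cm with hB
  have hmaps : ∀ x ∈ T, F M D w (uu x) / w ∈ Finset.Ico (s0 / w) (s0 / w + B) := by
    intro x hx
    have h1 := hmin x hx
    have hxT := hx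
    rw [hT, mem_filter] at hx hx0
    have h2 : k * supp (uu x) < k * (s0 + 4 * h) := by
      have := hx.2.1
      have := hx0.2.2
      rw [← hs0] at this
      have e : k * (s0 + 4 * h) = k * s0 + 2 * k * h + 2 * k * h := by ring
      omega
    have h3 : supp (uu x) < s0 + 4 * h := Nat.lt_of_mul_lt_mul_left h2
    have h4 := col_le (M := M) (D := D) (w := w) (by omega) (uu x)
    rw [← hκ, ← hCm] at h4
    rw [mem_Ico]
    constructor
    · apply Nat.div_le_div_right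
      unfold F
      omega
    · apply Nat.div_lt_of_lt_mul
      unfold F
      have e1 := Nat.div_add_mod s0 w
      have e2 := Nat.mod_lt s0 hw0
      have e3 := Nat.div_add_mod (4 * h) w
      have e4 := Nat.mod_lt (4 * h) hw0
      have e5 : w * col M D w (uu x) ≤ w * Cm := Nat.mul_le_mul_left _ h4.le
      have e6 : w * (s0 / w + B) = w * (s0 / w) + w * (4 * h / w) + w + w + w * Cm := by
        rw [hB]; ring
      omega
  -- pigeonhole
  set b : ℝ := c * (k : ℝ) ^ n / Real.sqrt n with hb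
  have hsn : (0 : ℝ) < Real.sqrt n := Real.sqrt_pos.2 (by exact_mod_cast hn0)
  have hBle : 2 * c * B ≤ Real.sqrt n := by
    have := final_ineq hc hw0 hw16 (κ := κ) (hq0.trans (by exact_mod_cast hqq0)) hq1
    rw [hB, hCm, hD, hM, hh]
    exact this
  have hpig : ∃ m ∈ Finset.Ico (s0 / w) (s0 / w + B), b ≤
      ((T.filter (fun x => F M D w (uu x) / w = m)).card : ℝ) := by
    apply Finset.exists_le_card_fiber_of_nsmul_le_card_of_maps_to hmaps
    · rw [Finset.nonempty_Ico]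
      have hBpos : 0 < B := by rw [hB]; positivity
      exact Nat.lt_add_of_pos_right hBpos
    · rw [Nat.card_Ico, Nat.add_sub_cancel_left, nsmul_eq_mul, hb]
      have h2 : (B : ℝ) * (c * (k : ℝ) ^ n / Real.sqrt n) = (2 * c * B / Real.sqrt n) *
          ((k : ℝ) ^ n / 2) := by ring
      have h3 : 2 * c * B / Real.sqrt n ≤ 1 := by
        rw [div_le_one hsn]; exact hBle
      have h4 : (2 * c * B / Real.sqrt n) * ((k : ℝ) ^ n / 2) ≤ 1 * ((k : ℝ) ^ n / 2) :=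
        mul_le_mul_of_nonneg_right h3 (by positivity)
      rw [h2]
      linarith
  obtain ⟨m, _, hm⟩ := hpig
  refine ⟨T.filter (fun x => F M D w (uu x) / w = m), hm, ?_⟩
  intro x hx y hy z hz htr
  rw [mem_filter] at hx hy hz
  have hlab : ∀ (x : Fin n → Fin k), ∀ j < w, lab (uu x) j < M ^ D := fun x j hj =>
    lab_lt hn0 hw0 hq2 x j hj
  exact no_triple hw0 htr (hlab x) (hlab z) (hx.2.trans hz.2.symm) (hx.2.trans hy.2.symm)

end Pool.Agent.Helper431.Moser
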