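import Pool.Agent.Helper431.Moser2

set_option autoImplicit false
open Finset

namespace Pool.Agent.Helper431.Moser

/-- `k` collinear points of the grid contain a triple. -/
theorem triple_of_collinear {n k : ℕ} (hk : 3 ≤ k) (T : Finset (Fin n → Fin k)) (hT : T.card = k)
    (hcol : Collinear ℝ ((fun (x : Fin n → Fin k) (i : Fin n) => (((x i : ℕ)) : ℝ)) ''
              (T : Set (Fin n → Fin k)))) :
    ∃ p ∈ T, ∃ y ∈ T, ∃ q ∈ T, Triple (uu p) (uu y) (uu q) := by
  obtain ⟨z, d, hd⟩ := (collinear_iff_exists_forall_eq_smul_vadd _).1 hcol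
  have h1 : ∀ x ∈ T, ∃ τ : ℝ, ∀ i, (((x i : ℕ)) : ℝ) = τ * d i + z i := by
    intro x hx
    obtain ⟨τ, hτ⟩ := hd _ ⟨x, hx, rfl⟩
    refine ⟨τ, fun i => ?_⟩
    have := congrFun hτ i
    simpa using this
  choose! τ hτ using h1
  obtain ⟨x, hx, x', hx', hne⟩ := Finset.one_lt_card.1 (show 1 < T.card by omega)
  obtain ⟨i0, hi0⟩ : ∃ i, x i ≠ x' i := Function.ne_iff.1 hne
  have hd0 : d i0 ≠ 0 := by
    intro h0
    apply hi0
    have e1 := hτ x hx i0
    have e2 := hτ x' hx' i0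
    rw [h0, mul_zero] at e1 e2
    have : (((x i0 : ℕ)) : ℝ) = ((x' i0 : ℕ) : ℝ) := by rw [e1, e2]
    exact Fin.ext (by exact_mod_cast this)
  have hinj : Set.InjOn (fun x : Fin n → Fin k => x i0) T := by
    intro u hu v hv huv
    simp only at huv
    have e1 := hτ u hu i0
    have e2 := hτ v hv i0
    rw [huv] at e1
    have e3 : τ u * d i0 = τ v * d i0 := by linarith
    have e4 := mul_right_cancel₀ hd0 e3
    funext i
    have f1 := hτ u hu i
    have f2 := hτ v hv i
    rw [e4] at f1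
    have : (((u i : ℕ)) : ℝ) = ((v i : ℕ) : ℝ) := by rw [f1, f2]
    exact Fin.ext (by exact_mod_cast this)
  have hsurj : T.image (fun x : Fin n → Fin k => x i0) = univ := by
    apply Finset.eq_univ_of_card
    rw [Finset.card_image_of_injOn hinj, hT, Fintype.card_fin]
  have hex : ∀ a : Fin k, ∃ x ∈ T, x i0 = a := by
    intro a
    have : a ∈ T.image (fun x : Fin n → Fin k => x i0) := by rw [hsurj]; exact mem_univ a
    obtain ⟨x, hx, hxa⟩ := mem_image.1 this
    exact ⟨x, hx, hxa⟩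
  obtain ⟨p, hp, hp0⟩ := hex ⟨0, by omega⟩
  obtain ⟨y, hy, hy0⟩ := hex ⟨1, by omega⟩
  obtain ⟨q, hq, hq0⟩ := hex ⟨k - 1, by omega⟩
  have key : ∀ i, ((q i : ℕ) : ℤ) - (p i : ℕ) = ((k : ℤ) - 1) * (((y i : ℕ) : ℤ) - (p i : ℕ)) := by
    intro i
    have a1 := hτ p hp i0
    have a2 := hτ y hy i0
    have a3 := hτ q hq i0
    have b1 := hτ p hp i
    have b2 := hτ y hy i
    have b3 := hτ q hq i
    rw [hp0] at a1
    rw [hy0] at a2
    rw [hq0] at a3
    simp only [Nat.cast_zero, Nat.cast_one] at a1 a2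
    have hk1 : ((k - 1 : ℕ) : ℝ) = (k : ℝ) - 1 := by
      rw [Nat.cast_sub (by omega)]; simp
    simp only [hk1] at a3
    have c1 : (τ y - τ p) * d i0 = 1 := by linarith
    have c2 : (τ q - τ p) * d i0 = (k : ℝ) - 1 := by linarith
    have c3 : (τ q - τ p) = ((k : ℝ) - 1) * (τ y - τ p) := by
      have : (τ q - τ p) * d i0 = (((k : ℝ) - 1) * (τ y - τ p)) * d i0 := by
        rw [c2, mul_assoc, c1, mul_one]
      exact mul_right_cancel₀ hd0 this
    have c4 : (((q i : ℕ)) : ℝ) - ((p i : ℕ) : ℝ) = ((k : ℝ) - 1) * (((y i : ℕ) : ℝ) -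
        ((p i : ℕ) : ℝ)) := by
      rw [b1, b2, b3]
      have : τ q * d i + z i - (τ p * d i + z i) = (τ q - τ p) * d i := by ring
      rw [this, c3]; ring
    exact_mod_cast c4
  refine ⟨p, hp, y, hy, q, hq, ?_, ?_⟩
  · intro i
    have hki := key i
    have lp := (p i).2
    have ly := (y i).2
    have lq := (q i).2
    have hkZ : (3 : ℤ) ≤ k := by exact_mod_cast hk
    -- cases on y - p
    have hcases : ((y i : ℕ) : ℤ) - (p i : ℕ) = 0 ∨ ((y i : ℕ) : ℤ) - (p i : ℕ) = 1 ∨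
        ((y i : ℕ) : ℤ) - (p i : ℕ) = -1 := by
      by_contra hcon
      push Not at hcon
      obtain ⟨n0, n1, n2⟩ := hcon
      have lq' : ((q i : ℕ) : ℤ) < k := by exact_mod_cast lq
      have lp' : ((p i : ℕ) : ℤ) < k := by exact_mod_cast lp
      have q0' : (0 : ℤ) ≤ ((q i : ℕ) : ℤ) := Int.natCast_nonneg _
      have p0' : (0 : ℤ) ≤ ((p i : ℕ) : ℤ) := Int.natCast_nonneg _
      set D : ℤ := ((y i : ℕ) : ℤ) - (p i : ℕ) with hD
      rcases lt_or_gt_of_ne n0 with h | h
      · have : D ≤ -2 := by omega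
        nlinarith
      · have : 2 ≤ D := by omega
        nlinarith
    unfold uu
    rcases hcases with h | h | h
    · left
      rw [h, mul_zero] at hki
      have e1 : (y i) = p i := Fin.ext (by omega)
      have e2 : (q i) = p i := Fin.ext (by omega)
      rw [e1, e2]
      exact ⟨rfl, rfl⟩
    · right; left
      rw [h, mul_one] at hki
      have e1 : (p i : ℕ) = 0 := by omega
      have e2 : (y i : ℕ) = 1 := by omega
      have e3 : (q i : ℕ) + 1 = k := by omega
      unfold tt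
      rw [e1, e2, if_pos rfl, if_neg (by omega), if_neg (by omega), if_neg (by omega), if_pos e3]
      exact ⟨rfl, rfl, rfl⟩
    · right; right
      rw [h] at hki
      have e1 : (q i : ℕ) = 0 := by omega
      have e2 : (p i : ℕ) + 1 = k := by omega
      have e3 : (y i : ℕ) + 2 = k := by omega
      unfold tt
      rw [if_neg (by omega), if_pos e2, if_neg (by omega), if_neg (by omega), if_pos e1]
      exact ⟨rfl, rfl, rfl⟩
  · intro heq
    have := congrFun heq i0
    unfold uu tt at this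
    rw [hp0, hq0] at this
    simp only [if_true] at this
    rw [if_neg (by omega), if_pos (by omega)] at this
    omega

theorem lineFree {k : ℕ} (hk : 3 ≤ k) (c : ℝ) (hc : 0 < c) : ∃ N : ℕ, ∀ n : ℕ, N ≤ n →
    ∃ S : Finset (Fin n → Fin k), c * (k : ℝ) ^ n / Real.sqrt (n : ℝ) ≤ (S.card : ℝ) ∧
      ∀ T : Finset (Fin n → Fin k), T ⊆ S → T.card = k →
          ¬ Collinear ℝ ((fun (x : Fin n → Fin k) (i : Fin n) => (((x i : ℕ)) : ℝ)) ''
              (T : Set (Fin n → Fin k))) := by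
  obtain ⟨N, hN⟩ := exists_dense hk c hc
  refine ⟨N, fun n hn => ?_⟩
  obtain ⟨S, hS, hfree⟩ := hN n hn
  refine ⟨S, hS, fun T hTS hTk hcol => ?_⟩
  obtain ⟨p, hp, y, hy, q, hq, htr⟩ := triple_of_collinear hk T hTk hcol
  exact hfree p (hTS hp) y (hTS hy) q (hTS hq) htr

end Pool.Agent.Helper431.Moser
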