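import Mathlib

set_option autoImplicit false
set_option linter.dupNamespace false
open Finset Classical

namespace Pool.Agent.Helper431.NBC

section conn
variable {V ι : Type*}

/-- `x` and `y` are joined by a path using edges from `F`, where the edge `i` joins `a i` and
`b i`. -/
def Conn (a b : ι → V) (F : Finset ι) : V → V → Prop :=
  Relation.EqvGen (fun x y => ∃ i ∈ F, a i = x ∧ b i = y)

variable {a b : ι → V} {F F' : Finset ι} {x y z : V} {i : ι}

theorem Conn.refl (x : V) : Conn a b F x x := Relation.EqvGen.refl _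
theorem Conn.symm (h : Conn a b F x y) : Conn a b F y x := Relation.EqvGen.symm _ _ h
theorem Conn.trans (h : Conn a b F x y) (h' : Conn a b F y z) : Conn a b F x z :=
  Relation.EqvGen.trans _ _ _ h h'
theorem Conn.edge (h : i ∈ F) : Conn a b F (a i) (b i) := Relation.EqvGen.rel _ _ ⟨i, h, rfl, rfl⟩
theorem Conn.mono (hF : F ⊆ F') (h : Conn a b F x y) : Conn a b F' x y :=
  Relation.EqvGen.mono (fun _ _ ⟨i, hi, h⟩ => ⟨i, hF hi, h⟩) _ _ h

theorem conn_induct {P : V → V → Prop} (hr : ∀ x, P x x) (hs : ∀ x y, P x y → P y x)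
    (ht : ∀ x y z, P x y → P y z → P x z) (hi : ∀ i ∈ F, P (a i) (b i))
    (h : Conn a b F x y) : P x y := by
  induction h with
  | rel x y h => obtain ⟨i, hiF, rfl, rfl⟩ := h; exact hi i hiF
  | refl x => exact hr x
  | symm x y _ ih => exact hs _ _ ih
  | trans x y z _ _ ih1 ih2 => exact ht _ _ _ ih1 ih2

theorem conn_insert : Conn a b (insert i F) x y ↔
    Conn a b F x y ∨ (Conn a b F x (a i) ∧ Conn a b F (b i) y) ∨
      (Conn a b F x (b i) ∧ Conn a b F (a i) y) := by
  constructor
  · intro h
    refine conn_induct (P := fun x y => Conn a b F x y ∨ (Conn a b F x (a i) ∧ Conn a b F (b i) y) ∨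
      (Conn a b F x (b i) ∧ Conn a b F (a i) y)) ?_ ?_ ?_ ?_ h
    · intro x; exact Or.inl (Conn.refl x)
    · rintro x y (h | ⟨h1, h2⟩ | ⟨h1, h2⟩)
      · exact Or.inl h.symm
      · exact Or.inr (Or.inr ⟨h2.symm, h1.symm⟩)
      · exact Or.inr (Or.inl ⟨h2.symm, h1.symm⟩)
    · rintro x y z (h | ⟨h1, h2⟩ | ⟨h1, h2⟩) (k | ⟨k1, k2⟩ | ⟨k1, k2⟩)
      · exact Or.inl (h.trans k)
      · exact Or.inr (Or.inl ⟨h.trans k1, k2⟩)
      · exact Or.inr (Or.inr ⟨h.trans k1, k2⟩)
      · exact Or.inr (Or.inl ⟨h1, h2.trans k⟩)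
      · exact Or.inr (Or.inl ⟨h1, k2⟩)
      · exact Or.inl (h1.trans k2)
      · exact Or.inr (Or.inr ⟨h1, h2.trans k⟩)
      · exact Or.inl (h1.trans k2)
      · exact Or.inr (Or.inr ⟨h1, k2⟩)
    · intro j hj
      rcases Finset.mem_insert.1 hj with rfl | hj
      · exact Or.inr (Or.inl ⟨Conn.refl _, Conn.refl _⟩)
      · exact Or.inl (Conn.edge hj)
  · have hs : F ⊆ insert i F := Finset.subset_insert _ _
    have he : Conn a b (insert i F) (a i) (b i) := Conn.edge (Finset.mem_insert_self _ _)
    rintro (h | ⟨h1, h2⟩ | ⟨h1, h2⟩)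
    · exact h.mono hs
    · exact (h1.mono hs).trans (he.trans (h2.mono hs))
    · exact (h1.mono hs).trans (he.symm.trans (h2.mono hs))

theorem conn_insert_of_conn (h : Conn a b F (a i) (b i)) :
    Conn a b (insert i F) x y ↔ Conn a b F x y := by
  rw [conn_insert]
  constructor
  · rintro (h' | ⟨h1, h2⟩ | ⟨h1, h2⟩)
    · exact h'
    · exact h1.trans (h.trans h2)
    · exact h1.trans (h.symm.trans h2)
  · exact Or.inl

theorem conn_empty : Conn a b (∅ : Finset ι) x y ↔ x = y := by
  constructor
  · intro h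
    exact conn_induct (P := fun x y => x = y) (fun _ => rfl) (fun _ _ h => h.symm)
      (fun _ _ _ h h' => h.trans h') (by simp) h
  · rintro rfl; exact Conn.refl _

/-- toggle membership of `i` in `F` -/
noncomputable def tog (i : ι) (F : Finset ι) : Finset ι := if i ∈ F then F.erase i else insert i F

theorem tog_tog (i : ι) (F : Finset ι) : tog i (tog i F) = F := by
  unfold tog
  by_cases h : i ∈ F
  · simp [h]
  · simp [h]

theorem tog_ne (i : ι) (F : Finset ι) : tog i F ≠ F := by
  unfold tog
  by_cases h : i ∈ F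
  · simp [h]
  · simp [h]

theorem neg_one_pow_tog (i : ι) (F : Finset ι) : (-1 : ℤ) ^ (tog i F).card = - (-1) ^ F.card := by
  unfold tog
  by_cases h : i ∈ F
  · have : F.card = (F.erase i).card + 1 := (Finset.card_erase_add_one h).symm
    simp only [h, if_true]
    rw [this, pow_succ]; ring
  · simp only [h, if_false]
    rw [Finset.card_insert_of_notMem h, pow_succ]; ring

theorem conn_tog (h : Conn a b (F.erase i) (a i) (b i)) :
    Conn a b (tog i F) x y ↔ Conn a b F x y := by
  unfold tog
  by_cases hi : i ∈ F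
  · simp only [hi, if_true]
    conv_rhs => rw [← Finset.insert_erase hi]
    exact (conn_insert_of_conn h).symm
  · simp only [hi, if_false]
    rw [Finset.erase_eq_of_notMem hi] at h
    exact conn_insert_of_conn h

end conn

section minima
variable {V ι : Type*} [Fintype V] {a b : ι → V} {κ : V → ℕ}

/-- the `κ`-smallest vertices of the components of `F` -/
noncomputable def Mn (a b : ι → V) (κ : V → ℕ) (F : Finset ι) : Finset V :=
  univ.filter (fun z => ∀ y, Conn a b F z y → κ z ≤ κ y)

theorem mem_Mn {F : Finset ι} {z : V} : z ∈ Mn a b κ F ↔ ∀ y, Conn a b F z y → κ z ≤ κ y := by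
  simp [Mn]

theorem exists_Mn (F : Finset ι) (x : V) : ∃ p ∈ Mn a b κ F, Conn a b F x p := by
  obtain ⟨p, hp, hmin⟩ := Finset.exists_min_image (univ.filter (fun y => Conn a b F x y)) κ
    ⟨x, by simp [Conn.refl]⟩
  simp only [mem_filter, mem_univ, true_and] at hp hmin
  exact ⟨p, mem_Mn.2 (fun y hy => hmin y (hp.trans hy)), hp⟩

theorem card_Mn_insert (hκ : Function.Injective κ) {F : Finset ι} {i : ι}
    (h : ¬ Conn a b F (a i) (b i)) :
    (Mn a b κ (insert i F)).card + 1 = (Mn a b κ F).card := by
  obtain ⟨p, hp, hap⟩ := exists_Mn (a := a) (b := b) (κ := κ) F (a i)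
  obtain ⟨q, hq, hbq⟩ := exists_Mn (a := a) (b := b) (κ := κ) F (b i)
  have hpq : p ≠ q := by
    rintro rfl; exact h (hap.trans hbq.symm)
  rw [mem_Mn] at hp hq
  set m : V := if κ p ≤ κ q then q else p with hm
  have hmM : m ∈ Mn a b κ F := by
    rw [hm]; split_ifs
    · exact mem_Mn.2 hq
    · exact mem_Mn.2 hp
  have key : Mn a b κ (insert i F) = (Mn a b κ F).erase m := by
    ext z
    rw [Finset.mem_erase, mem_Mn, mem_Mn]
    constructor
    · intro hz
      refine ⟨?_, fun y hy => hz y (conn_insert.2 (Or.inl hy))⟩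
      rintro rfl
      rw [hm] at hz
      split_ifs at hz with hle
      · have := hz p (conn_insert.2 (Or.inr (Or.inr ⟨hbq.symm, hap⟩)))
        exact hpq (hκ (le_antisymm hle this))
      · have := hz q (conn_insert.2 (Or.inr (Or.inl ⟨hap.symm, hbq⟩)))
        exact hle this
    · rintro ⟨hne, hz⟩ y hy
      rcases conn_insert.1 hy with h1 | ⟨h1, h2⟩ | ⟨h1, h2⟩
      · exact hz y h1
      · -- z ~ a i so z = p
        have hzp : z = p := hκ (le_antisymm (hz p (h1.trans hap)) (hp z (h1.trans hap).symm))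
        subst hzp
        have hq' : κ q ≤ κ y := hq y (hbq.symm.trans h2)
        by_contra hcon
        apply hne
        rw [hm, if_neg]
        intro hle; exact hcon (hle.trans hq')
      · have hzq : z = q := hκ (le_antisymm (hz q (h1.trans hbq)) (hq z (h1.trans hbq).symm))
        subst hzq
        have hp' : κ p ≤ κ y := hp y (hap.symm.trans h2)
        by_contra hcon
        apply hne
        rw [hm, if_pos]
        by_contra hle
        exact hcon (by omega)
  rw [key, Finset.card_erase_add_one hmM]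

/-- No edge `i ∈ E` has its ends joined by smaller edges of `F`. -/
def NBC (a b : ι → V) (E : Finset ι) (ρ : ι → ℕ) (F : Finset ι) : Prop :=
  ∀ i ∈ E, ¬ Conn a b (F.filter (fun j => ρ j < ρ i)) (a i) (b i)

omit [Fintype V] in
theorem NBC.mono {E F F' : Finset ι} {ρ : ι → ℕ} (h : F ⊆ F') (hF : NBC a b E ρ F') :
    NBC a b E ρ F := fun i hi hc =>
  hF i hi (hc.mono (Finset.filter_subset_filter _ h))

theorem card_add_card_Mn (hκ : Function.Injective κ) {E : Finset ι} {ρ : ι → ℕ}
    (hρ : Set.InjOn ρ E) {F : Finset ι} (hFE : F ⊆ E) (hF : NBC a b E ρ F) :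
    F.card + (Mn a b κ F).card = Fintype.card V := by
  revert hFE hF
  refine Finset.induction_on_max_value ρ (motive := fun F => F ⊆ E → NBC a b E ρ F →
    F.card + (Mn a b κ F).card = Fintype.card V) F ?_ ?_
  · intro _ _
    have : Mn a b κ (∅ : Finset ι) = univ := by
      ext z; simp only [mem_Mn, conn_empty, mem_univ, iff_true]
      rintro y rfl; exact le_rfl
    simp [this]
  · intro i s his hmax ih hsE hN
    have hiE : i ∈ E := hsE (mem_insert_self _ _)
    have hsE' : s ⊆ E := (subset_insert _ _).trans hsE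
    have ih' := ih hsE' (hN.mono (subset_insert _ _))
    have hnc : ¬ Conn a b s (a i) (b i) := by
      intro hc
      apply hN i hiE
      refine hc.mono ?_
      intro j hj
      rw [mem_filter]
      refine ⟨mem_insert_of_mem hj, lt_of_le_of_ne (hmax j hj) ?_⟩
      intro he
      have := hρ (hsE' hj) hiE he
      subst this; exact his hj
    have := card_Mn_insert hκ hnc
    rw [card_insert_of_notMem his]
    omega

/-- The involution argument: for a class `P` of edge sets that depends only on connectivity, the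
number of members without broken circuits is given by a signed sum that does not see the order. -/
theorem whitney (hκ : Function.Injective κ) {E : Finset ι} {ρ : ι → ℕ}
    (hρ : Set.InjOn ρ E) (P : Finset ι → Prop)
    (hP : ∀ F F', (∀ x y, Conn a b F x y ↔ Conn a b F' x y) → (P F ↔ P F')) :
    ∑ F ∈ E.powerset.filter P, (-1 : ℤ) ^ (F.card + (Mn a b κ F).card) =
      (-1) ^ (Fintype.card V) * ((E.powerset.filter (fun F => P F ∧ NBC a b E ρ F)).card : ℤ) := by
  have hsplit := Finset.sum_filter_add_sum_filter_not (E.powerset.filter P) (fun F => NBC a b E ρ F)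
    (fun F => (-1 : ℤ) ^ (F.card + (Mn a b κ F).card))
  rw [← hsplit, Finset.filter_filter, Finset.filter_filter]
  have h1 : ∑ F ∈ E.powerset.filter (fun F => P F ∧ NBC a b E ρ F),
      (-1 : ℤ) ^ (F.card + (Mn a b κ F).card) = (-1) ^ (Fintype.card V) *
        ((E.powerset.filter (fun F => P F ∧ NBC a b E ρ F)).card : ℤ) := by
    rw [Finset.sum_congr rfl (g := fun _ => (-1 : ℤ) ^ (Fintype.card V))]
    · simp [mul_comm]
    · intro F hF
      rw [mem_filter, mem_powerset] at hF
      rw [card_add_card_Mn hκ hρ hF.1 hF.2.2]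
  rw [h1]
  -- T F
  set T : Finset ι → Finset ι := fun F => E.filter (fun i =>
    Conn a b (F.filter (fun j => ρ j < ρ i)) (a i) (b i)) with hT
  have hTne : ∀ F, ¬ NBC a b E ρ F → ∃ i ∈ T F, ∀ j ∈ T F, ρ j ≤ ρ i := by
    intro F hF
    apply Finset.exists_max_image
    unfold NBC at hF
    push Not at hF
    obtain ⟨i, hi, hc⟩ := hF
    exact ⟨i, by rw [hT]; simp only [mem_filter]; exact ⟨hi, hc⟩⟩
  have key : ∀ F i, i ∈ T F → (∀ x y, Conn a b (tog i F) x y ↔ Conn a b F x y) ∧
      i ∈ T (tog i F) ∧ (∀ j, ρ i < ρ j → (j ∈ T (tog i F) ↔ j ∈ T F)) := by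
    intro F i hi
    rw [hT] at hi
    simp only [mem_filter] at hi
    obtain ⟨hiE, hc⟩ := hi
    have hsub : ∀ F' : Finset ι, F.filter (fun j => ρ j < ρ i) ⊆ F' →
        Conn a b (F'.erase i) (a i) (b i) := by
      intro F' hF'
      refine hc.mono ?_
      intro j hj
      rw [mem_erase]
      refine ⟨?_, hF' hj⟩
      rintro rfl
      simp at hj
    have hfilt : ∀ j, ρ i < ρ j → (tog i F).filter (fun l => ρ l < ρ j) =
        tog i (F.filter (fun l => ρ l < ρ j)) := by
      intro j hj
      unfold tog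
      by_cases hiF : i ∈ F
      · have : i ∈ F.filter (fun l => ρ l < ρ j) := by simp [hiF, hj]
        rw [if_pos hiF, if_pos this]
        ext l; simp only [mem_filter, mem_erase]; tauto
      · have : i ∉ F.filter (fun l => ρ l < ρ j) := by simp [hiF]
        rw [if_neg hiF, if_neg this]
        ext l; simp only [mem_filter, mem_insert]
        constructor
        · rintro ⟨h | h, h'⟩
          · exact Or.inl h
          · exact Or.inr ⟨h, h'⟩
        · rintro (h | ⟨h, h'⟩)
          · subst h; exact ⟨Or.inl rfl, hj⟩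
          · exact ⟨Or.inr h, h'⟩
    refine ⟨fun x y => conn_tog (hsub F (filter_subset _ _)), ?_, ?_⟩
    · rw [hT]; simp only [mem_filter]
      refine ⟨hiE, ?_⟩
      have : (tog i F).filter (fun l => ρ l < ρ i) = F.filter (fun l => ρ l < ρ i) := by
        unfold tog
        split_ifs
        · ext l; simp only [mem_filter, mem_erase]
          constructor
          · rintro ⟨⟨_, h⟩, h'⟩; exact ⟨h, h'⟩
          · rintro ⟨h, h'⟩; refine ⟨⟨?_, h⟩, h'⟩; rintro rfl; exact lt_irrefl _ h'
        · ext l; simp only [mem_filter, mem_insert]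
          constructor
          · rintro ⟨h | h, h'⟩
            · subst h; exact absurd h' (lt_irrefl _)
            · exact ⟨h, h'⟩
          · rintro ⟨h, h'⟩; exact ⟨Or.inr h, h'⟩
      rw [this]; exact hc
    · intro j hj
      rw [hT]; simp only [mem_filter]
      rw [hfilt j hj, conn_tog]
      apply hsub
      intro l hl
      rw [mem_filter] at hl ⊢
      exact ⟨hl.1, hl.2.trans hj⟩
  have h2 : ∑ F ∈ E.powerset.filter (fun F => P F ∧ ¬ NBC a b E ρ F),
      (-1 : ℤ) ^ (F.card + (Mn a b κ F).card) = 0 := by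
    have hmem : ∀ F ∈ E.powerset.filter (fun F => P F ∧ ¬ NBC a b E ρ F), ¬ NBC a b E ρ F :=
      fun F hF => (mem_filter.1 hF).2.2
    have hT2 : ∀ F i, i ∈ T F → (∀ j ∈ T F, ρ j ≤ ρ i) → (∀ j ∈ T (tog i F), ρ j ≤ ρ i) := by
      intro F i hi hmax j hj
      by_contra hlt
      push Not at hlt
      exact absurd (hmax j (((key F i hi).2.2 j hlt).1 hj)) (not_le.2 hlt)
    have hTE : ∀ F i, i ∈ T F → i ∈ E := by
      intro F i hi; rw [hT] at hi; exact (mem_filter.1 hi).1
    have hNT : ∀ F i, i ∈ T F → ¬ NBC a b E ρ (tog i F) := by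
      intro F i hi hN
      have h3 := (key F i hi).2.1
      rw [hT] at h3
      simp only [mem_filter] at h3
      exact hN i h3.1 h3.2
    refine Finset.sum_involution
      (fun F hF => tog (hTne F (hmem F hF)).choose F) ?_ ?_ ?_ ?_
    · intro F hF
      obtain ⟨hi, hmax⟩ := (hTne F (hmem F hF)).choose_spec
      set i := (hTne F (hmem F hF)).choose
      have hM : Mn a b κ (tog i F) = Mn a b κ F := by
        ext z; rw [mem_Mn, mem_Mn]
        exact forall_congr' (fun y => by rw [(key F i hi).1])
      rw [hM, pow_add, pow_add, neg_one_pow_tog]; ring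
    · intro F hF _
      exact tog_ne _ _
    · intro F hF
      obtain ⟨hi, hmax⟩ := (hTne F (hmem F hF)).choose_spec
      set i := (hTne F (hmem F hF)).choose
      rw [mem_filter, mem_powerset] at hF ⊢
      refine ⟨?_, (hP _ _ (key F i hi).1).2 hF.2.1, ?_⟩
      · unfold tog
        split_ifs
        · exact (erase_subset _ _).trans hF.1
        · exact insert_subset (hTE F i hi) hF.1
      · exact hNT F i hi
    · intro F hF
      have hFm := (mem_filter.1 hF)
      obtain ⟨hi, hmax⟩ := (hTne F (hmem F hF)).choose_spec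
      have hgen : ∀ hF' : ¬ NBC a b E ρ (tog (hTne F (hmem F hF)).choose F),
          (hTne _ hF').choose = (hTne F (hmem F hF)).choose := by
        intro hF'
        obtain ⟨hi', hmax'⟩ := (hTne _ hF').choose_spec
        apply hρ (hTE _ _ hi') (hTE _ _ hi)
        exact le_antisymm (hT2 F _ hi hmax _ hi') (hmax' _ (key F _ hi).2.1)
      rw [hgen (hNT F _ hi), tog_tog]
  rw [h2, add_zero]

theorem card_NBC_indep (hκ : Function.Injective κ) {E : Finset ι} {ρ ρ' : ι → ℕ}
    (hρ : Set.InjOn ρ E) (hρ' : Set.InjOn ρ' E) (P : Finset ι → Prop)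
    (hP : ∀ F F', (∀ x y, Conn a b F x y ↔ Conn a b F' x y) → (P F ↔ P F')) :
    (E.powerset.filter (fun F => P F ∧ NBC a b E ρ F)).card =
      (E.powerset.filter (fun F => P F ∧ NBC a b E ρ' F)).card := by
  have h1 := whitney hκ hρ P hP
  have h2 := whitney hκ hρ' P hP
  rw [h1] at h2
  have h3 : ((-1 : ℤ)) ^ (Fintype.card V) ≠ 0 := pow_ne_zero _ (by norm_num)
  exact_mod_cast mul_left_cancel₀ h3 h2

end minima

end Pool.Agent.Helper431.NBC
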