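import Pool.Agent.Helper431.NBC1

set_option autoImplicit false
set_option linter.dupNamespace false
open Finset Classical

namespace Pool.Agent.Helper431.NBC

section split
variable {V ι : Type*} (a b : ι → V) (z : V)

def sa : ι → Option V := fun i => some (a i)
noncomputable def sb : ι → Option V := fun i => if b i = z then none else some (b i)

variable {a b z} {F : Finset ι}

theorem split_conn_of_conn (hF : ∀ i ∈ F, b i ≠ z) {x y : V} (h : Conn a b F x y) :
    Conn (sa a) (sb b z) F (some x) (some y) := by
  refine conn_induct (P := fun x y => Conn (sa a) (sb b z) F (some x) (some y))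
    (fun x => Conn.refl _) (fun x y h => h.symm) (fun x y w h h' => h.trans h') ?_ h
  intro i hi
  have := Conn.edge (a := sa a) (b := sb b z) hi
  simpa [sa, sb, hF i hi] using this

theorem split_conn (hF : ∀ i ∈ F, b i ≠ z) {u w : Option V} (h : Conn (sa a) (sb b z) F u w) :
    (u = none ∧ w = none) ∨ ∃ x y, u = some x ∧ w = some y ∧ Conn a b F x y := by
  refine conn_induct (P := fun u w => (u = none ∧ w = none) ∨ ∃ x y, u = some x ∧ w = some y ∧
    Conn a b F x y) ?_ ?_ ?_ ?_ h
  · rintro (_ | x)
    · exact Or.inl ⟨rfl, rfl⟩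
    · exact Or.inr ⟨x, x, rfl, rfl, Conn.refl x⟩
  · rintro u w (⟨h1, h2⟩ | ⟨x, y, h1, h2, h3⟩)
    · exact Or.inl ⟨h2, h1⟩
    · exact Or.inr ⟨y, x, h2, h1, h3.symm⟩
  · rintro u w v (⟨h1, h2⟩ | ⟨x, y, h1, h2, h3⟩) (⟨k1, k2⟩ | ⟨x', y', k1, k2, k3⟩)
    · exact Or.inl ⟨h1, k2⟩
    · rw [h2] at k1; exact absurd k1 (by simp)
    · rw [h2] at k1; exact absurd k1 (by simp)
    · rw [h2] at k1
      obtain rfl := Option.some_injective _ k1
      exact Or.inr ⟨x, y', h1, k2, h3.trans k3⟩
  · intro i hi
    refine Or.inr ⟨a i, b i, rfl, ?_, Conn.edge hi⟩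
    simp [sb, hF i hi]

theorem split_conn_some (hF : ∀ i ∈ F, b i ≠ z) {x y : V} :
    Conn (sa a) (sb b z) F (some x) (some y) ↔ Conn a b F x y := by
  constructor
  · intro h
    rcases split_conn hF h with ⟨h1, _⟩ | ⟨x', y', h1, h2, h3⟩
    · exact absurd h1 (by simp)
    · obtain rfl := Option.some_injective _ h1
      obtain rfl := Option.some_injective _ h2
      exact h3
  · exact split_conn_of_conn hF

theorem split_not_conn_none (hF : ∀ i ∈ F, b i ≠ z) {y : V} :
    ¬ Conn (sa a) (sb b z) F none (some y) := by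
  intro h
  rcases split_conn hF h with ⟨_, h2⟩ | ⟨x', y', h1, h2, h3⟩
  · exact absurd h2 (by simp)
  · exact absurd h1 (by simp)

theorem merge_conn {x y : V} (h : Conn a b F x y) :
    Conn (sa a) (sb b z) F (some x) (some y) ∨
    (Conn (sa a) (sb b z) F (some x) (some z) ∧ Conn (sa a) (sb b z) F none (some y)) ∨
    (Conn (sa a) (sb b z) F (some x) none ∧ Conn (sa a) (sb b z) F (some z) (some y)) := by
  refine conn_induct (P := fun x y => Conn (sa a) (sb b z) F (some x) (some y) ∨
    (Conn (sa a) (sb b z) F (some x) (some z) ∧ Conn (sa a) (sb b z) F none (some y)) ∨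
    (Conn (sa a) (sb b z) F (some x) none ∧ Conn (sa a) (sb b z) F (some z) (some y)))
    ?_ ?_ ?_ ?_ h
  · intro x; exact Or.inl (Conn.refl _)
  · rintro x y (h | ⟨h1, h2⟩ | ⟨h1, h2⟩)
    · exact Or.inl h.symm
    · exact Or.inr (Or.inr ⟨h2.symm, h1.symm⟩)
    · exact Or.inr (Or.inl ⟨h2.symm, h1.symm⟩)
  · rintro x y w (h | ⟨h1, h2⟩ | ⟨h1, h2⟩) (k | ⟨k1, k2⟩ | ⟨k1, k2⟩)
    · exact Or.inl (h.trans k)
    · exact Or.inr (Or.inl ⟨h.trans k1, k2⟩)
    · exact Or.inr (Or.inr ⟨h.trans k1, k2⟩)
    · exact Or.inr (Or.inl ⟨h1, h2.trans k⟩)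
    · exact Or.inr (Or.inl ⟨h1, k2⟩)
    · exact Or.inl (h1.trans k2)
    · exact Or.inr (Or.inr ⟨h1, h2.trans k⟩)
    · exact Or.inl (h1.trans k2)
    · exact Or.inr (Or.inr ⟨h1, k2⟩)
  · intro i hi
    have := Conn.edge (a := sa a) (b := sb b z) hi
    by_cases hb : b i = z
    · right; right
      rw [hb]
      refine ⟨?_, Conn.refl _⟩
      simpa [sa, sb, hb] using this
    · left
      simpa [sa, sb, hb] using this

end split

section main
variable {V ι : Type*} [Fintype V] {a b : ι → V} {κ : V → ℕ} {E : Finset ι} {ρ : ι → ℕ} {z : V}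

omit [Fintype V] in
theorem nbc_of_split (hab : ∀ i ∈ E, κ (a i) < κ (b i))
    (hbig : ∀ i ∈ E, b i = z → ∀ j ∈ E, b j ≠ z → ρ j < ρ i) {F : Finset ι} (hFE : F ⊆ E)
    (hN : NBC (sa a) (sb b z) E ρ F)
    (hQ : ∀ y : V, Conn (sa a) (sb b z) F (some z) (some y) → κ z ≤ κ y) :
    NBC a b E ρ F := by
  intro i hi hc
  by_cases hbi : b i = z
  · have h1 : ∀ w, Conn (sa a) (sb b z) (F.filter (fun j => ρ j < ρ i)) (some (a i)) w → w = some z
        → False := by
      rintro w hw rfl
      have := hQ (a i) ((hw.mono (filter_subset _ _)).symm)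
      have h2 := hab i hi
      rw [hbi] at h2
      omega
    rcases merge_conn (z := z) hc with h | ⟨h, _⟩ | ⟨h, _⟩
    · rw [hbi] at h; exact h1 _ h rfl
    · exact h1 _ h rfl
    · apply hN i hi
      have : sb b z i = none := by simp [sb, hbi]
      rw [this]; exact h
  · apply hN i hi
    have h2 : sb b z i = some (b i) := by simp [sb, hbi]
    rw [h2]
    refine split_conn_of_conn ?_ hc
    intro j hj hbj
    rw [mem_filter] at hj
    have := hbig j (hFE hj.1) hbj i hi hbi
    omega

/-- number of edges of `E` whose larger end is `z` -/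
noncomputable def dn (b : ι → V) (E : Finset ι) (z : V) : ℕ := (E.filter (fun i => b i = z)).card

theorem split_small (hab : ∀ i ∈ E, κ (a i) < κ (b i))
    (hinj : ∀ i ∈ E, ∀ j ∈ E, a i = a j → b i = b j → i = j)
    (hsm : ∀ i ∈ E, b i = z → ∀ j ∈ E, b j ≠ z → ρ i < ρ j) :
    (dn b E z + 1) * (E.powerset.filter (fun F => z ∈ Mn a b κ F ∧ NBC a b E ρ F)).card ≤
    (E.powerset.filter (fun F => (∀ y : V, Conn (sa a) (sb b z) F (some z) (some y) → κ z ≤ κ y) ∧
      NBC (sa a) (sb b z) E ρ F)).card := by
  set S := E.powerset.filter (fun F => z ∈ Mn a b κ F ∧ NBC a b E ρ F) with hS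
  set Y := E.filter (fun i => b i = z) with hY
  have hcard : (dn b E z + 1) * S.card = ((insertNone Y) ×ˢ S).card := by
    rw [card_product, card_insertNone, dn]
  have hSno : ∀ F ∈ S, ∀ i ∈ F, b i ≠ z := by
    intro F hF i hi hbi
    rw [hS, mem_filter, mem_powerset] at hF
    have h1 := mem_Mn.1 hF.2.1 (a i) (by
      have := Conn.edge (a := a) (b := b) hi
      rw [hbi] at this; exact this.symm)
    have h2 := hab i (hF.1 hi)
    rw [hbi] at h2; omega
  rw [hcard]
  set g : Option ι × Finset ι → Finset ι := fun p => match p.1 with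
    | none => p.2
    | some i => insert i p.2 with hg
  apply Finset.card_le_card_of_injOn g
  · rintro ⟨o, F⟩ hp
    rw [mem_coe, mem_product] at hp
    obtain ⟨ho, hFS⟩ := hp
    have hno := hSno F hFS
    simp only at ho hFS
    have hFS' := hFS
    rw [hS, mem_filter, mem_powerset] at hFS'
    obtain ⟨hFE, hz, hN⟩ := hFS'
    -- basic connectivity of the image
    have hlt : ∀ j ∈ E, b j = z → F.filter (fun l => ρ l < ρ j) = ∅ := by
      intro j hj hbj
      rw [filter_eq_empty_iff]
      intro l hl
      have := hsm j hj hbj l (hFE hl) (hno l hl)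
      omega
    rw [mem_coe, mem_filter, mem_powerset]
    rcases o with _ | i
    · simp only [hg]
      refine ⟨hFE, ?_, ?_⟩
      · intro y hy
        exact mem_Mn.1 hz y ((split_conn_some hno).1 hy)
      · intro j hj hc
        by_cases hbj : b j = z
        · have h2 : sb b z j = none := by simp [sb, hbj]
          rw [h2] at hc
          exact split_not_conn_none (fun l hl => hno l (mem_of_mem_filter _ hl)) hc.symm
        · have h2 : sb b z j = some (b j) := by simp [sb, hbj]
          rw [h2] at hc
          exact hN j hj ((split_conn_some (fun l hl => hno l (mem_of_mem_filter _ hl))).1 hc)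
    · simp only [hg]
      have hiY : i ∈ Y := by simpa using ho
      rw [hY, mem_filter] at hiY
      obtain ⟨hiE, hbi⟩ := hiY
      have hsbi : sb b z i = none := by simp [sb, hbi]
      have hiF : i ∉ F := fun h => hno i h hbi
      -- connectivity in insert
      have hconn : ∀ F' : Finset ι, F' ⊆ F → ∀ x y, Conn (sa a) (sb b z) (insert i F') (some x)
          (some y) ↔ Conn a b F' x y := by
        intro F' hF' x y
        have hno' : ∀ l ∈ F', b l ≠ z := fun l hl => hno l (hF' hl)
        rw [conn_insert, hsbi, split_conn_some hno']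
        constructor
        · rintro (h | ⟨_, h⟩ | ⟨h, _⟩)
          · exact h
          · exact absurd h (split_not_conn_none hno')
          · exact absurd h.symm (split_not_conn_none hno')
        · exact Or.inl
      refine ⟨insert_subset hiE hFE, ?_, ?_⟩
      · intro y hy
        exact mem_Mn.1 hz y ((hconn F (Subset.refl _) _ _).1 hy)
      · intro j hj hc
        by_cases hbj : b j = z
        · have h2 : sb b z j = none := by simp [sb, hbj]
          rw [h2, filter_insert, hlt j hj hbj] at hc
          split_ifs at hc with hlt'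
          · rw [conn_insert, hsbi, conn_empty, conn_empty, conn_empty, conn_empty] at hc
            rcases hc with h | ⟨h, _⟩ | ⟨h, _⟩
            · exact absurd h (by simp [sa])
            · have haij : a j = a i := Option.some_injective _ h
              have := hinj j hj i hiE haij (by rw [hbj, hbi])
              subst this; omega
            · exact absurd h (by simp [sa])
          · rw [conn_empty] at hc
            exact absurd hc (by simp [sa])
        · have h2 : sb b z j = some (b j) := by simp [sb, hbj]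
          rw [h2, filter_insert] at hc
          split_ifs at hc
          · exact hN j hj ((hconn _ (filter_subset _ _) _ _).1 hc)
          · exact hN j hj ((split_conn_some
              (fun l hl => hno l (mem_of_mem_filter _ hl))).1 hc)
  · rintro ⟨o, F⟩ hp ⟨o', F'⟩ hp' heq
    rw [mem_coe, mem_product] at hp hp'
    obtain ⟨ho, hF⟩ := hp
    obtain ⟨ho', hF'⟩ := hp'
    simp only at ho hF ho' hF'
    have hno := hSno F hF
    have hno' := hSno F' hF'
    have hoz : ∀ i, o = some i → b i = z := by
      rintro i rfl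
      have : i ∈ Y := by simpa using ho
      rw [hY, mem_filter] at this
      exact this.2
    have hoz' : ∀ i, o' = some i → b i = z := by
      rintro i rfl
      have : i ∈ Y := by simpa using ho'
      rw [hY, mem_filter] at this
      exact this.2
    have hgF : ∀ (o : Option ι) (F : Finset ι), (∀ i ∈ F, b i ≠ z) → (∀ i, o = some i → b i = z) →
        (g (o, F)).filter (fun i => b i ≠ z) = F ∧ ∀ i, (i ∈ (g (o, F)) ∧ b i = z ↔ o = some i) := by
      intro o F h1 h2
      rcases o with _ | j
      · simp only [hg]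
        refine ⟨filter_true_of_mem h1, ?_⟩
        intro i
        constructor
        · rintro ⟨h3, h4⟩; exact absurd h4 (h1 i h3)
        · intro h; exact absurd h (by simp)
      · simp only [hg]
        have h2j := h2 j rfl
        refine ⟨?_, ?_⟩
        · rw [filter_insert, if_neg (by simpa using h2j)]
          exact filter_true_of_mem h1
        · intro i
          rw [mem_insert]
          constructor
          · rintro ⟨rfl | h3, h4⟩
            · rfl
            · exact absurd h4 (h1 i h3)
          · intro h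
            have := Option.some_injective _ h
            subst this
            exact ⟨Or.inl rfl, h2j⟩
    have e1 := hgF o F hno hoz
    have e2 := hgF o' F' hno' hoz'
    have hFF : F = F' := by rw [← e1.1, ← e2.1, heq]
    have hoo : o = o' := by
      ext i
      have h1 := e1.2 i
      have h2 := e2.2 i
      rw [heq] at h1
      exact h1.symm.trans h2
    rw [hFF, hoo]

theorem key_ineq (hκ : Function.Injective κ) (hρ : Set.InjOn ρ E)
    (hab : ∀ i ∈ E, κ (a i) < κ (b i))
    (hinj : ∀ i ∈ E, ∀ j ∈ E, a i = a j → b i = b j → i = j) (z : V) :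
    (dn b E z + 1) * (E.powerset.filter (fun F => z ∈ Mn a b κ F ∧ NBC a b E ρ F)).card ≤
    (E.powerset.filter (fun F => NBC a b E ρ F)).card := by
  set N := E.sup ρ + 1 with hNdef
  have hlt : ∀ i ∈ E, ρ i < N := fun i hi => Nat.lt_succ_of_le (Finset.le_sup hi)
  set ρL : ι → ℕ := fun i => if b i = z then ρ i + N else ρ i with hρL
  set ρS : ι → ℕ := fun i => if b i = z then ρ i else ρ i + N with hρS
  have hLinj : Set.InjOn ρL E := by
    intro i hi j hj h
    have h1 := hlt i hi
    have h2 := hlt j hj
    simp only [hρL] at h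
    split_ifs at h
    · exact hρ hi hj (by omega)
    · omega
    · omega
    · exact hρ hi hj (by omega)
  have hSinj : Set.InjOn ρS E := by
    intro i hi j hj h
    have h1 := hlt i hi
    have h2 := hlt j hj
    simp only [hρS] at h
    split_ifs at h
    · exact hρ hi hj (by omega)
    · omega
    · omega
    · exact hρ hi hj (by omega)
  have hbig : ∀ i ∈ E, b i = z → ∀ j ∈ E, b j ≠ z → ρL j < ρL i := by
    intro i hi hbi j hj hbj
    simp only [hρL, if_pos hbi, if_neg hbj]
    have := hlt j hj; omega
  have hsm : ∀ i ∈ E, b i = z → ∀ j ∈ E, b j ≠ z → ρS i < ρS j := by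
    intro i hi hbi j hj hbj
    simp only [hρS, if_pos hbi, if_neg hbj]
    have := hlt i hi; omega
  -- order independence in the original system
  have i1 := card_NBC_indep (a := a) (b := b) hκ hρ hSinj (fun F => z ∈ Mn a b κ F) (by
    intro F F' h
    simp only [mem_Mn, h])
  have i2 := card_NBC_indep (a := a) (b := b) hκ hρ hLinj (fun _ => True) (by
    intro F F' h; exact Iff.rfl)
  simp only [true_and] at i2
  -- order independence in the split system
  set κ' : Option V → ℕ := fun o => match o with
    | none => 0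
    | some v => κ v + 1 with hκ'
  have hκ'inj : Function.Injective κ' := by
    rintro (_ | x) (_ | y) h
    · rfl
    · simp [hκ'] at h
    · simp [hκ'] at h
    · simp only [hκ', Nat.add_right_cancel_iff] at h
      rw [hκ h]
  have i3 := card_NBC_indep (a := sa a) (b := sb b z) hκ'inj hSinj hLinj
    (fun F => ∀ y : V, Conn (sa a) (sb b z) F (some z) (some y) → κ z ≤ κ y) (by
    intro F F' h
    simp only [h])
  have i1' : (E.powerset.filter (fun F => z ∈ Mn a b κ F ∧ NBC a b E ρ F)).card =
      (E.powerset.filter (fun F => z ∈ Mn a b κ F ∧ NBC a b E ρS F)).card := by convert i1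
  have i3' : (E.powerset.filter (fun F => (∀ y : V, Conn (sa a) (sb b z) F (some z) (some y) →
      κ z ≤ κ y) ∧ NBC (sa a) (sb b z) E ρS F)).card = (E.powerset.filter (fun F =>
      (∀ y : V, Conn (sa a) (sb b z) F (some z) (some y) →
      κ z ≤ κ y) ∧ NBC (sa a) (sb b z) E ρL F)).card := by convert i3
  rw [i1', i2]
  refine (split_small hab hinj hsm).trans ?_
  rw [i3']
  apply Finset.card_le_card
  intro F hF
  rw [mem_filter] at hF ⊢
  exact ⟨hF.1, nbc_of_split hab hbig (mem_powerset.1 hF.1) hF.2.2 hF.2.1⟩

omit [Fintype V] in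
theorem nbc_nonempty (hne : ∀ i ∈ E, a i ≠ b i) :
    (∅ : Finset ι) ∈ E.powerset.filter (fun F => NBC a b E ρ F) := by
  rw [mem_filter]
  refine ⟨by simp, ?_⟩
  intro i hi hc
  rw [filter_empty, conn_empty] at hc
  exact hne i hi hc

/-- The mean size of edge sets without broken circuits is at least the sum of `d/(d+1)` over the
back degrees of any vertex order. -/
theorem mean_lower (hκ : Function.Injective κ) (hρ : Set.InjOn ρ E)
    (hab : ∀ i ∈ E, κ (a i) < κ (b i))
    (hinj : ∀ i ∈ E, ∀ j ∈ E, a i = a j → b i = b j → i = j) :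
    ∑ z : V, (dn b E z : ℝ) / (dn b E z + 1) ≤
      (∑ F ∈ E.powerset.filter (fun F => NBC a b E ρ F), (F.card : ℝ)) /
        (E.powerset.filter (fun F => NBC a b E ρ F)).card := by
  set S := E.powerset.filter (fun F => NBC a b E ρ F) with hS
  have hne : ∀ i ∈ E, a i ≠ b i := by
    intro i hi h
    have := hab i hi
    rw [h] at this; exact lt_irrefl _ this
  have hSpos : 0 < (S.card : ℝ) := by
    exact_mod_cast Finset.card_pos.2 ⟨∅, nbc_nonempty hne⟩
  rw [le_div_iff₀ hSpos]
  -- sum of card F = n |S| - sum over z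
  have h1 : ∑ F ∈ S, (F.card : ℝ) = Fintype.card V * S.card - ∑ z : V,
      ((E.powerset.filter (fun F => z ∈ Mn a b κ F ∧ NBC a b E ρ F)).card : ℝ) := by
    have h2 : ∀ F ∈ S, (F.card : ℝ) = Fintype.card V - (Mn a b κ F).card := by
      intro F hF
      rw [hS, mem_filter, mem_powerset] at hF
      have := card_add_card_Mn hκ hρ hF.1 hF.2
      rw [← this]; push_cast; ring
    rw [Finset.sum_congr rfl h2, Finset.sum_sub_distrib, Finset.sum_const, nsmul_eq_mul]
    congr 1
    · ring
    · have h3 : ∀ F ∈ S, ((Mn a b κ F).card : ℝ) = ∑ z : V, if z ∈ Mn a b κ F then (1 : ℝ) else 0 := by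
        intro F _
        rw [Finset.sum_boole]
        congr 2
        ext x; simp
      rw [Finset.sum_congr rfl h3, Finset.sum_comm]
      refine Finset.sum_congr rfl ?_
      intro z _
      rw [Finset.sum_boole, hS, filter_filter]
      congr 2
      ext F; simp only [mem_filter]; tauto
  rw [h1, Finset.sum_mul]
  have h4 : ∀ z : V, (dn b E z : ℝ) / (dn b E z + 1) * S.card + ((E.powerset.filter
      (fun F => z ∈ Mn a b κ F ∧ NBC a b E ρ F)).card : ℝ) ≤ S.card := by
    intro z
    have h5 := key_ineq (κ := κ) hκ hρ hab hinj z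
    have h6 : ((dn b E z : ℝ) + 1) * (E.powerset.filter
      (fun F => z ∈ Mn a b κ F ∧ NBC a b E ρ F)).card ≤ S.card := by exact_mod_cast h5
    have h7 : (0 : ℝ) < (dn b E z : ℝ) + 1 := by positivity
    have h8 : ((E.powerset.filter
      (fun F => z ∈ Mn a b κ F ∧ NBC a b E ρ F)).card : ℝ) ≤ S.card / ((dn b E z : ℝ) + 1) := by
      rw [le_div_iff₀ h7]; linarith
    have h9 : (dn b E z : ℝ) / (dn b E z + 1) * S.card + S.card / ((dn b E z : ℝ) + 1) = S.card := by
      field_simp
    linarith
  have h10 := Finset.sum_le_sum (fun z (_ : z ∈ (univ : Finset V)) => h4 z)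
  rw [Finset.sum_add_distrib, Finset.sum_const, nsmul_eq_mul, card_univ] at h10
  linarith

end main

end Pool.Agent.Helper431.NBC
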