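import Mathlib

set_option autoImplicit false
open Finset

namespace Pool.Agent.Helper431.NBC

/-- numeric part -/
noncomputable def g (y : ℕ) : ℝ := 1 / 2 - 1 / ((y : ℝ) + 2)

theorem g_zero : g 0 = 0 := by norm_num [g]

theorem g_conv {A B C D : ℕ} (hAB : A ≤ B) (hAC : A ≤ C) (h : A + D = B + C) :
    g A + g D ≤ g B + g C := by
  unfold g
  obtain ⟨p, rfl⟩ := Nat.exists_eq_add_of_le hAB
  obtain ⟨q, rfl⟩ := Nat.exists_eq_add_of_le hAC
  have hD : D = A + p + q := by omega
  subst hD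
  have h1 : (0 : ℝ) < (A : ℝ) + 2 := by positivity
  have h2 : (0 : ℝ) < ((A + p : ℕ) : ℝ) + 2 := by positivity
  have h3 : (0 : ℝ) < ((A + q : ℕ) : ℝ) + 2 := by positivity
  have h4 : (0 : ℝ) < ((A + p + q : ℕ) : ℝ) + 2 := by positivity
  have key : 1 / (((A + p : ℕ) : ℝ) + 2) + 1 / (((A + q : ℕ) : ℝ) + 2) ≤
      1 / ((A : ℝ) + 2) + 1 / (((A + p + q : ℕ) : ℝ) + 2) := by
    rw [div_add_div _ _ h2.ne' h3.ne', div_add_div _ _ h1.ne' h4.ne', div_le_div_iff₀ (by positivity)
      (by positivity)]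
    push_cast
    have hp : (0 : ℝ) ≤ p := Nat.cast_nonneg _
    have hq : (0 : ℝ) ≤ q := Nat.cast_nonneg _
    have hA : (0 : ℝ) ≤ A := Nat.cast_nonneg _
    nlinarith [mul_nonneg hp hq, mul_nonneg (mul_nonneg hp hq) hA, mul_nonneg (mul_nonneg hp hq) hp,
      mul_nonneg (mul_nonneg hp hq) hq]
  linarith

theorem choose_le_sum (y : ℕ → ℕ) (h0 : y 0 = 0) (m : ℕ) (hy : ∀ i, i < m → y (i + 1) ≤ y i + 1) :
    (y m + 1).choose 2 ≤ ∑ i ∈ range (m + 1), y i := by
  induction m with
  | zero => simp [h0]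
  | succ m ih =>
    have ih' := ih (fun i hi => hy i (by omega))
    rw [sum_range_succ]
    have h1 := hy m (by omega)
    have h2 : (y (m + 1)).choose 2 ≤ (y m + 1).choose 2 := Nat.choose_le_choose 2 h1
    have h3 : (y (m + 1) + 1).choose 2 = (y (m + 1)).choose 2 + y (m + 1) := by
      rw [Nat.choose_succ_succ' (y (m + 1)) 1, Nat.choose_one_right]; ring
    omega

theorem opt (m : ℕ) : ∀ (y : ℕ → ℕ), y 0 = 0 → (∀ i, i + 1 < m → y (i + 1) ≤ y i + 1) →
    ∀ s j, j ≤ s → ∑ i ∈ range m, y i = (s + 1).choose 2 + j →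
    ∑ i ∈ range (s + 1), g i + g j ≤ ∑ i ∈ range m, g (y i) := by
  induction m with
  | zero =>
    intro y h0 hy s j hj hsum
    simp only [range_zero, sum_empty] at hsum
    have hj0 : j = 0 := by omega
    have hs : (s + 1).choose 2 = 0 := by omega
    have hs0 : s = 0 := by
      by_contra h
      have : 0 < (s + 1).choose 2 := Nat.choose_pos (by omega)
      omega
    subst hj0 hs0
    simp [g_zero]
  | succ m ih =>
    intro y h0 hy s j hj hsum
    have hlast := choose_le_sum y h0 m (fun i hi => hy i (by omega))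
    rw [hsum] at hlast
    set x := y m with hx
    have hcs : (s + 1 + 1).choose 2 = (s + 1) + (s + 1).choose 2 := by
      rw [Nat.choose_succ_succ' (s + 1) 1, Nat.choose_one_right]
    have hxs : x ≤ s := by
      by_contra hlt
      push Not at hlt
      have : (s + 1 + 1).choose 2 ≤ (x + 1).choose 2 := Nat.choose_le_choose 2 (by omega)
      omega
    rw [sum_range_succ] at hsum
    rw [sum_range_succ (fun i => g (y i)) m]
    rw [← hx] at hsum ⊢
    have ihy := ih y h0 (fun i hi => hy i (by omega))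
    by_cases hxj : x ≤ j
    · have h1 := ihy s (j - x) (by omega) (by omega)
      have h2 : g 0 + g j ≤ g (j - x) + g x := g_conv (by omega) (by omega) (by omega)
      rw [g_zero] at h2
      linarith
    · push Not at hxj
      obtain ⟨t, rfl⟩ : ∃ t, s = t + 1 := ⟨s - 1, by omega⟩
      have hct : (t + 1 + 1).choose 2 = (t + 1) + (t + 1).choose 2 := by
        rw [Nat.choose_succ_succ' (t + 1) 1, Nat.choose_one_right]
      have h1 := ihy t (t + 1 - (x - j)) (by omega) (by omega)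
      have h2 : g j + g (t + 1) ≤ g (t + 1 - (x - j)) + g x :=
        g_conv (by omega) (by omega) (by omega)
      rw [sum_range_succ g (t + 1)]
      linarith

/-- the extremal value -/
noncomputable def val (n r j : ℕ) : ℝ :=
  (∑ i ∈ range r, (i : ℝ) / (i + 1)) + ((j : ℝ) + 1) / (j + 2) + ((n : ℝ) - r - 1) / 2

theorem val_eq {n r j : ℕ} (hr : 2 ≤ r) :
    val n r j = ((n : ℝ) - 1) / 2 + (∑ i ∈ range (r - 1), g i + g j) := by
  obtain ⟨t, rfl⟩ : ∃ t, r = t + 1 := ⟨r - 1, by omega⟩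
  unfold val
  rw [sum_range_succ', Nat.add_sub_cancel]
  have h1 : ∀ i ∈ range t, (((i + 1 : ℕ) : ℝ)) / (((i + 1 : ℕ) : ℝ) + 1) = 1 / 2 + g i := by
    intro i _
    unfold g
    have : (i : ℝ) + 2 ≠ 0 := by positivity
    push_cast
    have h3 : (i : ℝ) + 1 + 1 ≠ 0 := by positivity
    field_simp
    ring
  rw [sum_congr rfl h1, sum_add_distrib, sum_const, card_range, nsmul_eq_mul]
  have h2 : ((j : ℝ) + 1) / (j + 2) = 1 / 2 + g j := by
    unfold g
    have : (j : ℝ) + 2 ≠ 0 := by positivity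
    field_simp
    ring
  rw [h2]
  push_cast
  ring

theorem numeric {n r j : ℕ} (x : ℕ → ℕ) (hr2 : 2 ≤ r) (hrn : r < n) (hj : j + 1 < r)
    (h0 : x 0 = 0) (hx : ∀ i, i + 1 < n → 1 ≤ x (i + 1) ∧ x (i + 1) ≤ x i + 1)
    (hsum : ∑ i ∈ range n, x i = r.choose 2 + (n - r) + j) :
    val n r j ≤ ∑ i ∈ range n, (x i : ℝ) / (x i + 1) := by
  obtain ⟨m, rfl⟩ : ∃ m, n = m + 1 := ⟨n - 1, by omega⟩
  obtain ⟨s, rfl⟩ : ∃ s, r = s + 2 := ⟨r - 2, by omega⟩
  rw [val_eq hr2]
  rw [sum_range_succ'] at hsum ⊢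
  rw [h0] at hsum ⊢
  have hcs : (s + 2).choose 2 = (s + 1) + (s + 1).choose 2 := by
    rw [Nat.choose_succ_succ' (s + 1) 1, Nat.choose_one_right]
  set y : ℕ → ℕ := fun i => x (i + 1) - 1 with hy
  have hxy : ∀ i ∈ range m, x (i + 1) = y i + 1 := by
    intro i hi
    rw [mem_range] at hi
    have := (hx i (by omega)).1
    simp only [hy]; omega
  have hsum2 : ∑ i ∈ range m, y i = (s + 1).choose 2 + j := by
    rw [sum_congr rfl hxy, sum_add_distrib, sum_const, card_range, smul_eq_mul] at hsum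
    omega
  have hopt := opt m y (by
      simp only [hy]
      by_cases hm : 0 + 1 < m + 1
      · have := (hx 0 hm).2
        rw [h0] at this
        omega
      · omega) (by
      intro i hi
      have h1 := hx i (by omega)
      have h2 := hx (i + 1) (by omega)
      simp only [hy]
      omega) s j (by omega) hsum2
  have h1 : ∀ i ∈ range m, ((x (i + 1) : ℕ) : ℝ) / (((x (i + 1) : ℕ) : ℝ) + 1) = 1 / 2 + g (y i) := by
    intro i hi
    rw [hxy i hi]
    unfold g
    have : (y i : ℝ) + 2 ≠ 0 := by positivity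
    have h3 : (y i : ℝ) + 1 + 1 ≠ 0 := by positivity
    push_cast
    field_simp
    ring
  rw [sum_congr rfl h1, sum_add_distrib, sum_const, card_range, nsmul_eq_mul]
  have : s + 2 - 1 = s + 1 := by omega
  rw [this]
  push_cast
  norm_num
  linarith

end Pool.Agent.Helper431.NBC
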