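import Pool.Agent.Helper431.NBC2
import Pool.Agent.Helper431.NBC3

set_option autoImplicit false
set_option linter.dupNamespace false
open Finset Classical

namespace Pool.Agent.Helper431.NBC

section mcs
variable {V : Type*} [Fintype V] [Nonempty V] (G : SimpleGraph V)

noncomputable def cnt (S : Finset V) (w : V) : ℕ := (S.filter (fun u => G.Adj u w)).card

omit [Nonempty V] in
theorem exists_pick (S : Finset V) (h : (univ \ S).Nonempty) :
    ∃ v ∈ univ \ S, ∀ w ∈ univ \ S, cnt G S w ≤ cnt G S v :=
  Finset.exists_max_image _ _ h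

noncomputable def pick (S : Finset V) : V :=
  if h : (univ \ S).Nonempty then (exists_pick G S h).choose else Classical.arbitrary V

/-- first `m` vertices of the maximum cardinality search -/
noncomputable def Sq : ℕ → Finset V
  | 0 => ∅
  | m + 1 => insert (pick G (Sq m)) (Sq m)

theorem pick_spec {S : Finset V} (h : S.card < Fintype.card V) :
    pick G S ∉ S ∧ ∀ w, w ∉ S → cnt G S w ≤ cnt G S (pick G S) := by
  have hne : (univ \ S).Nonempty := by
    rw [← Finset.card_pos, ← Finset.compl_eq_univ_sdiff, Finset.card_compl]; omega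
  have := (exists_pick G S hne).choose_spec
  unfold pick
  rw [dif_pos hne]
  refine ⟨by simpa using this.1, fun w hw => this.2 w (by simpa using hw)⟩

theorem card_Sq {m : ℕ} (hm : m ≤ Fintype.card V) : (Sq G m).card = m := by
  induction m with
  | zero => rfl
  | succ m ih =>
    have := ih (by omega)
    rw [Sq, card_insert_of_notMem (pick_spec G (by omega)).1, this]

theorem Sq_mono {i j : ℕ} (h : i ≤ j) : Sq G i ⊆ Sq G j := by
  induction h with
  | refl => exact Subset.refl _
  | step _ ih => exact ih.trans (subset_insert _ _)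

theorem mem_Sq {m : ℕ} {w : V} : w ∈ Sq G m ↔ ∃ j < m, pick G (Sq G j) = w := by
  induction m with
  | zero => simp [Sq]
  | succ m ih =>
    rw [Sq, mem_insert, ih]
    constructor
    · rintro (h | ⟨j, hj, h⟩)
      · exact ⟨m, by omega, h.symm⟩
      · exact ⟨j, by omega, h⟩
    · rintro ⟨j, hj, h⟩
      rcases Nat.lt_succ_iff_lt_or_eq.1 hj with h' | h'
      · exact Or.inr ⟨j, h', h⟩
      · subst h'; exact Or.inl h.symm

theorem seq_inj : Function.Injective (fun i : Fin (Fintype.card V) => pick G (Sq G i)) := by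
  have key : ∀ i j : Fin (Fintype.card V), i < j → pick G (Sq G i) ≠ pick G (Sq G j) := by
    intro i j hij h
    have h1 : pick G (Sq G i) ∈ Sq G j := (mem_Sq G).2 ⟨i, hij, rfl⟩
    have h2 := (pick_spec G (S := Sq G j) (by rw [card_Sq G j.2.le]; exact j.2)).1
    rw [h] at h1; exact h2 h1
  intro i j h
  rcases lt_trichotomy i j with h' | h' | h'
  · exact absurd h (key i j h')
  · exact h'
  · exact absurd h.symm (key j i h')

noncomputable def seqEquiv : Fin (Fintype.card V) ≃ V :=
  Equiv.ofBijective (fun i : Fin (Fintype.card V) => pick G (Sq G i))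
    ((Fintype.bijective_iff_injective_and_card _).2 ⟨seq_inj G, by simp⟩)

theorem seqEquiv_apply (i : Fin (Fintype.card V)) : seqEquiv G i = pick G (Sq G i) := rfl

noncomputable def kap (v : V) : ℕ := ((seqEquiv G).symm v : ℕ)

theorem kap_inj : Function.Injective (kap G) := by
  intro v w h
  exact (seqEquiv G).symm.injective (Fin.ext h)

theorem kap_seq (i : Fin (Fintype.card V)) : kap G (seqEquiv G i) = i := by simp [kap]

theorem kap_lt {i : ℕ} {w : V} (hi : i ≤ Fintype.card V) : kap G w < i ↔ w ∈ Sq G i := by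
  rw [mem_Sq]
  constructor
  · intro h
    refine ⟨kap G w, h, ?_⟩
    have := (seqEquiv G).apply_symm_apply w
    rw [seqEquiv_apply] at this
    exact this
  · rintro ⟨j, hj, rfl⟩
    have := kap_seq G ⟨j, by omega⟩
    rw [seqEquiv_apply] at this
    simp only at this
    omega

noncomputable def xs (i : ℕ) : ℕ := cnt G (Sq G i) (pick G (Sq G i))

theorem xs_zero : xs G 0 = 0 := by
  unfold xs cnt
  rw [Sq, Finset.filter_empty, card_empty]

theorem xs_step (hG : G.Connected) {i : ℕ} (hi : i + 1 < Fintype.card V) :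
    1 ≤ xs G (i + 1) ∧ xs G (i + 1) ≤ xs G i + 1 := by
  have hc := card_Sq G (m := i + 1) (by omega)
  have hc0 := card_Sq G (m := i) (by omega)
  have hp := pick_spec G (S := Sq G (i + 1)) (by omega)
  have hp0 := pick_spec G (S := Sq G i) (by omega)
  constructor
  · obtain ⟨u, hu⟩ : (Sq G (i + 1)).Nonempty := by rw [← Finset.card_pos]; omega
    obtain ⟨p⟩ := hG.preconnected u (pick G (Sq G (i + 1)))
    obtain ⟨d, _, hd1, hd2⟩ := p.exists_boundary_dart (↑(Sq G (i + 1)) : Set V) (by simpa using hu)
      (by simpa using hp.1)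
    have h1 : 1 ≤ cnt G (Sq G (i + 1)) d.snd := by
      unfold cnt
      rw [Nat.succ_le_iff, Finset.card_pos]
      exact ⟨d.fst, by rw [mem_filter]; exact ⟨by simpa using hd1, d.adj⟩⟩
    exact h1.trans (hp.2 _ (by simpa using hd2))
  · have hw : pick G (Sq G (i + 1)) ∉ Sq G i := fun h => hp.1 (Sq_mono G (Nat.le_succ i) h)
    have h1 := hp0.2 _ hw
    have h2 : ∀ w, cnt G (Sq G (i + 1)) w ≤ cnt G (Sq G i) w + 1 := by
      intro w
      unfold cnt
      rw [Sq, filter_insert]
      split_ifs
      · exact (card_insert_le _ _)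
      · omega
    have h3 := h2 (pick G (Sq G (i + 1)))
    unfold xs
    omega

end mcs

section ends
variable {V : Type*} (κ : V → ℕ)

theorem exists_ends (e : Sym2 V) : ∃ p : V × V, e = s(p.1, p.2) ∧ κ p.1 ≤ κ p.2 := by
  induction e with
  | _ x y =>
    rcases le_total (κ x) (κ y) with h | h
    · exact ⟨(x, y), rfl, h⟩
    · exact ⟨(y, x), Sym2.eq_swap, h⟩

noncomputable def ea (e : Sym2 V) : V := (exists_ends κ e).choose.1
noncomputable def eb (e : Sym2 V) : V := (exists_ends κ e).choose.2

theorem ends_eq (e : Sym2 V) : e = s(ea κ e, eb κ e) := (exists_ends κ e).choose_spec.1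
theorem ends_le (e : Sym2 V) : κ (ea κ e) ≤ κ (eb κ e) := (exists_ends κ e).choose_spec.2

variable {κ}

theorem ends_mk {x y : V} (h : κ x < κ y) : ea κ s(x, y) = x ∧ eb κ s(x, y) = y := by
  have h1 := ends_eq κ s(x, y)
  have h2 := ends_le κ s(x, y)
  rw [Sym2.eq_iff] at h1
  rcases h1 with ⟨h3, h4⟩ | ⟨h3, h4⟩
  · exact ⟨h3.symm, h4.symm⟩
  · rw [← h3, ← h4] at h2; omega

theorem ends_lt [Fintype V] (hκ : Function.Injective κ) (G : SimpleGraph V) :
    ∀ e ∈ G.edgeFinset, κ (ea κ e) < κ (eb κ e) := by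
  intro e he
  rw [SimpleGraph.mem_edgeFinset] at he
  have h1 := ends_eq κ e
  rw [h1] at he
  rw [SimpleGraph.mem_edgeSet] at he
  exact lt_of_le_of_ne (ends_le κ e) (fun h => he.ne (hκ h))

theorem ends_inj (e f : Sym2 V) (h1 : ea κ e = ea κ f) (h2 : eb κ e = eb κ f) : e = f := by
  rw [ends_eq κ e, ends_eq κ f, h1, h2]

theorem dn_eq [Fintype V] (hκ : Function.Injective κ) (G : SimpleGraph V) (z : V) :
    dn (eb κ) G.edgeFinset z = (univ.filter (fun w => κ w < κ z ∧ G.Adj w z)).card := by
  unfold dn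
  symm
  refine Finset.card_bij (fun w _ => s(w, z)) ?_ ?_ ?_
  · intro w hw
    simp only [mem_filter, mem_univ, true_and] at hw
    rw [mem_filter, SimpleGraph.mem_edgeFinset, SimpleGraph.mem_edgeSet]
    exact ⟨hw.2, (ends_mk hw.1).2⟩
  · intro w _ w' _ h
    exact Sym2.congr_left.1 h
  · intro e he
    rw [mem_filter] at he
    have h1 := ends_lt hκ G e he.1
    have h2 := ends_eq κ e
    have h3 := he.1
    rw [SimpleGraph.mem_edgeFinset, h2, SimpleGraph.mem_edgeSet] at h3
    rw [he.2] at h1 h2 h3
    exact ⟨ea κ e, by simp only [mem_filter, mem_univ, true_and]; exact ⟨h1, h3⟩, h2.symm⟩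

theorem sum_dn [Fintype V] (G : SimpleGraph V) :
    ∑ z : V, dn (eb κ) G.edgeFinset z = G.edgeFinset.card := by
  unfold dn
  exact (Finset.card_eq_sum_card_fiberwise (fun _ _ => by simp)).symm

end ends

section lower
variable {V : Type*} [Fintype V]

/-- lower bound for connected graphs, in terms of `NBC` -/
theorem lower_connected (G : SimpleGraph V) (hG : G.Connected) {r j : ℕ} (hr2 : 2 ≤ r)
    (hrn : r < Fintype.card V) (hj : j + 1 < r)
    (hk : G.edgeFinset.card = r.choose 2 + (Fintype.card V - r) + j) :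
    ∃ κ : V → ℕ, Function.Injective κ ∧ ∀ ρ : Sym2 V → ℕ, Set.InjOn ρ G.edgeFinset →
      val (Fintype.card V) r j ≤
      (∑ F ∈ G.edgeFinset.powerset.filter (fun F => NBC (ea κ) (eb κ) G.edgeFinset ρ F),
        (F.card : ℝ)) /
        (G.edgeFinset.powerset.filter (fun F => NBC (ea κ) (eb κ) G.edgeFinset ρ F)).card := by
  have : Nonempty V := hG.nonempty
  refine ⟨kap G, kap_inj G, ?_⟩
  intro ρ hρ
  have hdn : ∀ i : Fin (Fintype.card V), dn (eb (kap G)) G.edgeFinset (seqEquiv G i) = xs G i := by
    intro i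
    rw [dn_eq (kap_inj G), kap_seq]
    unfold xs cnt
    congr 1
    ext w
    simp only [mem_filter, mem_univ, true_and]
    rw [kap_lt G i.2.le, seqEquiv_apply]
  have h1 := mean_lower (a := ea (kap G)) (b := eb (kap G)) (E := G.edgeFinset) (kap_inj G) hρ
    (ends_lt (kap_inj G) G) (fun e _ f _ h1 h2 => ends_inj e f h1 h2)
  refine le_trans ?_ h1
  have h2 : ∑ z : V, (dn (eb (kap G)) G.edgeFinset z : ℝ) / (dn (eb (kap G)) G.edgeFinset z + 1) =
      ∑ i ∈ range (Fintype.card V), (xs G i : ℝ) / (xs G i + 1) := by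
    rw [← (seqEquiv G).sum_comp, ← Fin.sum_univ_eq_sum_range
      (fun i => (xs G i : ℝ) / (xs G i + 1))]
    refine Finset.sum_congr rfl (fun i _ => ?_)
    rw [hdn]
  rw [h2]
  refine numeric (xs G) hr2 hrn hj (xs_zero G) (fun i hi => xs_step G hG hi) ?_
  rw [← hk, ← sum_dn (κ := kap G) G, ← (seqEquiv G).sum_comp, ← Fin.sum_univ_eq_sum_range]
  refine Finset.sum_congr rfl (fun i _ => ?_)
  rw [hdn]

end lower

section upper
variable {V ι : Type*} [Fintype V] {a b : ι → V} {κ : V → ℕ} {E : Finset ι} {ρ : ι → ℕ}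

omit [Fintype V] in
/-- if every vertex is the top of at most one edge of `F`, two vertices which are top of no edge
are not joined -/
theorem tops_conn (hab : ∀ i ∈ E, κ (a i) < κ (b i)) {F : Finset ι} (hFE : F ⊆ E)
    (htop : ∀ i ∈ F, ∀ j ∈ F, b i = b j → i = j) {x y : V}
    (hx : ∀ i ∈ F, b i ≠ x) (hy : ∀ i ∈ F, b i ≠ y) (h : Conn a b F x y) : x = y := by
  revert hFE htop hx hy h
  refine Finset.induction_on_max_value (fun i => κ (b i)) (motive := fun F => F ⊆ E →
    (∀ i ∈ F, ∀ j ∈ F, b i = b j → i = j) → (∀ i ∈ F, b i ≠ x) → (∀ i ∈ F, b i ≠ y) →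
    Conn a b F x y → x = y) F ?_ ?_
  · intro _ _ _ _ h; exact conn_empty.1 h
  · intro i s his hmax ih hsE htop hx hy h
    have hiE := hsE (mem_insert_self i s)
    -- b i is isolated in s
    have hiso : ∀ u w, Conn a b s u w → (u = b i ↔ w = b i) := by
      intro u w huw
      refine conn_induct (P := fun u w => (u = b i ↔ w = b i)) (fun _ => Iff.rfl)
        (fun _ _ h => h.symm) (fun _ _ _ h h' => h.trans h') ?_ huw
      intro j hj
      have hjE := hsE (mem_insert_of_mem hj)
      have h1 := hab j hjE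
      have h2 := hmax j hj
      have h3 : b j ≠ b i := by
        intro he
        have := htop j (mem_insert_of_mem hj) i (mem_insert_self _ _) he
        subst this; exact his hj
      constructor
      · intro h4
        rw [h4] at h1
        omega
      · intro h4; exact absurd h4 h3
    have hxi := hx i (mem_insert_self _ _)
    have hyi := hy i (mem_insert_self _ _)
    have ih' := ih ((subset_insert _ _).trans hsE)
      (fun i hi j hj => htop i (mem_insert_of_mem hi) j (mem_insert_of_mem hj))
      (fun i hi => hx i (mem_insert_of_mem hi)) (fun i hi => hy i (mem_insert_of_mem hi))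
    rcases conn_insert.1 h with h | ⟨_, h⟩ | ⟨h, _⟩
    · exact ih' h
    · exact absurd ((hiso _ _ h).1 rfl).symm hyi
    · exact absurd ((hiso _ _ h).2 rfl).symm hxi

/-- exact count for systems in which the earlier neighbours of every vertex are pairwise joined -/
theorem key_eq (hκ : Function.Injective κ) (hρ : Set.InjOn ρ E)
    (hab : ∀ i ∈ E, κ (a i) < κ (b i))
    (hinj : ∀ i ∈ E, ∀ j ∈ E, a i = a j → b i = b j → i = j)
    (hpeo : ∀ i ∈ E, ∀ j ∈ E, b i = b j → κ (a i) < κ (a j) → ∃ k ∈ E, a k = a i ∧ b k = a j)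
    (z : V) :
    (E.powerset.filter (fun F => NBC a b E ρ F)).card ≤
    (dn b E z + 1) * (E.powerset.filter (fun F => z ∈ Mn a b κ F ∧ NBC a b E ρ F)).card := by
  -- a special order
  set K := (univ : Finset V).sup κ + 1 with hK
  have hlt : ∀ v, κ v < K := fun v => Nat.lt_succ_of_le (Finset.le_sup (mem_univ v))
  set σ : ι → ℕ := fun i => (K - κ (b i)) * K + κ (a i) with hσ
  have hσinj : Set.InjOn σ E := by
    intro i hi j hj h
    simp only [hσ] at h
    have h1 := hlt (a i)
    have h2 := hlt (a j)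
    have h3 : (K - κ (b i)) = (K - κ (b j)) := by
      have e1 : ((K - κ (b i)) * K + κ (a i)) / K = K - κ (b i) := by
        rw [mul_comm, Nat.mul_add_div (by omega), Nat.div_eq_of_lt h1, add_zero]
      have e2 : ((K - κ (b j)) * K + κ (a j)) / K = K - κ (b j) := by
        rw [mul_comm, Nat.mul_add_div (by omega), Nat.div_eq_of_lt h2, add_zero]
      rw [← e1, ← e2, h]
    have h4 := hlt (b i)
    have h5 := hlt (b j)
    rw [h3] at h
    exact hinj i hi j hj (hκ (by omega)) (hκ (by omega))
  have hσlt : ∀ i j, κ (b j) < κ (b i) → σ i < σ j := by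
    intro i j h
    simp only [hσ]
    have h1 := hlt (a i)
    have h4 := hlt (b i)
    have h5 : K - κ (b i) + 1 ≤ K - κ (b j) := by omega
    have h6 : (K - κ (b i) + 1) * K ≤ (K - κ (b j)) * K := Nat.mul_le_mul_right _ h5
    have h7 : (K - κ (b i) + 1) * K = (K - κ (b i)) * K + K := by ring
    omega
  have i1 := card_NBC_indep (a := a) (b := b) hκ hρ hσinj (fun F => z ∈ Mn a b κ F) (by
    intro F F' h
    simp only [mem_Mn, h])
  have i2 := card_NBC_indep (a := a) (b := b) hκ hρ hσinj (fun _ => True) (by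
    intro F F' h; exact Iff.rfl)
  simp only [true_and] at i2
  have i1' : (E.powerset.filter (fun F => z ∈ Mn a b κ F ∧ NBC a b E ρ F)).card =
      (E.powerset.filter (fun F => z ∈ Mn a b κ F ∧ NBC a b E σ F)).card := by convert i1
  rw [i1', i2]
  set Y := E.filter (fun i => b i = z) with hY
  set S := E.powerset.filter (fun F => z ∈ Mn a b κ F ∧ NBC a b E σ F) with hS
  have hcard : (dn b E z + 1) * S.card = ((insertNone Y) ×ˢ S).card := by
    rw [card_product, card_insertNone, dn]
  rw [hcard]
  -- tops distinct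
  have htops : ∀ F, F ⊆ E → NBC a b E σ F → ∀ i ∈ F, ∀ j ∈ F, b i = b j → i = j := by
    intro F hFE hN
    have key : ∀ i ∈ F, ∀ j ∈ F, b i = b j → ¬ κ (a i) < κ (a j) := by
      intro i hi j hj hb hlt'
      obtain ⟨k, hk, hka, hkb⟩ := hpeo i (hFE hi) j (hFE hj) hb hlt'
      apply hN k hk
      have h1 : σ i < σ k := hσlt i k (by rw [hkb, hb]; exact hab j (hFE hj))
      have h2 : σ j < σ k := hσlt j k (by rw [hkb]; exact hab j (hFE hj))
      rw [hka, hkb]
      have c1 : Conn a b (F.filter (fun l => σ l < σ k)) (a i) (b i) :=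
        Conn.edge (mem_filter.2 ⟨hi, h1⟩)
      have c2 : Conn a b (F.filter (fun l => σ l < σ k)) (a j) (b j) :=
        Conn.edge (mem_filter.2 ⟨hj, h2⟩)
      rw [hb] at c1
      exact c1.trans c2.symm
    intro i hi j hj hb
    have k1 := key i hi j hj hb
    have k2 := key j hj i hi hb.symm
    exact hinj i (hFE hi) j (hFE hj) (hκ (by omega)) hb
  set top : Finset ι → Option ι := fun F => if h : ∃ i ∈ F, b i = z then some h.choose else none
    with htop
  apply Finset.card_le_card_of_injOn (fun F => (top F, F.filter (fun i => b i ≠ z)))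
  · intro F hF
    rw [mem_coe, mem_filter, mem_powerset] at hF
    obtain ⟨hFE, hN⟩ := hF
    rw [mem_coe, mem_product]
    constructor
    · simp only [htop]
      split_ifs with h
      · have hs := h.choose_spec
        rw [some_mem_insertNone, hY, mem_filter]
        exact ⟨hFE hs.1, hs.2⟩
      · exact none_mem_insertNone
    · simp only
      have hsub : F.filter (fun i => b i ≠ z) ⊆ F := filter_subset _ _
      rw [hS, mem_filter, mem_powerset]
      refine ⟨hsub.trans hFE, ?_, hN.mono hsub⟩
      obtain ⟨p, hp, hzp⟩ := exists_Mn (a := a) (b := b) (κ := κ) (F.filter (fun i => b i ≠ z)) z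
      have hpt : ∀ i ∈ F.filter (fun i => b i ≠ z), b i ≠ p := by
        intro i hi hbi
        have c := Conn.edge (a := a) (b := b) hi
        rw [hbi] at c
        have h1 := mem_Mn.1 hp _ c.symm
        have h2 := hab i (hFE (hsub hi))
        rw [hbi] at h2; omega
      have := tops_conn (E := E) (κ := κ) hab (hsub.trans hFE)
        (fun i hi j hj => htops F hFE hN i (hsub hi) j (hsub hj))
        (fun i hi => (mem_filter.1 hi).2) hpt hzp
      rw [← this] at hp; exact hp
  · intro F hF F' hF' heq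
    rw [mem_coe, mem_filter, mem_powerset] at hF hF'
    simp only [Prod.mk.injEq] at heq
    obtain ⟨h1, h2⟩ := heq
    have htopspec : ∀ F, F ⊆ E → NBC a b E σ F → ∀ i, (i ∈ F ∧ b i = z) ↔ top F = some i := by
      intro F hFE hN i
      constructor
      · rintro ⟨hi, hbi⟩
        have hex : ∃ i ∈ F, b i = z := ⟨i, hi, hbi⟩
        simp only [htop, dif_pos hex]
        have hs := hex.choose_spec
        rw [htops F hFE hN _ hs.1 i hi (by rw [hs.2, hbi])]
      · intro h
        simp only [htop] at h
        split_ifs at h with hex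
        have hs := hex.choose_spec
        have := Option.some_injective _ h
        rw [← this]
        exact hs
    ext i
    by_cases hbi : b i = z
    · have e1 := htopspec F hF.1 hF.2 i
      have e2 := htopspec F' hF'.1 hF'.2 i
      rw [h1] at e1
      have := e1.trans e2.symm
      constructor
      · intro hi; exact (this.1 ⟨hi, hbi⟩).1
      · intro hi; exact (this.2 ⟨hi, hbi⟩).1
    · have := Finset.ext_iff.1 h2 i
      simp only [mem_filter] at this
      constructor
      · intro hi; exact (this.1 ⟨hi, hbi⟩).1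
      · intro hi; exact (this.2 ⟨hi, hbi⟩).1

/-- The exact mean for such systems. -/
theorem mean_eq (hκ : Function.Injective κ) (hρ : Set.InjOn ρ E)
    (hab : ∀ i ∈ E, κ (a i) < κ (b i))
    (hinj : ∀ i ∈ E, ∀ j ∈ E, a i = a j → b i = b j → i = j)
    (hpeo : ∀ i ∈ E, ∀ j ∈ E, b i = b j → κ (a i) < κ (a j) → ∃ k ∈ E, a k = a i ∧ b k = a j) :
    (∑ F ∈ E.powerset.filter (fun F => NBC a b E ρ F), (F.card : ℝ)) /
        (E.powerset.filter (fun F => NBC a b E ρ F)).card =
    ∑ z : V, (dn b E z : ℝ) / (dn b E z + 1) := by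
  apply le_antisymm ?_ (mean_lower hκ hρ hab hinj)
  set S := E.powerset.filter (fun F => NBC a b E ρ F) with hS
  have hne : ∀ i ∈ E, a i ≠ b i := by
    intro i hi h
    have := hab i hi
    rw [h] at this; exact lt_irrefl _ this
  have hSpos : 0 < (S.card : ℝ) := by
    exact_mod_cast Finset.card_pos.2 ⟨∅, nbc_nonempty hne⟩
  rw [div_le_iff₀ hSpos]
  have h1 : ∑ F ∈ S, (F.card : ℝ) = Fintype.card V * S.card - ∑ z : V,
      ((E.powerset.filter (fun F => z ∈ Mn a b κ F ∧ NBC a b E ρ F)).card : ℝ) := by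
    have h2 : ∀ F ∈ S, (F.card : ℝ) = Fintype.card V - (Mn a b κ F).card := by
      intro F hF
      rw [hS, mem_filter, mem_powerset] at hF
      have := card_add_card_Mn hκ hρ hF.1 hF.2
      rw [← this]; push_cast; ring
    rw [Finset.sum_congr rfl h2, Finset.sum_sub_distrib, Finset.sum_const, nsmul_eq_mul]
    congr 1
    · ring
    · have h3 : ∀ F ∈ S, ((Mn a b κ F).card : ℝ) = ∑ z : V, if z ∈ Mn a b κ F then (1 : ℝ) else 0 := by
        intro F _
        rw [Finset.sum_boole]
        congr 2
        ext x; simp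
      rw [Finset.sum_congr rfl h3, Finset.sum_comm]
      refine Finset.sum_congr rfl ?_
      intro z _
      rw [Finset.sum_boole, hS, filter_filter]
      congr 2
      ext F; simp only [mem_filter]; tauto
  rw [h1, Finset.sum_mul]
  have h4 : ∀ z : V, (S.card : ℝ) ≤ (dn b E z : ℝ) / (dn b E z + 1) * S.card +
      ((E.powerset.filter (fun F => z ∈ Mn a b κ F ∧ NBC a b E ρ F)).card : ℝ) := by
    intro z
    have h5 := key_eq (κ := κ) hκ hρ hab hinj hpeo z
    have h6 : (S.card : ℝ) ≤ ((dn b E z : ℝ) + 1) * (E.powerset.filter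
      (fun F => z ∈ Mn a b κ F ∧ NBC a b E ρ F)).card := by exact_mod_cast h5
    have h7 : (0 : ℝ) < (dn b E z : ℝ) + 1 := by positivity
    have h8 : S.card / ((dn b E z : ℝ) + 1) ≤ ((E.powerset.filter
      (fun F => z ∈ Mn a b κ F ∧ NBC a b E ρ F)).card : ℝ) := by
      rw [div_le_iff₀ h7]; linarith
    have h9 : (dn b E z : ℝ) / (dn b E z + 1) * S.card + S.card / ((dn b E z : ℝ) + 1) = S.card := by
      field_simp
    linarith
  have h10 := Finset.sum_le_sum (fun z (_ : z ∈ (univ : Finset V)) => h4 z)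
  rw [Finset.sum_add_distrib, Finset.sum_const, nsmul_eq_mul, card_univ] at h10
  linarith

end upper

end Pool.Agent.Helper431.NBC
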